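import Pool.Agent.Helper41.ETPP

/-!
# (PP) in terms of regions and zones
-/

namespace Pool.Agent.Helper41.ETPP

open Finset Pool.Agent.Helper83.ET Pool.Agent.ETS

/-- length of the `x` part -/
def dl : Reg → ℕ
  | .P _ f b => b - f
  | .PT _ _ f b => b - f
  | _ => 0

/-- length of the block -/
def dw (C : Codes) : Reg → ℕ
  | .PT _ e _ _ => C.W e
  | _ => 0

/-- block set -/
def dT (C : Codes) : Reg → Finset ℕ
  | .PT _ e _ _ => C.T e
  | _ => {0}

/-- The properties of the block set `T e` at the position `L` of the code `c`. -/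
structure PTok (C : Codes) (c : Code) (B e L : ℕ) : Prop where
  four_le : 4 ≤ C.W e
  even : C.W e % 2 = 0
  lt : ∀ t ∈ C.T e, t < 2 ^ C.W e
  card : (C.T e).card ≤ 2 ^ (C.W e / 2)
  f3 : F3 (C.W e) (C.T e) B
  f4 : L = 0 → ∀ ν, ((C.T e).filter
    (fun t => ∃ x ∈ c.X (C.W e), (c.P (C.W e) x + t) % 2 ^ C.W e = ν)).card ≤ B
  sum : ∀ s, ((C.T e ×ˢ C.T e).filter (fun q => (q.1 + q.2) % 2 ^ C.W e = s)).card ≤ B
  pos : 0 < L → C.W e ≤ L ∧ ∀ i, 1 ≤ i → c.β i ≤ L ∨ L + C.W e ≤ c.β i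

/-- `r` is a region of kind `P p` or `PT p` with bottom `f`. -/
def IsPr (C : Codes) (c : Code) (B p f : ℕ) : Reg → Prop
  | .P p' f' b => p' = p ∧ f' = f ∧ f ≤ b
  | .PT p' e f' b => p' = p ∧ f' = f ∧ f ≤ b ∧ PTok C c B e (b - f)
  | _ => False

variable {C : Codes} {c : Code} {B p f : ℕ}

theorem IsPr.top {r : Reg} (hr : IsPr C c B p f r) : r.top C = f + (dl r + dw C r) := by
  cases r with
  | P p' f' b =>
    obtain ⟨h1, h2, h3⟩ := hr
    simp only [Reg.top, dl, dw]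
    omega
  | PT p' e f' b =>
    obtain ⟨h1, h2, h3, -⟩ := hr
    simp only [Reg.top, dl, dw]
    omega
  | R => exact hr.elim
  | RT => exact hr.elim
  | RTh => exact hr.elim
  | win => exact hr.elim
  | winC => exact hr.elim

theorem IsPr.mem {r : Reg} (hX : ∀ l, C.X p l = c.X l) (hP : ∀ l x, C.P p l x = c.P l x)
    (hr : IsPr C c B p f r) {a κ s : ℕ} (hs : s ∈ (zreg C r a κ).S) :
    ∃ q : ℕ × ℕ, q.1 ∈ c.X (dl r) ∧ q.2 ∈ dT C r ∧
      s = a + 2 ^ f * ((cont c (dl r) (dw C r) q + κ) % 2 ^ (dl r + dw C r)) := by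
  cases r with
  | P p' f' b =>
    obtain ⟨h1, h2, h3⟩ := hr
    subst h1
    subst h2
    simp only [zreg, Reg.V, Reg.bot, Reg.c, Reg.top, Finset.mem_image] at hs
    obtain ⟨z, hz, rfl⟩ := hs
    refine ⟨(z, 0), by rw [← hX]; exact hz, by simp [dT], ?_⟩
    simp only [cont, dl, dw, add_zero, mul_zero, hP]
  | PT p' e f' b =>
    obtain ⟨h1, h2, h3, -⟩ := hr
    subst h1
    subst h2
    simp only [zreg, Reg.V, Reg.bot, Reg.c, Reg.top, Finset.mem_image] at hs
    obtain ⟨z, hz, rfl⟩ := hs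
    rw [mem_pairs] at hz
    refine ⟨Nat.unpair z, by rw [← hX]; exact hz.1, hz.2, ?_⟩
    simp only [cont, dl, dw, hP]
    rw [show b + C.W e - f' = b - f' + C.W e by omega]
  | R => exact hr.elim
  | RT => exact hr.elim
  | RTh => exact hr.elim
  | win => exact hr.elim
  | winC => exact hr.elim

/-- Consistent pairs of values come from pairs of variables with prescribed sum of contents. -/
theorem zcons_le_sol (hX : ∀ l, C.X p l = c.X l) (hP : ∀ l x, C.P p l x = c.P l x)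
    {r r' : Reg} (hr : IsPr C c B p f r) (hr' : IsPr C c B p f r') {K K' : ℕ}
    (hK : r.top C ≤ K) (hK' : r'.top C ≤ K') (n a a' κ κ' : ℕ) :
    ∃ s, (zcons K K' n (zreg C r a κ) (zreg C r' a' κ')).card ≤
      (sol c (dl r) (dw C r) (dT C r) (dl r') (dw C r') (dT C r')
        (min (dl r + dw C r) (dl r' + dw C r')) s).card := by
  set μ := min (dl r + dw C r) (dl r' + dw C r') with hμ
  set Z := zreg C r a κ with hZ
  set Z' := zreg C r' a' κ' with hZ'
  rcases (zcons K K' n Z Z').eq_empty_or_nonempty with h0 | ⟨z0, hz0⟩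
  · exact ⟨0, by rw [h0]; simp⟩
  have hdec : ∀ z ∈ zcons K K' n Z Z', ∃ q q' : ℕ × ℕ,
      (q.1 ∈ c.X (dl r) ∧ q.2 ∈ dT C r) ∧ (q'.1 ∈ c.X (dl r') ∧ q'.2 ∈ dT C r') ∧
      z = (a + 2 ^ f * ((cont c (dl r) (dw C r) q + κ) % 2 ^ (dl r + dw C r)),
        a' + 2 ^ f * ((cont c (dl r') (dw C r') q' + κ') % 2 ^ (dl r' + dw C r'))) ∧
      z.1 + z.2 ≡ n [MOD 2 ^ (f + μ)] := by
    intro z hz
    have h1 := hz
    rw [mem_zcons] at h1
    obtain ⟨q, hq1, hq2, hq3⟩ := hr.mem hX hP h1.1.1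
    obtain ⟨q', hq1', hq2', hq3'⟩ := hr'.mem hX hP h1.1.2
    refine ⟨q, q', ⟨hq1, hq2⟩, ⟨hq1', hq2'⟩, Prod.ext hq3 hq3', ?_⟩
    have ht : Z.top = r.top C := rfl
    have ht' : Z'.top = r'.top C := rfl
    apply zcons_modEq (by rw [ht]; exact hK) (by rw [ht']; exact hK') hz
    · rw [ht, hr.top]
      omega
    · rw [ht', hr'.top]
      omega
  obtain ⟨q0, q0', -, -, hz0e, hz0m⟩ := hdec z0 hz0
  refine ⟨(cont c (dl r) (dw C r) q0 + cont c (dl r') (dw C r') q0') % 2 ^ μ, ?_⟩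
  set G : (ℕ × ℕ) × (ℕ × ℕ) → ℕ × ℕ := fun q =>
    (a + 2 ^ f * ((cont c (dl r) (dw C r) q.1 + κ) % 2 ^ (dl r + dw C r)),
      a' + 2 ^ f * ((cont c (dl r') (dw C r') q.2 + κ') % 2 ^ (dl r' + dw C r'))) with hG
  refine le_trans (Finset.card_le_card ?_) (Finset.card_image_le (f := G))
  intro z hz
  obtain ⟨q, q', hq, hq', hze, hzm⟩ := hdec z hz
  rw [Finset.mem_image]
  refine ⟨(q, q'), ?_, hze.symm⟩
  rw [mem_sol]
  refine ⟨⟨hq, hq'⟩, ?_⟩
  have h1 := hzm.trans hz0m.symm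
  rw [hze, hz0e] at h1
  set A := (cont c (dl r) (dw C r) q + κ) % 2 ^ (dl r + dw C r) with hA
  set A' := (cont c (dl r') (dw C r') q' + κ') % 2 ^ (dl r' + dw C r') with hA'
  set A0 := (cont c (dl r) (dw C r) q0 + κ) % 2 ^ (dl r + dw C r) with hA0
  set A0' := (cont c (dl r') (dw C r') q0' + κ') % 2 ^ (dl r' + dw C r') with hA0'
  have h2 : (a + a') + 2 ^ f * (A + A') ≡ (a + a') + 2 ^ f * (A0 + A0') [MOD 2 ^ (f + μ)] := by
    have e1 : (a + a') + 2 ^ f * (A + A') = a + 2 ^ f * A + (a' + 2 ^ f * A') := by ring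
    have e2 : (a + a') + 2 ^ f * (A0 + A0') = a + 2 ^ f * A0 + (a' + 2 ^ f * A0') := by ring
    rw [e1, e2]
    exact h1
  have h3 := Nat.ModEq.add_left_cancel' _ h2
  rw [pow_add] at h3
  have h4 : A + A' ≡ A0 + A0' [MOD 2 ^ μ] := Nat.ModEq.mul_left_cancel' (by positivity) h3
  have hmod : ∀ (x N : ℕ), μ ≤ N → x % 2 ^ N ≡ x [MOD 2 ^ μ] := by
    intro x N hN
    exact (Nat.mod_modEq x (2 ^ N)).of_dvd (pow_dvd_pow 2 hN)
  have h5 := ((hmod _ _ (min_le_left _ _)).add (hmod _ _ (min_le_right _ _))).symm.trans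
    (h4.trans ((hmod _ _ (min_le_left _ _)).add (hmod _ _ (min_le_right _ _))))
  have h6 : (cont c (dl r) (dw C r) q + cont c (dl r') (dw C r') q') + (κ + κ') ≡
      (cont c (dl r) (dw C r) q0 + cont c (dl r') (dw C r') q0') + (κ + κ') [MOD 2 ^ μ] := by
    have e1 : (cont c (dl r) (dw C r) q + cont c (dl r') (dw C r') q') + (κ + κ') =
        cont c (dl r) (dw C r) q + κ + (cont c (dl r') (dw C r') q' + κ') := by ring
    have e2 : (cont c (dl r) (dw C r) q0 + cont c (dl r') (dw C r') q0') + (κ + κ') =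
        cont c (dl r) (dw C r) q0 + κ + (cont c (dl r') (dw C r') q0' + κ') := by ring
    rw [e1, e2]
    exact h5
  exact Nat.ModEq.add_right_cancel' _ h6

theorem IsPr.blk {r : Reg} (hr : IsPr C c B p f r) (hB : 1 ≤ B) {l' : ℕ}
    (hlt : dl r < l')
    (hg : ∀ p' e f' b, r = Reg.PT p' e f' b → C.W e ∣ dl r ∧ C.W e ∣ l') :
    dl r + dw C r ≤ l' ∧ ∀ s, (trip c (dl r) (dw C r) l' (dT C r) s).card ≤
      4 * B * 2 ^ ((l' - dl r - dw C r + 1) / 2) := by
  cases r with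
  | P p' f' b =>
    simp only [dl, dw, dT] at *
    exact ⟨by omega, fun s => block_plain c hB (by omega) s⟩
  | PT p' e f' b =>
    obtain ⟨h1, h2, h3, h4⟩ := hr
    obtain ⟨h5, h6⟩ := hg _ _ _ _ rfl
    simp only [dl, dw, dT] at *
    subst h2
    have h7 : b - f' + C.W e ≤ l' := by
      obtain ⟨u, hu⟩ := h5
      obtain ⟨v, hv⟩ := h6
      rw [hu, hv] at hlt ⊢
      have huv : u < v := lt_of_mul_lt_mul_left hlt (Nat.zero_le _)
      calc C.W e * u + C.W e = C.W e * (u + 1) := by ring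
        _ ≤ C.W e * v := Nat.mul_le_mul_left _ huv
    refine ⟨h7, ?_⟩
    intro s
    rcases Nat.eq_zero_or_pos (b - f') with hz | hz
    · rw [hz] at h7 hlt ⊢
      apply block_zero c h4.card (by have := h4.four_le; omega) h4.even hB _ (h4.f4 hz)
      obtain ⟨v, hv⟩ := h6
      rcases Nat.lt_or_ge v 2 with h8 | h8
      · left
        have : v = 1 := by
          rcases Nat.eq_zero_or_pos v with h9 | h9
          · rw [h9, mul_zero] at hv
            omega
          · omega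
        rw [hv, this, mul_one]
      · right
        rw [hv, mul_comm]
        exact Nat.mul_le_mul_left _ h8
    · exact block_count c h4.lt h4.four_le h4.even (h4.pos hz).1 (h4.pos hz).2 h7 h4.f3 s
  | R => exact hr.elim
  | RT => exact hr.elim
  | RTh => exact hr.elim
  | win => exact hr.elim
  | winC => exact hr.elim

theorem IsPr.even {r : Reg} (hr : IsPr C c B p f r) : dw C r % 2 = 0 ∧
    (dT C r).card ≤ 2 ^ (dw C r / 2) := by
  cases r with
  | P p' f' b => simp [dw, dT]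
  | PT p' e f' b => exact ⟨hr.2.2.2.even, hr.2.2.2.card⟩
  | R => exact hr.elim
  | RT => exact hr.elim
  | RTh => exact hr.elim
  | win => exact hr.elim
  | winC => exact hr.elim

/-- Block pairs at the same place. -/
theorem same_blocks {r r' : Reg} (hr : IsPr C c B p f r) (hr' : IsPr C c B p f r') (hB : 1 ≤ B)
    (he : ∀ p₁ e₁ f₁ b₁ p₂ e₂ f₂ b₂, r = Reg.PT p₁ e₁ f₁ b₁ → r' = Reg.PT p₂ e₂ f₂ b₂ → e₁ = e₂)
    (s : ℕ) :
    ((dT C r ×ˢ dT C r').filter (fun q => (q.1 + q.2) % 2 ^ (min (dw C r) (dw C r')) = s)).card ≤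
      B * 2 ^ ((dw C r - dw C r' + (dw C r' - dw C r)) / 2) := by
  have hgen : (dT C r).card * (dT C r').card ≤
      B * 2 ^ ((dw C r - dw C r' + (dw C r' - dw C r)) / 2) →
      ((dT C r ×ˢ dT C r').filter
        (fun q => (q.1 + q.2) % 2 ^ (min (dw C r) (dw C r')) = s)).card ≤
      B * 2 ^ ((dw C r - dw C r' + (dw C r' - dw C r)) / 2) := by
    intro h
    refine (Finset.card_filter_le _ _).trans ?_
    rw [Finset.card_product]
    exact h
  have hpos : ∀ k, 2 ^ k ≤ B * 2 ^ k := fun k => Nat.le_mul_of_pos_left _ hB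
  cases r with
  | P p' f' b =>
    apply hgen
    have h2 := hr'.even.2
    have h1 : (dT C (Reg.P p' f' b)).card = 1 := by simp [dT]
    have h3 : dw C (Reg.P p' f' b) = 0 := rfl
    rw [h1, h3, one_mul, Nat.zero_sub, zero_add, Nat.sub_zero]
    exact h2.trans (hpos _)
  | PT p' e f' b =>
    cases r' with
    | P p₂ f₂ b₂ =>
      apply hgen
      have h2 := hr.even.2
      have h1 : (dT C (Reg.P p₂ f₂ b₂)).card = 1 := by simp [dT]
      have h3 : dw C (Reg.P p₂ f₂ b₂) = 0 := rfl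
      rw [h1, h3, mul_one, Nat.zero_sub, add_zero, Nat.sub_zero]
      exact h2.trans (hpos _)
    | PT p₂ e₂ f₂ b₂ =>
      have h4 := he _ _ _ _ _ _ _ _ rfl rfl
      subst h4
      simp only [dT, dw, min_self, Nat.sub_self, add_zero, Nat.zero_div, pow_zero, mul_one]
      exact hr.2.2.2.sum s
    | R => exact hr'.elim
    | RT => exact hr'.elim
    | RTh => exact hr'.elim
    | win => exact hr'.elim
    | winC => exact hr'.elim
  | R => exact hr.elim
  | RT => exact hr.elim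
  | RTh => exact hr.elim
  | win => exact hr.elim
  | winC => exact hr.elim

/-- **(PP)** -/
theorem PP (hX : ∀ l, C.X p l = c.X l) (hP : ∀ l x, C.P p l x = c.P l x) (hB : 1 ≤ B)
    {r r' : Reg} (hr : IsPr C c B p f r) (hr' : IsPr C c B p f r')
    (hg : ∀ p' e f' b, r = Reg.PT p' e f' b → dl r < dl r' → C.W e ∣ dl r ∧ C.W e ∣ dl r')
    (hg' : ∀ p' e f' b, r' = Reg.PT p' e f' b → dl r' < dl r → C.W e ∣ dl r' ∧ C.W e ∣ dl r)
    (he : ∀ p₁ e₁ f₁ b₁ p₂ e₂ f₂ b₂, r = Reg.PT p₁ e₁ f₁ b₁ → r' = Reg.PT p₂ e₂ f₂ b₂ →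
      dl r = dl r' → e₁ = e₂) {K K' : ℕ}
    (hK : r.top C ≤ K) (hK' : r'.top C ≤ K') (n a a' κ κ' : ℕ) :
    (zcons K K' n (zreg C r a κ) (zreg C r' a' κ')).card ≤
      4 * B * 2 ^ ((r.top C - r'.top C + (r'.top C - r.top C) + 1) / 2) := by
  obtain ⟨s, hs⟩ := zcons_le_sol hX hP hr hr' hK hK' n a a' κ κ'
  refine hs.trans ?_
  rw [hr.top, hr'.top]
  set l := dl r with hl
  set l' := dl r' with hl'
  set w := dw C r with hw
  set w' := dw C r' with hw'
  rcases lt_trichotomy l l' with h | h | h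
  · obtain ⟨h1, h2⟩ := hr.blk hB h (fun p' e f' b e1 => hg p' e f' b e1 h)
    have h3 : min (l + w) (l' + w') = l + w := by omega
    rw [h3]
    refine (sol_lt c h1 hr'.even.1 hr'.even.2 h2 s).trans ?_
    apply Nat.mul_le_mul_left
    apply Nat.pow_le_pow_right (by norm_num)
    omega
  · have h3 : min (l + w) (l' + w') = l + min w w' := by omega
    rw [h3, ← h]
    refine (sol_same c (fun s => same_blocks hr hr' hB (fun _ _ _ _ _ _ _ _ e1 e2 =>
      he _ _ _ _ _ _ _ _ e1 e2 h) s) s).trans ?_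
    have h4 : 2 ^ ((w - w' + (w' - w)) / 2) ≤
        2 ^ ((f + (l + w) - (f + (l + w')) + (f + (l + w') - (f + (l + w))) + 1) / 2) :=
      Nat.pow_le_pow_right (by norm_num) (by omega)
    calc 2 * (B * 2 ^ ((w - w' + (w' - w)) / 2)) = 2 * B * 2 ^ ((w - w' + (w' - w)) / 2) := by ring
      _ ≤ 2 * B * 2 ^ ((f + (l + w) - (f + (l + w')) + (f + (l + w') - (f + (l + w))) + 1) / 2) :=
          Nat.mul_le_mul_left _ h4
      _ ≤ _ := Nat.mul_le_mul_right _ (by omega)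
  · obtain ⟨h1, h2⟩ := hr'.blk hB h (fun p' e f' b e1 => hg' p' e f' b e1 h)
    have h3 : min (l + w) (l' + w') = l' + w' := by omega
    rw [h3, sol_swap]
    refine (sol_lt c h1 hr.even.1 hr.even.2 h2 s).trans ?_
    apply Nat.mul_le_mul_left
    apply Nat.pow_le_pow_right (by norm_num)
    omega

end Pool.Agent.Helper41.ETPP
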