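import Pool.Agent.Helper41.ETPR
import Pool.Agent.Helper16.ETL.Near1

/-!
# The regions of `P` type in the near lemma

Pair bounds `PB` for regions of kind `P`, `PT` with the same ends, injectivity of the contents and
the number of variables.
-/

namespace Pool.Agent.Helper41.ETPP

open Finset Pool.Agent.Helper83.ET Pool.Agent.ETS

variable {C : Codes} {c : Code} {B p f : ℕ}

/-- The pair `(x, t)` of a variable. -/
def un : Reg → ℕ → ℕ × ℕ
  | .PT _ _ _ _, z => Nat.unpair z
  | _, z => (z, 0)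

theorem un_inj (r : Reg) : Function.Injective (un r) := by
  intro z w h
  cases r with
  | PT p e f b =>
    have h1 : Nat.unpair z = Nat.unpair w := h
    rw [← Nat.pair_unpair z, ← Nat.pair_unpair w, h1]
  | P => exact congrArg Prod.fst h
  | R => exact congrArg Prod.fst h
  | RT => exact congrArg Prod.fst h
  | RTh => exact congrArg Prod.fst h
  | win => exact congrArg Prod.fst h
  | winC => exact congrArg Prod.fst h

theorem IsPr.un {r : Reg} (hX : ∀ l, C.X p l = c.X l) (hP : ∀ l x, C.P p l x = c.P l x)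
    (hr : IsPr C c B p f r) {z : ℕ} (hz : z ∈ r.V C) :
    (ETPP.un r z).1 ∈ c.X (dl r) ∧ (ETPP.un r z).2 ∈ dT C r ∧
      r.c C z = cont c (dl r) (dw C r) (ETPP.un r z) := by
  cases r with
  | P p' f' b =>
    obtain ⟨h1, h2, h3⟩ := hr
    subst h1
    subst h2
    refine ⟨by rw [← hX]; exact hz, by simp [dT, ETPP.un], ?_⟩
    simp only [cont, dl, dw, add_zero, mul_zero, Reg.c, hP, ETPP.un]
  | PT p' e f' b =>
    obtain ⟨h1, h2, h3, -⟩ := hr
    subst h1
    subst h2
    simp only [Reg.V] at hz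
    rw [mem_pairs] at hz
    refine ⟨by rw [← hX]; exact hz.1, hz.2, ?_⟩
    simp only [cont, dl, dw, Reg.c, hP, ETPP.un]
    rw [show b + C.W e - f' = b - f' + C.W e by omega]
  | R => exact hr.elim
  | RT => exact hr.elim
  | RTh => exact hr.elim
  | win => exact hr.elim
  | winC => exact hr.elim

theorem IsPr.bot {r : Reg} (hr : IsPr C c B p f r) : r.bot = f := by
  cases r with
  | P p' f' b => exact hr.2.1
  | PT p' e f' b => exact hr.2.1
  | R => exact hr.elim
  | RT => exact hr.elim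
  | RTh => exact hr.elim
  | win => exact hr.elim
  | winC => exact hr.elim

theorem IsPr.len {r : Reg} (hr : IsPr C c B p f r) : r.len C = dl r + dw C r := by
  unfold Reg.len
  rw [hr.top, hr.bot]
  omega

/-- Pair bounds from `sol`. -/
theorem PB_of_sol (hX : ∀ l, C.X p l = c.X l) (hP : ∀ l x, C.P p l x = c.P l x)
    {r r' : Reg} (hr : IsPr C c B p f r) (hr' : IsPr C c B p f r')
    (ht : r.top C = r'.top C) {N : ℕ}
    (h : ∀ s, (sol c (dl r) (dw C r) (dT C r) (dl r') (dw C r') (dT C r')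
      (min (dl r + dw C r) (dl r' + dw C r')) s).card ≤ N) : PB C r r' N := by
  intro ν
  have hl : dl r + dw C r = dl r' + dw C r' := by
    have h1 := hr.top
    have h2 := hr'.top
    omega
  refine le_trans ?_ (h (ν % 2 ^ (r.len C)))
  apply Finset.card_le_card_of_injOn (fun q => (un r q.1, un r' q.2))
  · intro q hq
    have hq' := Finset.mem_filter.mp (Finset.mem_coe.mp hq)
    have hq1 := Finset.mem_product.mp hq'.1
    obtain ⟨h1, h2, h3⟩ := hr.un hX hP hq1.1
    obtain ⟨h4, h5, h6⟩ := hr'.un hX hP hq1.2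
    apply Finset.mem_coe.mpr
    rw [mem_sol]
    refine ⟨⟨⟨h1, h2⟩, ⟨h4, h5⟩⟩, ?_⟩
    have h7 := hq'.2
    rw [h3, h6] at h7
    rw [← hl, min_self, ← hr.len]
    exact h7
  · intro q _ q' _ hqq
    rw [Prod.mk.injEq] at hqq
    exact Prod.ext (un_inj r hqq.1) (un_inj r' hqq.2)

/-- Two regions of kind `P`. -/
theorem PB_PP (hX : ∀ l, C.X p l = c.X l) (hP : ∀ l x, C.P p l x = c.P l x) {b : ℕ}
    (hfb : f ≤ b) : PB C (Reg.P p f b) (Reg.P p f b) 2 := by
  have hr : IsPr C c 1 p f (Reg.P p f b) := ⟨rfl, rfl, hfb⟩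
  refine PB_of_sol hX hP hr hr rfl ?_
  intro s
  have h1 := sol_same c (l := b - f) (w := 0) (w' := 0) (B := 1) (T := {0}) (T' := {0})
    (by
      intro s
      refine (Finset.card_filter_le _ _).trans ?_
      simp) s
  simpa [dl, dw, dT] using h1

/-- Two regions of kind `PT`. -/
theorem PB_PTPT (hX : ∀ l, C.X p l = c.X l) (hP : ∀ l x, C.P p l x = c.P l x) {e b : ℕ}
    (hfb : f ≤ b) (h : PTok C c B e (b - f)) :
    PB C (Reg.PT p e f b) (Reg.PT p e f b) (2 * B) := by
  have hr : IsPr C c B p f (Reg.PT p e f b) := ⟨rfl, rfl, hfb, h⟩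
  refine PB_of_sol hX hP hr hr rfl ?_
  intro s
  have h1 := sol_same c (l := b - f) (w := C.W e) (w' := C.W e) (B := B) (T := C.T e)
    (T' := C.T e) (by
      intro s
      rw [min_self]
      exact h.sum s) s
  rw [min_self] at h1
  simpa [dl, dw, dT] using h1

/-- A region of kind `PT` and a region of kind `P` with the same ends. -/
theorem PB_PTP (hX : ∀ l, C.X p l = c.X l) (hP : ∀ l x, C.P p l x = c.P l x) {e b : ℕ}
    (hfb : f ≤ b) (hB : 1 ≤ B) (h : PTok C c B e (b - f)) (hg : C.W e ∣ b - f) :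
    PB C (Reg.PT p e f b) (Reg.P p f (b + C.W e)) (4 * B) := by
  have hr : IsPr C c B p f (Reg.PT p e f b) := ⟨rfl, rfl, hfb, h⟩
  have hr' : IsPr C c B p f (Reg.P p f (b + C.W e)) := ⟨rfl, rfl, by omega⟩
  refine PB_of_sol hX hP hr hr' rfl ?_
  intro s
  have hW := h.four_le
  have e1 : b + C.W e - f = (b - f) + C.W e := by omega
  obtain ⟨h1, h2⟩ := hr.blk (l' := (b - f) + C.W e) hB (by
      simp only [dl]
      omega) (by
      intro p' e' f' b' he
      cases he
      refine ⟨hg, ?_⟩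
      exact (Nat.dvd_add_right hg).mpr (dvd_refl _))
  have h3 := sol_lt c (l := b - f) (w := C.W e) (l' := (b - f) + C.W e) (w' := 0) (B := B)
    (T := C.T e) (T' := {0}) (le_refl _) rfl (by simp) h2 s
  have h4 : ((b - f) + C.W e + 0 - ((b - f) + C.W e) + 1) / 2 = 0 := by omega
  rw [h4, pow_zero, mul_one] at h3
  simpa [dl, dw, dT, e1] using h3

/-- Distinct variables have distinct contents. -/
theorem IsPr.inj {r : Reg} (hX : ∀ l, C.X p l = c.X l) (hP : ∀ l x, C.P p l x = c.P l x)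
    (hr : IsPr C c B p f r) : r.Inj C := by
  intro z hz w hw hzw
  obtain ⟨h1, h2, h3⟩ := hr.un hX hP hz
  obtain ⟨h4, h5, h6⟩ := hr.un hX hP hw
  rw [h3, h6, hr.len] at hzw
  have e1 := hzw.of_dvd (pow_dvd_pow 2 (Nat.le_add_right (dl r) (dw C r)))
  have e2 := (cont_modEq c (w := dw C r) (t := (ETPP.un r z).2) (le_refl (dl r))
    (c.X_mod h1)).symm.trans (e1.trans (cont_modEq c (w := dw C r) (t := (ETPP.un r w).2)
      (le_refl (dl r)) (c.X_mod h4)))
  have e3 := c.eq_of_P (c.X_subset _ h1) (c.X_subset _ h4) (by omega) (le_refl _) (le_refl _) e2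
  apply un_inj r
  refine Prod.ext e3 ?_
  unfold cont at hzw
  rw [e3] at hzw
  have e4 := Nat.ModEq.add_left_cancel' _ hzw
  rw [pow_add] at e4
  have e5 : (ETPP.un r z).2 ≡ (ETPP.un r w).2 [MOD 2 ^ dw C r] :=
    Nat.ModEq.mul_left_cancel' (by positivity) e4
  have hlt : ∀ t ∈ dT C r, t < 2 ^ dw C r := by
    cases r with
    | P p' f' b =>
      intro t ht
      have : t = 0 := by simpa [dT] using ht
      rw [this]
      positivity
    | PT p' e f' b => exact hr.2.2.2.lt
    | R => exact hr.elim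
    | RT => exact hr.elim
    | RTh => exact hr.elim
    | win => exact hr.elim
    | winC => exact hr.elim
  exact Nat.ModEq.eq_of_lt_of_lt e5 (hlt _ h2) (hlt _ h5)

theorem X_card_sq (l : ℕ) : (c.X l).card ^ 2 ≤ 2 ^ l := by
  have h1 : (c.X l).card ≤ 2 ^ ((l + 1) / 2 - (0 + 2)) := by
    refine le_trans ?_ (cls_auxZ l 0 1)
    apply Finset.card_le_card
    intro x hx
    rw [Finset.mem_filter]
    exact ⟨c.X_subset _ hx, by simpa using c.X_mod hx⟩
  calc (c.X l).card ^ 2 ≤ (2 ^ ((l + 1) / 2 - (0 + 2))) ^ 2 := Nat.pow_le_pow_left h1 2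
    _ = 2 ^ (((l + 1) / 2 - (0 + 2)) * 2) := by rw [← pow_mul]
    _ ≤ 2 ^ l := Nat.pow_le_pow_right (by norm_num) (by omega)

/-- The number of variables is at most the square root of the number of contents. -/
theorem IsPr.card_sq {r : Reg} (hX : ∀ l, C.X p l = c.X l) (hP : ∀ l x, C.P p l x = c.P l x)
    (hr : IsPr C c B p f r) : (r.V C).card ^ 2 ≤ 2 ^ (r.len C) := by
  have h1 : (r.V C).card ≤ (c.X (dl r) ×ˢ dT C r).card := by
    apply Finset.card_le_card_of_injOn (ETPP.un r)
    · intro z hz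
      obtain ⟨h1, h2, -⟩ := hr.un hX hP (Finset.mem_coe.mp hz)
      exact Finset.mem_coe.mpr (Finset.mem_product.mpr ⟨h1, h2⟩)
    · intro z _ w _ h
      exact un_inj r h
  rw [Finset.card_product] at h1
  rw [hr.len, pow_add]
  calc (r.V C).card ^ 2 ≤ ((c.X (dl r)).card * (dT C r).card) ^ 2 := Nat.pow_le_pow_left h1 2
    _ = (c.X (dl r)).card ^ 2 * (dT C r).card ^ 2 := by ring
    _ ≤ 2 ^ dl r * 2 ^ dw C r := by
        apply Nat.mul_le_mul (X_card_sq _)
        calc (dT C r).card ^ 2 ≤ (2 ^ (dw C r / 2)) ^ 2 := Nat.pow_le_pow_left hr.even.2 2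
          _ = 2 ^ (dw C r / 2 * 2) := by rw [← pow_mul]
          _ ≤ 2 ^ dw C r := Nat.pow_le_pow_right (by norm_num) (by omega)

end Pool.Agent.Helper41.ETPP
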