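import Mathlib

set_option autoImplicit false

namespace Pool.Agent.Helper41

open MeasureTheory Metric Set Filter Topology
open scoped RealInnerProductSpace

/-- differentiation under the integral sign on a compact space -/
theorem hasDerivAt_integral_compact {X : Type*} [TopologicalSpace X] [CompactSpace X]
    [MeasurableSpace X] [BorelSpace X] (μ : Measure X) [IsFiniteMeasure μ]
    {H H' : ℝ → X → ℝ} {s0 δ : ℝ} (hδ : 0 < δ)
    (hd : ∀ s ∈ closedBall s0 δ, ∀ x, HasDerivAt (fun s => H s x) (H' s x) s)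
    (hc : ∀ s ∈ closedBall s0 δ, Continuous (H s))
    (hc' : ContinuousOn (Function.uncurry H') (closedBall s0 δ ×ˢ univ)) :
    HasDerivAt (fun s => ∫ x, H s x ∂μ) (∫ x, H' s0 x ∂μ) s0 := by
  have hs0 : s0 ∈ closedBall s0 δ := mem_closedBall_self hδ.le
  have hcomp : IsCompact (closedBall s0 δ ×ˢ (univ : Set X)) :=
    (isCompact_closedBall s0 δ).prod isCompact_univ
  obtain ⟨C, hC⟩ := hcomp.exists_bound_of_continuousOn hc'
  have hc0' : Continuous (H' s0) := by
    rw [← continuousOn_univ]
    exact hc'.comp (f := fun x : X => (s0, x)) (by fun_prop) (fun x hx => ⟨hs0, hx⟩)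
  have hint : ∀ f : X → ℝ, Continuous f → Integrable f μ := fun f hf =>
    hf.integrable_of_hasCompactSupport (HasCompactSupport.of_compactSpace f)
  refine (hasDerivAt_integral_of_dominated_loc_of_deriv_le (F := H) (F' := H')
    (bound := fun _ => C) (closedBall_mem_nhds s0 hδ) ?_ (hint _ (hc s0 hs0)) ?_ ?_ ?_ ?_).2
  · filter_upwards [closedBall_mem_nhds s0 hδ] with s hs
    exact (hint _ (hc s hs)).aestronglyMeasurable
  · exact (hint _ hc0').aestronglyMeasurable
  · refine Filter.Eventually.of_forall fun x s hs => ?_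
    exact hC (s, x) ⟨hs, mem_univ _⟩
  · exact integrable_const _
  · exact Filter.Eventually.of_forall fun x s hs => hd s hs x

variable {E : Type*} [NormedAddCommGroup E] [InnerProductSpace ℝ E] [FiniteDimensional ℝ E]
  [MeasurableSpace E] [BorelSpace E]

/-- polar coordinates, for arbitrary functions. -/
theorem integral_polar (g : E → ℝ) [Nontrivial E] :
    ∫ x, g x = ∫ p : sphere (0 : E) 1 × Ioi (0 : ℝ), g (p.2.1 • p.1.1)
      ∂((volume : Measure E).toSphere.prod (Measure.volumeIoiPow (Module.finrank ℝ E - 1))) := by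
  have h := (volume : Measure E).measurePreserving_homeomorphUnitSphereProd.integral_comp
        (Homeomorph.measurableEmbedding _) (fun p : sphere (0 : E) 1 × Ioi (0 : ℝ) => g (p.2.1 • p.1.1))
  rw [← h]
  have h2 : ∀ x : ({(0)}ᶜ : Set E), g (((homeomorphUnitSphereProd E x).2 : ℝ) •
      ((homeomorphUnitSphereProd E x).1 : E)) = g x.1 := by
    intro x
    have hx : ‖(x.1)‖ ≠ 0 := norm_ne_zero_iff.mpr x.2
    simp [smul_smul, mul_inv_cancel₀ hx]
  simp_rw [h2]
  rw [integral_subtype_comap (measurableSet_singleton _).compl fun x ↦ g x,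
        restrict_compl_singleton]

theorem lintegral_polar (g : E → ENNReal) [Nontrivial E] :
    ∫⁻ x, g x = ∫⁻ p : sphere (0 : E) 1 × Ioi (0 : ℝ), g (p.2.1 • p.1.1)
      ∂((volume : Measure E).toSphere.prod (Measure.volumeIoiPow (Module.finrank ℝ E - 1))) := by
  have h := (volume : Measure E).measurePreserving_homeomorphUnitSphereProd.lintegral_comp_emb
        (Homeomorph.measurableEmbedding _) (fun p : sphere (0 : E) 1 × Ioi (0 : ℝ) => g (p.2.1 • p.1.1))
  rw [← h]
  have h2 : ∀ x : ({(0)}ᶜ : Set E), g (((homeomorphUnitSphereProd E x).2 : ℝ) •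
      ((homeomorphUnitSphereProd E x).1 : E)) = g x.1 := by
    intro x
    have hx : ‖(x.1)‖ ≠ 0 := norm_ne_zero_iff.mpr x.2
    simp [smul_smul, mul_inv_cancel₀ hx]
  simp_rw [h2]
  rw [lintegral_subtype_comap (measurableSet_singleton _).compl fun x ↦ g x,
        restrict_compl_singleton]

end Pool.Agent.Helper41
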