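import Mathlib
import Pool.Agent.Helper41.SphereRot

set_option autoImplicit false
set_option linter.unusedSectionVars false

namespace Pool.Agent.Helper41

open MeasureTheory Metric Set Filter Topology
open scoped RealInnerProductSpace Pointwise

variable {E : Type*} [NormedAddCommGroup E] [InnerProductSpace ℝ E] [FiniteDimensional ℝ E]
  [MeasurableSpace E] [BorelSpace E]

/-- surface measure on the unit sphere -/
noncomputable abbrev sph (E : Type*) [NormedAddCommGroup E] [InnerProductSpace ℝ E]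
    [FiniteDimensional ℝ E] [MeasurableSpace E] [BorelSpace E] : Measure (sphere (0 : E) 1) :=
  (volume : Measure E).toSphere

/-- action of a linear isometry on the sphere -/
def sphereMap (T : E ≃ₗᵢ[ℝ] E) (y : sphere (0 : E) 1) : sphere (0 : E) 1 :=
  ⟨T y.1, by
    have := y.2
    simp only [mem_sphere_iff_norm, sub_zero] at this ⊢
    rw [T.norm_map]; exact this⟩

@[simp] theorem sphereMap_coe (T : E ≃ₗᵢ[ℝ] E) (y : sphere (0 : E) 1) :
    ((sphereMap T y : sphere (0 : E) 1) : E) = T y.1 := rfl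

theorem continuous_sphereMap (T : E ≃ₗᵢ[ℝ] E) : Continuous (sphereMap T) :=
  Continuous.subtype_mk (T.continuous.comp continuous_subtype_val) _

theorem measurePreserving_sphereMap (T : E ≃ₗᵢ[ℝ] E) :
    MeasurePreserving (sphereMap T) (sph E) (sph E) := by
  refine ⟨(continuous_sphereMap T).measurable, ?_⟩
  ext s hs
  have hm := (continuous_sphereMap T).measurable hs
  rw [Measure.map_apply (continuous_sphereMap T).measurable hs, Measure.toSphere_apply' _ hs,
    Measure.toSphere_apply' _ hm]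
  congr 1
  have h1 : (Ioo (0 : ℝ) 1 • ((↑) '' (sphereMap T ⁻¹' s) : Set E))
      = T ⁻¹' (Ioo (0 : ℝ) 1 • ((↑) '' s : Set E)) := by
    ext x
    constructor
    · rintro ⟨r, hr, z, ⟨y, hy, rfl⟩, rfl⟩
      refine ⟨r, hr, T y.1, ⟨sphereMap T y, hy, rfl⟩, ?_⟩
      simp
    · rintro ⟨r, hr, z, ⟨y, hy, rfl⟩, hx⟩
      refine ⟨r, hr, T.symm y.1, ⟨sphereMap T.symm y, ?_, rfl⟩, ?_⟩
      · have : sphereMap T (sphereMap T.symm y) = y := by
          apply Subtype.ext; simp
        simpa [this] using hy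
      · apply T.injective
        simp only at hx ⊢
        rw [← hx]
        simp
  rw [h1]
  exact T.measurePreserving.measure_preimage_emb T.toMeasurableEquiv.measurableEmbedding _

theorem integral_sphereMap (T : E ≃ₗᵢ[ℝ] E) (F : sphere (0 : E) 1 → ℝ) :
    ∫ y, F (sphereMap T y) ∂(sph E) = ∫ y, F y ∂(sph E) := by
  have hemb : MeasurableEmbedding (sphereMap T) := by
    have : (sphereMap T) = (Homeomorph.mk (X := sphere (0 : E) 1) (Y := sphere (0 : E) 1)
      ⟨sphereMap T, sphereMap T.symm, fun y => by apply Subtype.ext; simp,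
        fun y => by apply Subtype.ext; simp⟩ (continuous_sphereMap T) (continuous_sphereMap T.symm)) := rfl
    rw [this]
    exact Homeomorph.measurableEmbedding _
  exact (measurePreserving_sphereMap T).integral_comp hemb F

theorem lintegral_sphereMap (T : E ≃ₗᵢ[ℝ] E) (F : sphere (0 : E) 1 → ENNReal) :
    ∫⁻ y, F (sphereMap T y) ∂(sph E) = ∫⁻ y, F y ∂(sph E) := by
  have hemb : MeasurableEmbedding (sphereMap T) := by
    have : (sphereMap T) = (Homeomorph.mk (X := sphere (0 : E) 1) (Y := sphere (0 : E) 1)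
      ⟨sphereMap T, sphereMap T.symm, fun y => by apply Subtype.ext; simp,
        fun y => by apply Subtype.ext; simp⟩ (continuous_sphereMap T) (continuous_sphereMap T.symm)) := rfl
    rw [this]
    exact Homeomorph.measurableEmbedding _
  exact (measurePreserving_sphereMap T).lintegral_comp_emb hemb F

/-- the linear map rotating the plane spanned by `e`, `f` by the angle `θ` -/
noncomputable def rotLin (e f : E) (θ : ℝ) : E →ₗ[ℝ] E where
  toFun y := y + ((Real.cos θ - 1) * ⟪e, y⟫ - Real.sin θ * ⟪f, y⟫) • e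
    + (Real.sin θ * ⟪e, y⟫ + (Real.cos θ - 1) * ⟪f, y⟫) • f
  map_add' x y := by
    simp only [inner_add_right]
    module
  map_smul' c y := by
    simp only [inner_smul_right, RingHom.id_apply]
    module

theorem rotLin_apply (e f : E) (θ : ℝ) (y : E) : rotLin e f θ y
    = y + ((Real.cos θ - 1) * ⟪e, y⟫ - Real.sin θ * ⟪f, y⟫) • e
    + (Real.sin θ * ⟪e, y⟫ + (Real.cos θ - 1) * ⟪f, y⟫) • f := rfl

theorem norm_rotLin {e f : E} (he : ‖e‖ = 1) (hf : ‖f‖ = 1) (hef : ⟪e, f⟫ = 0) (θ : ℝ) (y : E) :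
    ‖rotLin e f θ y‖ = ‖y‖ := by
  have hee : ⟪e, e⟫ = 1 := by rw [real_inner_self_eq_norm_sq, he]; norm_num
  have hff : ⟪f, f⟫ = 1 := by rw [real_inner_self_eq_norm_sq, hf]; norm_num
  have hfe : ⟪f, e⟫ = 0 := by rw [real_inner_comm]; exact hef
  have h : ⟪rotLin e f θ y, rotLin e f θ y⟫ = ⟪y, y⟫ := by
    rw [rotLin_apply]
    simp only [inner_add_left, inner_add_right, inner_smul_left, inner_smul_right,
      RCLike.conj_to_real, hee, hff, hef, hfe, real_inner_comm e y, real_inner_comm f y]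
    have := Real.sin_sq_add_cos_sq θ
    have hs : Real.sin θ ^ 2 = 1 - Real.cos θ ^ 2 := by linarith
    ring_nf
    rw [hs]
    ring
  rw [real_inner_self_eq_norm_sq, real_inner_self_eq_norm_sq] at h
  exact (sq_eq_sq₀ (norm_nonneg _) (norm_nonneg _)).mp h

/-- the rotation as a linear isometry equivalence -/
noncomputable def rot {e f : E} (he : ‖e‖ = 1) (hf : ‖f‖ = 1) (hef : ⟪e, f⟫ = 0) (θ : ℝ) :
    E ≃ₗᵢ[ℝ] E :=
  LinearIsometry.toLinearIsometryEquiv ⟨rotLin e f θ, norm_rotLin he hf hef θ⟩ rfl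

theorem rot_apply {e f : E} (he : ‖e‖ = 1) (hf : ‖f‖ = 1) (hef : ⟪e, f⟫ = 0) (θ : ℝ) (y : E) :
    rot he hf hef θ y = rotLin e f θ y := rfl

theorem inner_e_rot {e f : E} (he : ‖e‖ = 1) (hf : ‖f‖ = 1) (hef : ⟪e, f⟫ = 0) (θ : ℝ) (y : E) :
    ⟪e, rot he hf hef θ y⟫ = Real.cos θ * ⟪e, y⟫ - Real.sin θ * ⟪f, y⟫ := by
  have hee : ⟪e, e⟫ = 1 := by rw [real_inner_self_eq_norm_sq, he]; norm_num
  rw [rot_apply, rotLin_apply]
  simp only [inner_add_right, inner_smul_right, hee, hef]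
  ring

theorem inner_f_rot {e f : E} (he : ‖e‖ = 1) (hf : ‖f‖ = 1) (hef : ⟪e, f⟫ = 0) (θ : ℝ) (y : E) :
    ⟪f, rot he hf hef θ y⟫ = Real.sin θ * ⟪e, y⟫ + Real.cos θ * ⟪f, y⟫ := by
  have hff : ⟪f, f⟫ = 1 := by rw [real_inner_self_eq_norm_sq, hf]; norm_num
  have hfe : ⟪f, e⟫ = 0 := by rw [real_inner_comm]; exact hef
  rw [rot_apply, rotLin_apply]
  simp only [inner_add_right, inner_smul_right, hff, hfe]
  ring

theorem abs_inner_le_one {e : E} (he : ‖e‖ = 1) (y : sphere (0 : E) 1) : |⟪e, (y : E)⟫| ≤ 1 := by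
  have := abs_real_inner_le_norm e (y : E)
  have hy : ‖(y : E)‖ = 1 := by simp
  rw [he, hy, one_mul] at this
  exact this

/-- infinitesimal rotation invariance -/
theorem rot_identity {e f : E} (he : ‖e‖ = 1) (hf : ‖f‖ = 1) (hef : ⟪e, f⟫ = 0)
    {g g' : ℝ → ℝ} (hg : ∀ t ∈ Icc (-1 : ℝ) 1, HasDerivAt g (g' t) t)
    (hg' : ContinuousOn g' (Icc (-1) 1)) :
    ∫ y : sphere (0 : E) 1, (⟪e, (y : E)⟫ * g ⟪e, (y : E)⟫ - ⟪f, (y : E)⟫ ^ 2 * g' ⟪e, (y : E)⟫) ∂(sph E)
      = 0 := by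
  have hgc : ContinuousOn g (Icc (-1) 1) := fun t ht => (hg t ht).continuousAt.continuousWithinAt
  -- the arguments stay in [-1,1]
  have harg : ∀ (θ : ℝ) (y : sphere (0 : E) 1),
      Real.cos θ * ⟪e, (y : E)⟫ - Real.sin θ * ⟪f, (y : E)⟫ ∈ Icc (-1 : ℝ) 1 := by
    intro θ y
    rw [← inner_e_rot he hf hef]
    exact abs_le.mp (abs_inner_le_one he (sphereMap (rot he hf hef θ) y))
  set H : ℝ → sphere (0 : E) 1 → ℝ := fun θ y =>
    (Real.sin θ * ⟪e, (y : E)⟫ + Real.cos θ * ⟪f, (y : E)⟫)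
      * g (Real.cos θ * ⟪e, (y : E)⟫ - Real.sin θ * ⟪f, (y : E)⟫) with hH
  set H' : ℝ → sphere (0 : E) 1 → ℝ := fun θ y =>
    (Real.cos θ * ⟪e, (y : E)⟫ - Real.sin θ * ⟪f, (y : E)⟫)
      * g (Real.cos θ * ⟪e, (y : E)⟫ - Real.sin θ * ⟪f, (y : E)⟫)
    + (Real.sin θ * ⟪e, (y : E)⟫ + Real.cos θ * ⟪f, (y : E)⟫)
      * (g' (Real.cos θ * ⟪e, (y : E)⟫ - Real.sin θ * ⟪f, (y : E)⟫)
        * (-Real.sin θ * ⟪e, (y : E)⟫ - Real.cos θ * ⟪f, (y : E)⟫)) with hH'
  have hder := hasDerivAt_integral_compact (sph E) (H := H) (H' := H') (s0 := 0) (δ := 1) one_pos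
    (by
      intro θ _ y
      have h1 : HasDerivAt (fun θ => Real.sin θ * ⟪e, (y : E)⟫ + Real.cos θ * ⟪f, (y : E)⟫)
          (Real.cos θ * ⟪e, (y : E)⟫ - Real.sin θ * ⟪f, (y : E)⟫) θ := by
        have := ((Real.hasDerivAt_sin θ).mul_const ⟪e, (y : E)⟫).add
          ((Real.hasDerivAt_cos θ).mul_const ⟪f, (y : E)⟫)
        refine this.congr_deriv ?_
        ring
      have h2 : HasDerivAt (fun θ => Real.cos θ * ⟪e, (y : E)⟫ - Real.sin θ * ⟪f, (y : E)⟫)
          (-Real.sin θ * ⟪e, (y : E)⟫ - Real.cos θ * ⟪f, (y : E)⟫) θ :=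
        ((Real.hasDerivAt_cos θ).mul_const ⟪e, (y : E)⟫).sub
          ((Real.hasDerivAt_sin θ).mul_const ⟪f, (y : E)⟫)
      have h3 := (hg _ (harg θ y)).comp θ h2
      exact h1.mul h3)
    (by
      intro θ _
      have hc1 : Continuous fun y : sphere (0 : E) 1 =>
          g (Real.cos θ * ⟪e, (y : E)⟫ - Real.sin θ * ⟪f, (y : E)⟫) := by
        rw [← continuousOn_univ]
        exact hgc.comp (by fun_prop) (fun y _ => harg θ y)
      simp only [hH]
      exact Continuous.mul (by fun_prop) hc1)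
    (by
      have hc1 : Continuous fun p : ℝ × sphere (0 : E) 1 =>
          g (Real.cos p.1 * ⟪e, (p.2 : E)⟫ - Real.sin p.1 * ⟪f, (p.2 : E)⟫) := by
        rw [← continuousOn_univ]
        exact hgc.comp (by fun_prop) (fun p _ => harg p.1 p.2)
      have hc2 : Continuous fun p : ℝ × sphere (0 : E) 1 =>
          g' (Real.cos p.1 * ⟪e, (p.2 : E)⟫ - Real.sin p.1 * ⟪f, (p.2 : E)⟫) := by
        rw [← continuousOn_univ]
        exact hg'.comp (by fun_prop) (fun p _ => harg p.1 p.2)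
      apply Continuous.continuousOn
      simp only [hH', Function.uncurry_def]
      exact (Continuous.mul (by fun_prop) hc1).add
        (Continuous.mul (by fun_prop) (hc2.mul (by fun_prop))))
  have hconst : (fun θ => ∫ y, H θ y ∂(sph E)) = fun _ => ∫ y, H 0 y ∂(sph E) := by
    funext θ
    have h1 := integral_sphereMap (rot he hf hef θ)
      (fun y : sphere (0 : E) 1 => ⟪f, (y : E)⟫ * g ⟪e, (y : E)⟫)
    simp only [sphereMap_coe, inner_e_rot he hf hef, inner_f_rot he hf hef] at h1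
    simp only [hH]
    rw [h1]
    simp
  rw [hconst] at hder
  have h0 := hder.unique (hasDerivAt_const (0 : ℝ) (∫ y, H 0 y ∂(sph E)))
  rw [← h0]
  refine integral_congr_ae (Filter.Eventually.of_forall fun y => ?_)
  simp only [hH']
  simp
  ring

end Pool.Agent.Helper41
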