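import Mathlib
import Pool.Agent.Helper41.SphereInv

set_option autoImplicit false
set_option linter.unusedSectionVars false

namespace Pool.Agent.Helper41

open MeasureTheory Metric Set Filter Topology
open scoped RealInnerProductSpace Pointwise

variable {E : Type*} [NormedAddCommGroup E] [InnerProductSpace ℝ E] [FiniteDimensional ℝ E]
  [MeasurableSpace E] [BorelSpace E]

/-- zonal integrals do not depend on the pole -/
theorem zonal_indep {e e' : E} (h : ‖e‖ = ‖e'‖) (F : ℝ → ℝ) :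
    ∫ y : sphere (0 : E) 1, F ⟪e, (y : E)⟫ ∂(sph E) = ∫ y : sphere (0 : E) 1, F ⟪e', (y : E)⟫ ∂(sph E) := by
  set T : E ≃ₗᵢ[ℝ] E := Submodule.reflection (ℝ ∙ (e - e'))ᗮ with hT
  have hTe : T e = e' := Submodule.reflection_sub h
  have h1 := integral_sphereMap T (fun y : sphere (0 : E) 1 => F ⟪e', (y : E)⟫)
  rw [← h1]
  refine integral_congr_ae (Filter.Eventually.of_forall fun y => ?_)
  simp only [sphereMap_coe]
  rw [← hTe, T.inner_map_map]

theorem zonal_identity {e : E} (he : ‖e‖ = 1)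
    {g g' : ℝ → ℝ} (hg : ∀ t ∈ Icc (-1 : ℝ) 1, HasDerivAt g (g' t) t)
    (hg' : ContinuousOn g' (Icc (-1) 1)) :
    ∫ y : sphere (0 : E) 1, (((Module.finrank ℝ E : ℝ) - 1) * (⟪e, (y : E)⟫ * g ⟪e, (y : E)⟫)
      - (1 - ⟪e, (y : E)⟫ ^ 2) * g' ⟪e, (y : E)⟫) ∂(sph E) = 0 := by
  have hgc : ContinuousOn g (Icc (-1) 1) := fun t ht => (hg t ht).continuousAt.continuousWithinAt
  have hpos : 0 < Module.finrank ℝ E := by
    have : Nontrivial E := ⟨e, 0, by intro h; rw [h, norm_zero] at he; exact zero_ne_one he⟩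
    exact Module.finrank_pos
  set b := stdOrthonormalBasis ℝ E with hb
  set i0 : Fin (Module.finrank ℝ E) := ⟨0, hpos⟩ with hi0
  have hbn : ∀ i, ‖b i‖ = 1 := fun i => b.norm_eq_one i
  have harg : ∀ (y : sphere (0 : E) 1), ⟪b i0, (y : E)⟫ ∈ Icc (-1 : ℝ) 1 := fun y =>
    abs_le.mp (abs_inner_le_one (hbn i0) y)
  have hc1 : Continuous fun y : sphere (0 : E) 1 => g ⟪b i0, (y : E)⟫ := by
    rw [← continuousOn_univ]
    exact hgc.comp (by fun_prop) (fun y _ => harg y)
  have hc2 : Continuous fun y : sphere (0 : E) 1 => g' ⟪b i0, (y : E)⟫ := by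
    rw [← continuousOn_univ]
    exact hg'.comp (by fun_prop) (fun y _ => harg y)
  have hint : ∀ f : sphere (0 : E) 1 → ℝ, Continuous f → Integrable f (sph E) := fun f hf =>
    hf.integrable_of_hasCompactSupport (HasCompactSupport.of_compactSpace f)
  rw [zonal_indep (e := e) (e' := b i0) (by rw [he, hbn])
    (fun t => ((Module.finrank ℝ E : ℝ) - 1) * (t * g t) - (1 - t ^ 2) * g' t)]
  have hsum : ∑ i ∈ Finset.univ.erase i0,
      ∫ y : sphere (0 : E) 1, (⟪b i0, (y : E)⟫ * g ⟪b i0, (y : E)⟫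
        - ⟪b i, (y : E)⟫ ^ 2 * g' ⟪b i0, (y : E)⟫) ∂(sph E) = 0 := by
    refine Finset.sum_eq_zero fun i hi => ?_
    have hne : i ≠ i0 := (Finset.mem_erase.mp hi).1
    exact rot_identity (hbn i0) (hbn i) (b.inner_eq_zero hne.symm) hg hg'
  rw [← hsum, ← integral_finsetSum]
  · refine integral_congr_ae (Filter.Eventually.of_forall fun y => ?_)
    simp only
    rw [Finset.sum_sub_distrib, ← Finset.sum_mul, ← Finset.sum_mul]
    have h1 : ∑ i ∈ Finset.univ.erase i0, ⟪b i, (y : E)⟫ ^ 2 = 1 - ⟪b i0, (y : E)⟫ ^ 2 := by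
      have h2 := b.sum_sq_inner_right (y : E)
      have hy : ‖(y : E)‖ = 1 := by simp
      rw [hy, ← Finset.add_sum_erase _ _ (Finset.mem_univ i0)] at h2
      linarith
    rw [h1, Finset.sum_const, Finset.card_erase_of_mem (Finset.mem_univ i0), Finset.card_univ,
      Fintype.card_fin, nsmul_eq_mul, Nat.cast_sub hpos]
    push_cast
    ring
  · intro i _
    apply hint
    exact (Continuous.mul (by fun_prop) hc1).sub (Continuous.mul (by fun_prop) hc2)

end Pool.Agent.Helper41
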