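import Mathlib
import Pool.Agent.Helper41.Zonal

set_option autoImplicit false
set_option linter.unusedSectionVars false

namespace Pool.Agent.Helper41

open MeasureTheory Metric Set Filter Topology
open scoped RealInnerProductSpace Pointwise

/-- `1 + s^2 - 2 s t` -/
def DD (s t : ℝ) : ℝ := 1 + s ^ 2 - 2 * s * t

theorem DD_pos {s t : ℝ} (hs : |s| < 1) (ht : t ∈ Icc (-1 : ℝ) 1) : 0 < DD s t := by
  unfold DD
  have h1 : s * t ≤ |s| := by
    have h2 : |t| ≤ 1 := abs_le.mpr ht
    calc s * t ≤ |s * t| := le_abs_self _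
      _ = |s| * |t| := abs_mul _ _
      _ ≤ |s| * 1 := by gcongr
      _ = |s| := mul_one _
  have h3 : s ^ 2 = |s| ^ 2 := (sq_abs s).symm
  rw [h3]
  nlinarith [sq_nonneg (1 - |s|)]

theorem hasDerivAt_DD (s t : ℝ) : HasDerivAt (fun s => DD s t) (2 * (s - t)) s := by
  unfold DD
  have h1 : HasDerivAt (fun s : ℝ => 1 + s ^ 2 - 2 * s * t) _ s :=
    ((hasDerivAt_pow 2 s).const_add 1).sub (((hasDerivAt_id s).const_mul 2).mul_const t)
  exact h1.congr_deriv (by simp; ring)

theorem hasDerivAt_DD' (s t : ℝ) : HasDerivAt (fun t => DD s t) (-2 * s) t := by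
  unfold DD
  have h1 : HasDerivAt (fun t : ℝ => 1 + s ^ 2 - 2 * s * t) _ t :=
    ((hasDerivAt_id t).const_mul (2 * s)).const_sub (1 + s ^ 2)
  exact h1.congr_deriv (by simp)

theorem hasDerivAt_DD_rpow {s t : ℝ} (hs : |s| < 1) (ht : t ∈ Icc (-1 : ℝ) 1) (a : ℝ) :
    HasDerivAt (fun s => DD s t ^ a) (a * DD s t ^ (a - 1) * (2 * (s - t))) s := by
  have := (hasDerivAt_DD s t).rpow_const (p := a) (Or.inl (DD_pos hs ht).ne')
  exact this.congr_deriv (by ring)

theorem hasDerivAt_DD_rpow' {s t : ℝ} (hs : |s| < 1) (ht : t ∈ Icc (-1 : ℝ) 1) (a : ℝ) :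
    HasDerivAt (fun t => DD s t ^ a) (a * DD s t ^ (a - 1) * (-2 * s)) t := by
  have := (hasDerivAt_DD' s t).rpow_const (p := a) (Or.inl (DD_pos hs ht).ne')
  exact this.congr_deriv (by ring)

variable {E : Type*} [NormedAddCommGroup E] [InnerProductSpace ℝ E] [FiniteDimensional ℝ E]
  [MeasurableSpace E] [BorelSpace E]

theorem inner_mem {e : E} (he : ‖e‖ = 1) (y : sphere (0 : E) 1) : ⟪e, (y : E)⟫ ∈ Icc (-1 : ℝ) 1 :=
  abs_le.mp (abs_inner_le_one he y)

theorem continuousOn_DD_rpow (a : ℝ) {e : E} (he : ‖e‖ = 1) {s0 δ : ℝ} (h : ∀ s ∈ closedBall s0 δ, |s| < 1) :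
    ContinuousOn (fun p : ℝ × sphere (0 : E) 1 => DD p.1 ⟪e, (p.2 : E)⟫ ^ a)
      (closedBall s0 δ ×ˢ univ) := by
  apply ContinuousOn.rpow_const
  · unfold DD
    apply Continuous.continuousOn
    fun_prop
  · intro p hp
    exact Or.inl (DD_pos (h _ hp.1) (inner_mem he p.2)).ne'

theorem continuous_DD_rpow (a : ℝ) {e : E} (he : ‖e‖ = 1) {s : ℝ} (h : |s| < 1) :
    Continuous (fun y : sphere (0 : E) 1 => DD s ⟪e, (y : E)⟫ ^ a) := by
  apply Continuous.rpow_const
  · unfold DD
    fun_prop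
  · intro p
    exact Or.inl (DD_pos h (inner_mem he p)).ne'

/-- choose a small closed ball inside `(-1,1)` -/
theorem exists_delta {s0 : ℝ} (h : |s0| < 1) : ∃ δ > 0, ∀ s ∈ closedBall s0 δ, |s| < 1 := by
  refine ⟨(1 - |s0|) / 2, by linarith, fun s hs => ?_⟩
  rw [mem_closedBall, Real.dist_eq] at hs
  have := abs_sub_abs_le_abs_sub s s0
  linarith

/-- Gauss mean value property of the Newtonian kernel, zonal form. -/
theorem zonal_mean {e : E} (he : ‖e‖ = 1) (hn : 3 ≤ Module.finrank ℝ E) {s : ℝ} (hs0 : 0 ≤ s)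
    (hs1 : s < 1) :
    ∫ y : sphere (0 : E) 1, DD s ⟪e, (y : E)⟫ ^ (-(((Module.finrank ℝ E : ℝ) - 2) / 2)) ∂(sph E)
      = (sph E).real univ := by
  set N : ℝ := (Module.finrank ℝ E : ℝ) with hN
  set n := Module.finrank ℝ E with hn'
  set l : ℝ := (N - 2) / 2 with hl
  -- derivative of phi
  set G1 : ℝ → ℝ → ℝ := fun s t => -l * DD s t ^ (-l - 1) * (2 * (s - t)) with hG1
  have hphi : ∀ s : ℝ, |s| < 1 → HasDerivAt
      (fun s => ∫ y : sphere (0 : E) 1, DD s ⟪e, (y : E)⟫ ^ (-l) ∂(sph E))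
      (∫ y : sphere (0 : E) 1, G1 s ⟪e, (y : E)⟫ ∂(sph E)) s := by
    intro s hs
    obtain ⟨δ, hδ, hδs⟩ := exists_delta hs
    refine hasDerivAt_integral_compact (sph E) (H := fun s y => DD s ⟪e, (y : E)⟫ ^ (-l))
      (H' := fun s y => G1 s ⟪e, (y : E)⟫) hδ ?_ ?_ ?_
    · intro r hr y
      exact hasDerivAt_DD_rpow (hδs r hr) (inner_mem he y) (-l)
    · intro r hr
      exact continuous_DD_rpow (-l) he (hδs r hr)
    · simp only [hG1, Function.uncurry_def]
      exact (ContinuousOn.mul continuousOn_const (continuousOn_DD_rpow (-l - 1) he hδs)).mul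
        (Continuous.continuousOn (by fun_prop))
  -- flux
  set H : ℝ → ℝ → ℝ := fun s t => s ^ (n - 1) * G1 s t with hH
  set H' : ℝ → ℝ → ℝ := fun s t => s ^ (n - 3) * ((N - 1) * (t * (2 * l * s * DD s t ^ (-l - 1)))
      - (1 - t ^ 2) * (2 * l * s * ((-l - 1) * DD s t ^ (-l - 2) * (-2 * s)))) with hH'
  have hHd : ∀ s t : ℝ, |s| < 1 → t ∈ Icc (-1 : ℝ) 1 → HasDerivAt (fun s => H s t) (H' s t) s := by
    intro s t hs ht
    have h1 := hasDerivAt_DD_rpow hs ht (-l - 1)
    have h2 : HasDerivAt (fun s : ℝ => 2 * (s - t)) 2 s := by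
      simpa using ((hasDerivAt_id s).sub_const t).const_mul 2
    have h3 := ((h1.const_mul (-l)).mul h2)
    have h4 := (hasDerivAt_pow (n - 1) s).mul h3
    refine h4.congr_deriv ?_
    have hD := DD_pos hs ht
    have e1 : DD s t ^ (-l - 1) = DD s t ^ (-l - 2) * DD s t := by
      rw [← Real.rpow_add_one hD.ne']; congr 1; ring
    have e2 : -l - 1 - 1 = -l - 2 := by ring
    have hn1 : n - 1 - 1 = n - 3 + 1 := by omega
    have hn2 : n - 1 = n - 3 + 2 := by omega
    have hn3 : ((n - 1 : ℕ) : ℝ) = N - 1 := by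
      rw [Nat.cast_sub (by omega)]; simp [hN]
    have hNl : N = 2 * l + 2 := by rw [hl]; ring
    simp only [hH', Pi.mul_apply]
    rw [e2, hn3, e1, hn1, hn2, pow_succ, pow_add s (n - 3) 2, hNl]
    unfold DD
    ring
  have hPsi : ∀ s : ℝ, |s| < 1 → HasDerivAt
      (fun s => ∫ y : sphere (0 : E) 1, H s ⟪e, (y : E)⟫ ∂(sph E)) 0 s := by
    intro s hs
    obtain ⟨δ, hδ, hδs⟩ := exists_delta hs
    have h1 := hasDerivAt_integral_compact (sph E) (H := fun s y => H s ⟪e, (y : E)⟫)
      (H' := fun s y => H' s ⟪e, (y : E)⟫) hδ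
      (by
        intro r hr y
        exact hHd r _ (hδs r hr) (inner_mem he y))
      (by
        intro r hr
        simp only [hH, hG1]
        exact Continuous.mul continuous_const ((continuous_const.mul
          (continuous_DD_rpow (-l - 1) he (hδs r hr))).mul (by fun_prop)))
      (by
        simp only [hH', Function.uncurry_def]
        have c1 := continuousOn_DD_rpow (-l - 1) he hδs
        have c2 := continuousOn_DD_rpow (-l - 2) he hδs
        refine ContinuousOn.mul (Continuous.continuousOn (by fun_prop)) (ContinuousOn.sub ?_ ?_)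
        · refine ContinuousOn.mul continuousOn_const (ContinuousOn.mul
            (Continuous.continuousOn (by fun_prop)) (ContinuousOn.mul
            (Continuous.continuousOn (by fun_prop)) c1))
        · refine ContinuousOn.mul (Continuous.continuousOn (by fun_prop)) (ContinuousOn.mul
            (Continuous.continuousOn (by fun_prop)) (ContinuousOn.mul (ContinuousOn.mul
            continuousOn_const c2) (Continuous.continuousOn (by fun_prop)))))
    refine h1.congr_deriv ?_
    simp only [hH']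
    rw [integral_const_mul]
    have h2 := zonal_identity (E := E) he (g := fun t => 2 * l * s * DD s t ^ (-l - 1))
      (g' := fun t => 2 * l * s * ((-l - 1) * DD s t ^ (-l - 2) * (-2 * s)))
      (by
        intro t ht
        have := (hasDerivAt_DD_rpow' hs ht (-l - 1)).const_mul (2 * l * s)
        refine this.congr_deriv ?_
        have e2 : -l - 1 - 1 = -l - 2 := by ring
        rw [e2])
      (by
        have c2 : ContinuousOn (fun t => DD s t ^ (-l - 2)) (Icc (-1) 1) := by
          apply ContinuousOn.rpow_const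
          · unfold DD
            apply Continuous.continuousOn
            fun_prop
          · intro t ht
            exact Or.inl (DD_pos hs ht).ne'
        exact ContinuousOn.mul continuousOn_const ((continuousOn_const.mul c2).mul continuousOn_const))
    rw [h2, mul_zero]
  have hPsi0 : ∀ s : ℝ, 0 ≤ s → s < 1 → ∫ y : sphere (0 : E) 1, H s ⟪e, (y : E)⟫ ∂(sph E) = 0 := by
    intro s hs0 hs1
    have hlt : ∀ r ∈ Icc (0 : ℝ) s, |r| < 1 := by
      intro r hr
      rw [abs_of_nonneg hr.1]; exact lt_of_le_of_lt hr.2 hs1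
    have h1 := constant_of_has_deriv_right_zero (a := 0) (b := s)
      (f := fun s => ∫ y : sphere (0 : E) 1, H s ⟪e, (y : E)⟫ ∂(sph E))
      (fun r hr => (hPsi r (hlt r hr)).continuousAt.continuousWithinAt)
      (fun r hr => (hPsi r (hlt r ⟨hr.1, hr.2.le⟩)).hasDerivWithinAt) s ⟨hs0, le_rfl⟩
    rw [h1]
    simp only [hH]
    have : (0 : ℝ) ^ (n - 1) = 0 := by
      apply zero_pow; omega
    simp [this]
  have hphi0 : ∀ s : ℝ, 0 ≤ s → s < 1 → ∫ y : sphere (0 : E) 1, G1 s ⟪e, (y : E)⟫ ∂(sph E) = 0 := by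
    intro s hs0 hs1
    rcases hs0.eq_or_lt with h0 | hpos
    · rw [← h0]
      have h2 := zonal_identity (E := E) he (g := fun _ => 1) (g' := fun _ => 0)
        (fun t _ => hasDerivAt_const t 1) continuousOn_const
      simp only [mul_one, mul_zero, sub_zero] at h2
      rw [integral_const_mul] at h2
      have hN1 : N - 1 ≠ 0 := by
        have : (3 : ℝ) ≤ N := by rw [hN]; exact_mod_cast hn
        linarith
      have h3 : ∫ y : sphere (0 : E) 1, ⟪e, (y : E)⟫ ∂(sph E) = 0 := by
        rcases mul_eq_zero.mp h2 with h | h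
        · exact absurd h hN1
        · exact h
      have h4 : ∀ y : sphere (0 : E) 1, G1 0 ⟪e, (y : E)⟫ = (2 * l) * ⟪e, (y : E)⟫ := by
        intro y
        simp only [hG1, DD]
        simp
        ring
      simp_rw [h4]
      rw [integral_const_mul, h3, mul_zero]
    · have h1 := hPsi0 s hs0 hs1
      simp only [hH] at h1
      rw [integral_const_mul] at h1
      rcases mul_eq_zero.mp h1 with h | h
      · exact absurd h (pow_ne_zero _ hpos.ne')
      · exact h
  have hlt : ∀ r ∈ Icc (0 : ℝ) s, |r| < 1 := by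
    intro r hr
    rw [abs_of_nonneg hr.1]; exact lt_of_le_of_lt hr.2 hs1
  have h1 := constant_of_has_deriv_right_zero (a := 0) (b := s)
    (f := fun s => ∫ y : sphere (0 : E) 1, DD s ⟪e, (y : E)⟫ ^ (-l) ∂(sph E))
    (fun r hr => (hphi r (hlt r hr)).continuousAt.continuousWithinAt)
    (fun r hr => by
      have := (hphi r (hlt r ⟨hr.1, hr.2.le⟩)).hasDerivWithinAt (s := Ici r)
      rw [hphi0 r hr.1 (lt_trans hr.2 hs1)] at this
      exact this) s ⟨hs0, le_rfl⟩
  rw [h1]
  simp [DD]

end Pool.Agent.Helper41
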