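import Mathlib
import Pool.Agent.Helper41.Newton

set_option autoImplicit false
set_option linter.unusedSectionVars false

namespace Pool.Agent.Helper41

open MeasureTheory Metric Set Filter Topology
open scoped RealInnerProductSpace Pointwise

variable {E : Type*} [NormedAddCommGroup E] [InnerProductSpace ℝ E] [FiniteDimensional ℝ E]
  [MeasurableSpace E] [BorelSpace E]

/-- the exponent `2 - n` -/
noncomputable abbrev ex (E : Type*) [NormedAddCommGroup E] [InnerProductSpace ℝ E] : ℝ :=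
  2 - (Module.finrank ℝ E : ℝ)

theorem norm_sub_sq_eq {e : E} (he : ‖e‖ = 1) (s : ℝ) (y : sphere (0 : E) 1) :
    ‖s • e - (y : E)‖ ^ 2 = DD s ⟪e, (y : E)⟫ := by
  have hy : ‖(y : E)‖ = 1 := by simp
  rw [norm_sub_sq_real, hy, norm_smul, he, inner_smul_left]
  unfold DD
  simp
  ring

theorem norm_rpow_eq {e : E} (he : ‖e‖ = 1) (s : ℝ) (y : sphere (0 : E) 1) :
    ‖s • e - (y : E)‖ ^ (ex E) = DD s ⟪e, (y : E)⟫ ^ (-(((Module.finrank ℝ E : ℝ) - 2) / 2)) := by
  rw [← norm_sub_sq_eq he s y, ← Real.rpow_natCast, ← Real.rpow_mul (norm_nonneg _)]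
  congr 1
  push_cast
  ring

theorem exists_unit_smul (x : E) (hx : x ≠ 0) : ∃ e : E, ‖e‖ = 1 ∧ x = ‖x‖ • e := by
  have hx' : ‖x‖ ≠ 0 := norm_ne_zero_iff.mpr hx
  refine ⟨‖x‖⁻¹ • x, ?_, ?_⟩
  · rw [norm_smul, norm_inv, norm_norm, inv_mul_cancel₀ hx']
  · rw [smul_smul, mul_inv_cancel₀ hx', one_smul]

theorem continuous_kernel_sphere {x : E} (hx : ‖x‖ ≠ 1) :
    Continuous fun y : sphere (0 : E) 1 => ‖x - (y : E)‖ ^ (ex E) := by
  apply Continuous.rpow_const (by fun_prop)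
  intro y
  left
  rw [norm_ne_zero_iff, sub_ne_zero]
  rintro rfl
  exact hx (by simp)

/-- inside: the mean of the kernel over the unit sphere is `1` -/
theorem integral_kernel_inside (hn : 3 ≤ Module.finrank ℝ E) {x : E} (hx : ‖x‖ < 1) :
    ∫ y : sphere (0 : E) 1, ‖x - (y : E)‖ ^ (ex E) ∂(sph E) = (sph E).real univ := by
  by_cases h0 : x = 0
  · subst h0
    simp
  · obtain ⟨e, he, hxe⟩ := exists_unit_smul x h0
    have h := zonal_mean (E := E) he hn (norm_nonneg x) hx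
    rw [← h]
    refine integral_congr_ae (Filter.Eventually.of_forall fun y => ?_)
    simp only
    rw [← norm_rpow_eq he ‖x‖ y, ← hxe]

/-- outside: the mean of the kernel over the unit sphere is `‖x‖^(2-n)` -/
theorem integral_kernel_outside (hn : 3 ≤ Module.finrank ℝ E) {x : E} (hx : 1 < ‖x‖) :
    ∫ y : sphere (0 : E) 1, ‖x - (y : E)‖ ^ (ex E) ∂(sph E) = ‖x‖ ^ (ex E) * (sph E).real univ := by
  have h0 : x ≠ 0 := by
    rintro rfl
    simp at hx
    linarith
  obtain ⟨e, he, hxe⟩ := exists_unit_smul x h0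
  have hpos : 0 < ‖x‖ := norm_pos_iff.mpr h0
  have h := zonal_mean (E := E) he hn (s := ‖x‖⁻¹) (by positivity) (inv_lt_one_of_one_lt₀ hx)
  rw [← h, ← integral_const_mul]
  refine integral_congr_ae (Filter.Eventually.of_forall fun y => ?_)
  simp only
  have h1 : ‖x - (y : E)‖ ^ (ex E) = DD ‖x‖ ⟪e, (y : E)⟫ ^ (-(((Module.finrank ℝ E : ℝ) - 2) / 2)) := by
    rw [← norm_rpow_eq he ‖x‖ y, ← hxe]
  have h2 : DD ‖x‖ ⟪e, (y : E)⟫ = ‖x‖ ^ 2 * DD ‖x‖⁻¹ ⟪e, (y : E)⟫ := by
    unfold DD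
    field_simp
    ring
  have h3 : 0 < DD ‖x‖⁻¹ ⟪e, (y : E)⟫ := by
    apply DD_pos _ (inner_mem he y)
    rw [abs_of_pos (by positivity)]
    exact inv_lt_one_of_one_lt₀ hx
  rw [h1, h2, Real.mul_rpow (by positivity) h3.le, ← Real.rpow_natCast, ← Real.rpow_mul hpos.le]
  congr 2
  push_cast
  ring

/-- kernel integrals over spheres of radius `r`, `lintegral` form, away from the sphere -/
theorem lintegral_kernel_of_ne (hn : 3 ≤ Module.finrank ℝ E) {r : ℝ} (hr : 0 < r) {x : E} (hx : ‖x‖ ≠ r) :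
    ∫⁻ y : sphere (0 : E) 1, ENNReal.ofReal (‖x - r • (y : E)‖ ^ (ex E)) ∂(sph E)
      = ENNReal.ofReal ((max ‖x‖ r) ^ (ex E)) * (sph E) univ := by
  have hx' : ‖r⁻¹ • x‖ ≠ 1 := by
    rw [norm_smul, norm_inv, Real.norm_of_nonneg hr.le]
    intro h
    apply hx
    field_simp at h
    exact h
  have e1 : ∀ y : sphere (0 : E) 1, ‖x - r • (y : E)‖ ^ (ex E)
      = r ^ (ex E) * ‖r⁻¹ • x - (y : E)‖ ^ (ex E) := by
    intro y
    rw [← Real.mul_rpow hr.le (norm_nonneg _)]
    congr 1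
    have : x - r • (y : E) = r • (r⁻¹ • x - (y : E)) := by
      rw [smul_sub, smul_smul, mul_inv_cancel₀ hr.ne', one_smul]
    rw [this, norm_smul, Real.norm_of_nonneg hr.le]
  have hc := continuous_kernel_sphere hx'
  have hint : Integrable (fun y : sphere (0 : E) 1 => ‖r⁻¹ • x - (y : E)‖ ^ (ex E)) (sph E) :=
    hc.integrable_of_hasCompactSupport (HasCompactSupport.of_compactSpace _)
  simp_rw [e1]
  rw [← ofReal_integral_eq_lintegral_ofReal (hint.const_mul _)
    (Filter.Eventually.of_forall fun y => by positivity), integral_const_mul]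
  have hσ : (sph E) univ = ENNReal.ofReal ((sph E).real univ) := by
    rw [Measure.real, ENNReal.ofReal_toReal (measure_ne_top _ _)]
  rw [hσ, ← ENNReal.ofReal_mul (by positivity)]
  congr 1
  rcases lt_or_gt_of_ne hx with h | h
  · have h1 : ‖r⁻¹ • x‖ < 1 := by
      rw [norm_smul, norm_inv, Real.norm_of_nonneg hr.le]
      rw [inv_mul_lt_iff₀ hr]; simpa using h
    rw [integral_kernel_inside hn h1, max_eq_right h.le]
  · have h1 : 1 < ‖r⁻¹ • x‖ := by
      rw [norm_smul, norm_inv, Real.norm_of_nonneg hr.le]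
      rw [lt_inv_mul_iff₀ hr]; simpa using h
    rw [integral_kernel_outside hn h1, max_eq_left h.le, norm_smul, norm_inv,
      Real.norm_of_nonneg hr.le, ← mul_assoc, ← Real.mul_rpow hr.le (by positivity)]
    congr 2
    field_simp

end Pool.Agent.Helper41
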