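import Mathlib
import Pool.Agent.Helper41.SphereMean

set_option autoImplicit false
set_option linter.unusedSectionVars false

namespace Pool.Agent.Helper41

open MeasureTheory Metric Set Filter Topology
open scoped RealInnerProductSpace Pointwise ENNReal

variable {E : Type*} [NormedAddCommGroup E] [InnerProductSpace ℝ E] [FiniteDimensional ℝ E]
  [MeasurableSpace E] [BorelSpace E]

theorem lintegral_volumeIoiPow (m : ℕ) {f : ℝ → ENNReal} (hf : Measurable f) :
    ∫⁻ ρ : Ioi (0 : ℝ), f ρ ∂(Measure.volumeIoiPow m) = ∫⁻ ρ in Ioi (0 : ℝ), ENNReal.ofReal (ρ ^ m) * f ρ := by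
  rw [Measure.volumeIoiPow, lintegral_withDensity_eq_lintegral_mul _ (by fun_prop) (by fun_prop)]
  simp only [Pi.mul_apply]
  exact lintegral_subtype_comap measurableSet_Ioi (fun ρ : ℝ => ENNReal.ofReal (ρ ^ m) * f ρ)

theorem ae_ne_volumeIoiPow (m : ℕ) (a : ℝ) :
    ∀ᵐ ρ : Ioi (0 : ℝ) ∂(Measure.volumeIoiPow m), a ≠ ρ.1 := by
  have h1 : (Measure.volumeIoiPow m) ≪ (Measure.comap ((↑) : Ioi (0 : ℝ) → ℝ) volume) :=
    withDensity_absolutelyContinuous _ _
  rw [ae_iff]
  apply h1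
  have : {ρ : Ioi (0 : ℝ) | ¬ a ≠ ρ.1} = (↑) ⁻¹' {a} := by
    ext ρ; simp [eq_comm]
  rw [this, (MeasurableEmbedding.subtype_coe measurableSet_Ioi).comap_preimage]
  refine measure_mono_null inter_subset_left ?_
  exact measure_singleton a

theorem measurable_kernel (x : E) : Measurable fun y : E => ENNReal.ofReal (‖x - y‖ ^ (ex E)) := by
  fun_prop

/-- potentials of radial densities -/
theorem lintegral_radial (hn : 3 ≤ Module.finrank ℝ E) {χ : ℝ → ENNReal} (hχ : Measurable χ) (x : E) :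
    ∫⁻ y : E, χ ‖y‖ * ENNReal.ofReal (‖x - y‖ ^ (ex E))
      = (sph E) univ * ∫⁻ ρ in Ioi (0 : ℝ), ENNReal.ofReal (ρ ^ (Module.finrank ℝ E - 1))
          * (χ ρ * ENNReal.ofReal ((max ‖x‖ ρ) ^ (ex E))) := by
  have hnt : Nontrivial E := Module.nontrivial_of_finrank_pos (R := ℝ) (by omega)
  rw [lintegral_polar, ← lintegral_volumeIoiPow _ (by fun_prop)]
  rw [lintegral_prod_symm' _ (by fun_prop)]
  rw [← lintegral_const_mul _ (by fun_prop)]
  refine lintegral_congr_ae ?_
  filter_upwards [ae_ne_volumeIoiPow (Module.finrank ℝ E - 1) ‖x‖] with ρ hρ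
  have hρ0 : (0 : ℝ) < ρ.1 := ρ.2
  have h1 : ∀ y : sphere (0 : E) 1, ‖ρ.1 • (y : E)‖ = ρ.1 := by
    intro y
    rw [norm_smul, Real.norm_of_nonneg hρ0.le]
    simp
  simp_rw [h1]
  rw [lintegral_const_mul _ (by fun_prop), lintegral_kernel_of_ne hn hρ0 hρ]
  ring

/-- one-dimensional integral, outer case -/
theorem radInt_outer {n : ℕ} (hn : 3 ≤ n) {a r : ℝ} (hr : 0 ≤ r) (har : r ≤ a) :
    ∫ ρ in (0 : ℝ)..r, ρ ^ (n - 1) * (max a ρ) ^ (2 - (n : ℝ)) = a ^ (2 - (n : ℝ)) * (r ^ n / n) := by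
  have h1 : ∫ ρ in (0 : ℝ)..r, ρ ^ (n - 1) * (max a ρ) ^ (2 - (n : ℝ))
      = ∫ ρ in (0 : ℝ)..r, a ^ (2 - (n : ℝ)) * ρ ^ (n - 1) := by
    apply intervalIntegral.integral_congr
    intro ρ hρ
    rw [uIcc_of_le hr] at hρ
    simp only
    rw [max_eq_left (hρ.2.trans har)]
    ring
  rw [h1, intervalIntegral.integral_const_mul, integral_pow]
  have h2 : n - 1 + 1 = n := by omega
  have h3 : ((n - 1 : ℕ) : ℝ) + 1 = n := by exact_mod_cast h2
  rw [h2, h3]
  have h4 : (0 : ℝ) ^ n = 0 := zero_pow (by omega)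
  rw [h4, sub_zero]

theorem pow_mul_rpow_eq {n : ℕ} (hn : 3 ≤ n) {ρ : ℝ} (hρ : 0 ≤ ρ) :
    ρ ^ (n - 1) * ρ ^ (2 - (n : ℝ)) = ρ := by
  rcases hρ.eq_or_lt with h | h
  · rw [← h]
    rw [zero_pow (by omega), zero_mul]
  · rw [← Real.rpow_natCast, ← Real.rpow_add h, Nat.cast_sub (by omega)]
    have : ((n : ℝ) - ((1 : ℕ) : ℝ) + (2 - (n : ℝ))) = 1 := by push_cast; ring
    rw [this, Real.rpow_one]

/-- one-dimensional integral, inner case -/
theorem radInt_inner {n : ℕ} (hn : 3 ≤ n) {a r : ℝ} (ha : 0 ≤ a) (har : a ≤ r) :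
    ∫ ρ in (0 : ℝ)..r, ρ ^ (n - 1) * (max a ρ) ^ (2 - (n : ℝ)) = a ^ 2 / n + (r ^ 2 - a ^ 2) / 2 := by
  have h0 := radInt_outer hn ha le_rfl
  have e2 : a ^ (2 - (n : ℝ)) * (a ^ n / n) = a ^ 2 / n := by
    have h5 := pow_mul_rpow_eq hn ha
    have h6 : a ^ n = a ^ (n - 1) * a := by
      rw [← pow_succ]; congr 1; omega
    rw [h6]
    calc a ^ (2 - (n : ℝ)) * (a ^ (n - 1) * a / n) = (a ^ (n - 1) * a ^ (2 - (n : ℝ))) * a / n := by ring
      _ = a ^ 2 / n := by rw [h5]; ring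
  rw [e2] at h0
  have h1 : ∫ ρ in a..r, ρ ^ (n - 1) * (max a ρ) ^ (2 - (n : ℝ)) = ∫ ρ in a..r, ρ := by
    apply intervalIntegral.integral_congr
    intro ρ hρ
    rw [uIcc_of_le har] at hρ
    simp only
    rw [max_eq_right hρ.1, pow_mul_rpow_eq hn (ha.trans hρ.1)]
  have i1 : IntervalIntegrable (fun ρ => ρ ^ (n - 1) * (max a ρ) ^ (2 - (n : ℝ))) volume 0 a := by
    have : IntervalIntegrable (fun ρ => a ^ (2 - (n : ℝ)) * ρ ^ (n - 1)) volume 0 a :=
      (by fun_prop : Continuous fun ρ => a ^ (2 - (n : ℝ)) * ρ ^ (n - 1)).intervalIntegrable _ _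
    refine this.congr ?_
    intro ρ hρ
    rw [uIoc_of_le ha] at hρ
    simp only
    rw [max_eq_left hρ.2]; ring
  have i2 : IntervalIntegrable (fun ρ => ρ ^ (n - 1) * (max a ρ) ^ (2 - (n : ℝ))) volume a r := by
    have : IntervalIntegrable (fun ρ : ℝ => ρ) volume a r := continuous_id.intervalIntegrable _ _
    refine this.congr ?_
    intro ρ hρ
    rw [uIoc_of_le har] at hρ
    simp only
    rw [max_eq_right hρ.1.le, pow_mul_rpow_eq hn (ha.trans hρ.1.le)]
  rw [← intervalIntegral.integral_add_adjacent_intervals i1 i2, h0, h1, integral_id]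

theorem radInt_integrable {n : ℕ} (hn : 3 ≤ n) {a r : ℝ} (ha : 0 ≤ a) (hr : 0 ≤ r) :
    IntervalIntegrable (fun ρ => ρ ^ (n - 1) * (max a ρ) ^ (2 - (n : ℝ))) volume 0 r := by
  rcases le_total r a with h | h
  · have : IntervalIntegrable (fun ρ => a ^ (2 - (n : ℝ)) * ρ ^ (n - 1)) volume 0 r :=
      (by fun_prop : Continuous fun ρ => a ^ (2 - (n : ℝ)) * ρ ^ (n - 1)).intervalIntegrable _ _
    refine this.congr ?_
    intro ρ hρ
    rw [uIoc_of_le hr] at hρ
    simp only
    rw [max_eq_left (hρ.2.trans h)]; ring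
  · have i1 : IntervalIntegrable (fun ρ => ρ ^ (n - 1) * (max a ρ) ^ (2 - (n : ℝ))) volume 0 a := by
      have : IntervalIntegrable (fun ρ => a ^ (2 - (n : ℝ)) * ρ ^ (n - 1)) volume 0 a :=
        (by fun_prop : Continuous fun ρ => a ^ (2 - (n : ℝ)) * ρ ^ (n - 1)).intervalIntegrable _ _
      refine this.congr ?_
      intro ρ hρ
      rw [uIoc_of_le ha] at hρ
      simp only
      rw [max_eq_left hρ.2]; ring
    have i2 : IntervalIntegrable (fun ρ => ρ ^ (n - 1) * (max a ρ) ^ (2 - (n : ℝ))) volume a r := by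
      have : IntervalIntegrable (fun ρ : ℝ => ρ) volume a r := continuous_id.intervalIntegrable _ _
      refine this.congr ?_
      intro ρ hρ
      rw [uIoc_of_le h] at hρ
      simp only
      rw [max_eq_right hρ.1.le, pow_mul_rpow_eq hn (ha.trans hρ.1.le)]
    exact i1.trans i2

/-- potential of a ball, `lintegral` form -/
theorem lintegral_ball (hn : 3 ≤ Module.finrank ℝ E) {r : ℝ} (hr : 0 ≤ r) (x : E) :
    ∫⁻ y in ball (0 : E) r, ENNReal.ofReal (‖x - y‖ ^ (ex E))
      = ENNReal.ofReal ((sph E).real univ *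
        ∫ ρ in (0 : ℝ)..r, ρ ^ (Module.finrank ℝ E - 1) * (max ‖x‖ ρ) ^ (ex E)) := by
  have h1 : ∫⁻ y in ball (0 : E) r, ENNReal.ofReal (‖x - y‖ ^ (ex E))
      = ∫⁻ y : E, (Iio r).indicator 1 ‖y‖ * ENNReal.ofReal (‖x - y‖ ^ (ex E)) := by
    rw [← lintegral_indicator measurableSet_ball]
    refine lintegral_congr fun y => ?_
    by_cases hy : ‖y‖ < r
    · rw [indicator_of_mem (by simpa using hy), indicator_of_mem (by simpa using hy)]; simp
    · rw [indicator_of_notMem (by simpa using hy), indicator_of_notMem (by simpa using hy)]; simp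
  have hm : Measurable ((Iio r).indicator (1 : ℝ → ENNReal)) :=
    measurable_one.indicator measurableSet_Iio
  rw [h1, lintegral_radial hn hm]
  have hσ : (sph E) univ = ENNReal.ofReal ((sph E).real univ) := by
    rw [Measure.real, ENNReal.ofReal_toReal (measure_ne_top _ _)]
  rw [hσ, ENNReal.ofReal_mul measureReal_nonneg]
  congr 1
  have hint := radInt_integrable hn (norm_nonneg x) hr
  rw [intervalIntegral.integral_of_le hr]
  rw [ofReal_integral_eq_lintegral_ofReal ((intervalIntegrable_iff_integrableOn_Ioc_of_le hr).mp hint)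
    (by
      filter_upwards [ae_restrict_mem measurableSet_Ioc] with ρ hρ
      have := hρ.1.le
      have h2 : 0 ≤ max ‖x‖ ρ := le_max_of_le_left (norm_nonneg x)
      positivity)]
  rw [← lintegral_indicator measurableSet_Ioi, ← lintegral_indicator measurableSet_Ioc]
  refine lintegral_congr_ae ?_
  have hne : ∀ᵐ ρ : ℝ, ρ ≠ r := by
    simp [ae_iff]
  filter_upwards [hne] with ρ hρ
  by_cases h0 : 0 < ρ
  · by_cases hr' : ρ < r
    · rw [indicator_of_mem (by simpa using h0), indicator_of_mem (by simpa using hr'),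
        indicator_of_mem (by exact ⟨h0, hr'.le⟩), ENNReal.ofReal_mul (by positivity)]
      simp
    · rw [indicator_of_mem (by simpa using h0), indicator_of_notMem (by simpa using hr'),
        indicator_of_notMem (by
          intro h
          exact hr' (lt_of_le_of_ne h.2 hρ))]
      simp
  · rw [indicator_of_notMem (by simpa using h0), indicator_of_notMem (by
      intro h
      exact h0 h.1)]

/-- potential of a ball, Bochner form -/
theorem integral_ball (hn : 3 ≤ Module.finrank ℝ E) {r : ℝ} (hr : 0 ≤ r) (x : E) :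
    ∫ y in ball (0 : E) r, ‖x - y‖ ^ (ex E)
      = (sph E).real univ *
        ∫ ρ in (0 : ℝ)..r, ρ ^ (Module.finrank ℝ E - 1) * (max ‖x‖ ρ) ^ (ex E) := by
  have hmeas : Measurable fun y : E => ‖x - y‖ ^ (ex E) := by fun_prop
  rw [integral_eq_lintegral_of_nonneg_ae (Filter.Eventually.of_forall fun y => by positivity)
    hmeas.aestronglyMeasurable, lintegral_ball hn hr x, ENNReal.toReal_ofReal]
  refine mul_nonneg measureReal_nonneg (intervalIntegral.integral_nonneg hr fun ρ hρ => ?_)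
  have := hρ.1
  have h2 : 0 ≤ max ‖x‖ ρ := le_max_of_le_left (norm_nonneg x)
  positivity

theorem integral_ball_outer (hn : 3 ≤ Module.finrank ℝ E) {r : ℝ} (hr : 0 ≤ r) {x : E} (hx : r ≤ ‖x‖) :
    ∫ y in ball (0 : E) r, ‖x - y‖ ^ (ex E)
      = (sph E).real univ * (‖x‖ ^ (ex E) * (r ^ Module.finrank ℝ E / Module.finrank ℝ E)) := by
  rw [integral_ball hn hr x, radInt_outer hn hr hx]

theorem integral_ball_inner (hn : 3 ≤ Module.finrank ℝ E) {r : ℝ} (hr : 0 ≤ r) {x : E} (hx : ‖x‖ ≤ r) :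
    ∫ y in ball (0 : E) r, ‖x - y‖ ^ (ex E)
      = (sph E).real univ * (‖x‖ ^ 2 / Module.finrank ℝ E + (r ^ 2 - ‖x‖ ^ 2) / 2) := by
  rw [integral_ball hn hr x, radInt_inner hn (norm_nonneg x) hx]

theorem sph_univ : (sph E).real univ = Module.finrank ℝ E * (volume : Measure E).real (ball 0 1) := by
  exact Measure.toSphere_real_apply_univ _

theorem volume_ball (hn : 3 ≤ Module.finrank ℝ E) {r : ℝ} (hr : 0 ≤ r) :
    (volume : Measure E).real (ball 0 r) = r ^ Module.finrank ℝ E * (volume : Measure E).real (ball 0 1) := by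
  have hnt : Nontrivial E := Module.nontrivial_of_finrank_pos (R := ℝ) (by omega)
  rw [Measure.real, Measure.addHaar_ball _ _ hr, ENNReal.toReal_mul, ENNReal.toReal_ofReal (by positivity)]
  rfl

end Pool.Agent.Helper41
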