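import Mathlib

set_option autoImplicit false

/-!
Combinatorial part for MP_0ef3a5_an: counting near resonances of several levels in a forest.
-/

open Finset

namespace Pool.Agent.Helper41.Br

/-- Nonempty ordered forests; `root j F G` is a tree with root of type `j` over the forests `F, G`. -/
inductive Fo : Type
  | leaf : Bool → Fo
  | join : Fo → Fo → Fo
  | root : Bool → Fo → Fo → Fo

def ex : Bool → ℤ
  | false => 1
  | true => 0

def ey : Bool → ℤ
  | false => 0
  | true => 1

lemma ex_nonneg (j : Bool) : 0 ≤ ex j := by cases j <;> simp [ex]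
lemma ey_nonneg (j : Bool) : 0 ≤ ey j := by cases j <;> simp [ey]
lemma ex_le (j : Bool) : ex j ≤ 1 := by cases j <;> simp [ex]
lemma ey_le (j : Bool) : ey j ≤ 1 := by cases j <;> simp [ey]
lemma ex_add_ey (j : Bool) : ex j + ey j = 1 := by cases j <;> simp [ex, ey]

/-- number of leaves of the first type -/
def cx : Fo → ℤ
  | .leaf j => ex j
  | .join F G => cx F + cx G
  | .root _ F G => cx F + cx G

/-- number of leaves of the second type -/
def cy : Fo → ℤ
  | .leaf j => ey j
  | .join F G => cy F + cy G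
  | .root _ F G => cy F + cy G

lemma cx_nonneg (F : Fo) : 0 ≤ cx F := by
  induction F with
  | leaf j => exact ex_nonneg j
  | join F G h1 h2 => simp only [cx]; linarith
  | root j F G h1 h2 => simp only [cx]; linarith

lemma cy_nonneg (F : Fo) : 0 ≤ cy F := by
  induction F with
  | leaf j => exact ey_nonneg j
  | join F G h1 h2 => simp only [cy]; linarith
  | root j F G h1 h2 => simp only [cy]; linarith

lemma one_le_c (F : Fo) : 1 ≤ cx F + cy F := by
  induction F with
  | leaf j => simp only [cx, cy]; linarith [ex_add_ey j]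
  | join F G h1 h2 => simp only [cx, cy]; linarith
  | root j F G h1 h2 => simp only [cx, cy]; linarith

section
open Classical

variable (mk : ℕ → ℤ → ℤ → Bool → Prop) (m : ℕ → ℤ)

/-- the root `root j F G` is marked at level `n` -/
def Mk (n : ℕ) (j : Bool) (F G : Fo) : Prop := mk n (cx F + cx G) (cy F + cy G) j

noncomputable def kx (n : ℕ) : Fo → ℤ
  | .leaf j => ex j
  | .join F G => kx n F + kx n G
  | .root j F G => if Mk mk n j F G then ex j else kx n F + kx n G

noncomputable def ky (n : ℕ) : Fo → ℤ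
  | .leaf j => ey j
  | .join F G => ky n F + ky n G
  | .root j F G => if Mk mk n j F G then ey j else ky n F + ky n G

noncomputable def rr (n : ℕ) : Fo → ℤ
  | .leaf _ => 0
  | .join F G => rr n F + rr n G
  | .root j F G => if Mk mk n j F G then 1 else rr n F + rr n G

noncomputable def ox (n : ℕ) : Fo → ℤ
  | .leaf j => ex j
  | .join F G => ox n F + ox n G
  | .root j F G => if Mk mk n j F G then 0 else ox n F + ox n G

noncomputable def oy (n : ℕ) : Fo → ℤ
  | .leaf j => ey j
  | .join F G => oy n F + oy n G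
  | .root j F G => if Mk mk n j F G then 0 else oy n F + oy n G

/-- closing of the first kind -/
def Ecl (n : ℕ) (j : Bool) (F G : Fo) : Prop :=
  Mk mk n j F G ∧ rr mk n F + rr mk n G ≤ 1 ∧
    ∃ a : ℤ, 1 ≤ a ∧ kx mk n F + kx mk n G - ex j = a * m n ∧ ky mk n F + ky mk n G - ey j = 2 * a

/-- closing of the second kind -/
def Hcl (n : ℕ) (j : Bool) (F G : Fo) : Prop :=
  Mk mk n j F G ∧ rr mk n F + rr mk n G ≤ 1 ∧
    ¬ ∃ a : ℤ, 1 ≤ a ∧ kx mk n F + kx mk n G - ex j = a * m n ∧ ky mk n F + ky mk n G - ey j = 2 * a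

/-- number of nodes marked at level `n` -/
noncomputable def Nn (n : ℕ) : Fo → ℤ
  | .leaf _ => 0
  | .join F G => Nn n F + Nn n G
  | .root j F G => Nn n F + Nn n G + (if Mk mk n j F G then 1 else 0)

noncomputable def El (n : ℕ) : Fo → ℤ
  | .leaf _ => 0
  | .join F G => El n F + El n G
  | .root j F G => El n F + El n G + (if Ecl mk m n j F G then 1 else 0)

noncomputable def Hc (n : ℕ) : Fo → ℤ
  | .leaf _ => 0
  | .join F G => Hc n F + Hc n G
  | .root j F G => Hc n F + Hc n G + (if Hcl mk m n j F G then 1 else 0)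

/-- number of first-kind closings of level `n'` in the part open at level `n` -/
noncomputable def Eo (n' n : ℕ) : Fo → ℤ
  | .leaf _ => 0
  | .join F G => Eo n' n F + Eo n' n G
  | .root j F G => if Mk mk n j F G then 0 else Eo n' n F + Eo n' n G +
      (if Ecl mk m n' j F G then 1 else 0)

variable {mk m}

lemma ox_nonneg (n : ℕ) (F : Fo) : 0 ≤ ox mk n F := by
  induction F with
  | leaf j => exact ex_nonneg j
  | join F G h1 h2 => simp only [ox]; linarith
  | root j F G h1 h2 => simp only [ox]; split_ifs <;> linarith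

lemma oy_nonneg (n : ℕ) (F : Fo) : 0 ≤ oy mk n F := by
  induction F with
  | leaf j => exact ey_nonneg j
  | join F G h1 h2 => simp only [oy]; linarith
  | root j F G h1 h2 => simp only [oy]; split_ifs <;> linarith

lemma rr_nonneg (n : ℕ) (F : Fo) : 0 ≤ rr mk n F := by
  induction F with
  | leaf j => simp [rr]
  | join F G h1 h2 => simp only [rr]; linarith
  | root j F G h1 h2 => simp only [rr]; split_ifs <;> linarith

lemma ox_le_kx (n : ℕ) (F : Fo) : ox mk n F ≤ kx mk n F := by
  induction F with
  | leaf j => exact le_refl _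
  | join F G h1 h2 => simp only [ox, kx]; linarith
  | root j F G h1 h2 => simp only [ox, kx]; split_ifs <;> linarith [ex_nonneg j]

lemma oy_le_ky (n : ℕ) (F : Fo) : oy mk n F ≤ ky mk n F := by
  induction F with
  | leaf j => exact le_refl _
  | join F G h1 h2 => simp only [oy, ky]; linarith
  | root j F G h1 h2 => simp only [oy, ky]; split_ifs <;> linarith [ey_nonneg j]

lemma kx_add_ky (n : ℕ) (F : Fo) : kx mk n F + ky mk n F = ox mk n F + oy mk n F + rr mk n F := by
  induction F with
  | leaf j => simp only [ox, oy, kx, ky, rr]; ring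
  | join F G h1 h2 => simp only [ox, oy, kx, ky, rr]; linarith
  | root j F G h1 h2 =>
    simp only [ox, oy, kx, ky, rr]
    split_ifs
    · linarith [ex_add_ey j]
    · linarith

lemma one_le_k (n : ℕ) (F : Fo) : 1 ≤ kx mk n F + ky mk n F := by
  induction F with
  | leaf j => simp only [kx, ky]; linarith [ex_add_ey j]
  | join F G h1 h2 => simp only [kx, ky]; linarith
  | root j F G h1 h2 =>
    simp only [kx, ky]; split_ifs
    · linarith [ex_add_ey j]
    · linarith

/-- the content minus the open content, when there is at most one maximal marked node -/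
lemma content_inv (n : ℕ) (F : Fo) :
    (rr mk n F = 0 → cx F = kx mk n F ∧ cy F = ky mk n F) ∧
    (rr mk n F = 1 → ∃ x y j, mk n x y j ∧ cx F - kx mk n F = x - ex j ∧
      cy F - ky mk n F = y - ey j) := by
  have join_case : ∀ F G : Fo,
      ((rr mk n F = 0 → cx F = kx mk n F ∧ cy F = ky mk n F) ∧
    (rr mk n F = 1 → ∃ x y j, mk n x y j ∧ cx F - kx mk n F = x - ex j ∧
      cy F - ky mk n F = y - ey j)) →
      ((rr mk n G = 0 → cx G = kx mk n G ∧ cy G = ky mk n G) ∧
    (rr mk n G = 1 → ∃ x y j, mk n x y j ∧ cx G - kx mk n G = x - ex j ∧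
      cy G - ky mk n G = y - ey j)) →
      ((rr mk n F + rr mk n G = 0 → cx F + cx G = kx mk n F + kx mk n G ∧
        cy F + cy G = ky mk n F + ky mk n G) ∧
    (rr mk n F + rr mk n G = 1 → ∃ x y j, mk n x y j ∧
      (cx F + cx G) - (kx mk n F + kx mk n G) = x - ex j ∧
      (cy F + cy G) - (ky mk n F + ky mk n G) = y - ey j)) := by
    intro F G hF hG
    have h1 := rr_nonneg (mk := mk) n F
    have h2 := rr_nonneg (mk := mk) n G
    constructor
    · intro h
      have h3 := hF.1 (by omega)
      have h4 := hG.1 (by omega)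
      omega
    · intro h
      rcases (by omega : (rr mk n F = 0 ∧ rr mk n G = 1) ∨ (rr mk n F = 1 ∧ rr mk n G = 0)) with h | h
      · obtain ⟨x, y, j, hm, e1, e2⟩ := hG.2 h.2
        have h3 := hF.1 h.1
        exact ⟨x, y, j, hm, by omega, by omega⟩
      · obtain ⟨x, y, j, hm, e1, e2⟩ := hF.2 h.1
        have h3 := hG.1 h.2
        exact ⟨x, y, j, hm, by omega, by omega⟩
  induction F with
  | leaf j => simp [rr, cx, cy, kx, ky]
  | join F G h1 h2 => simpa only [rr, cx, cy, kx, ky] using join_case F G h1 h2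
  | root j F G h1 h2 =>
    by_cases hm : Mk mk n j F G
    · simp only [rr, cx, cy, kx, ky, if_pos hm]
      refine ⟨fun h => by omega, fun _ => ⟨_, _, j, hm, rfl, rfl⟩⟩
    · simpa only [rr, cx, cy, kx, ky, if_neg hm] using join_case F G h1 h2

/-- The hypotheses on the near resonances. -/
structure Hyp (mk : ℕ → ℤ → ℤ → Bool → Prop) (m Q : ℕ → ℤ) : Prop where
  nest : ∀ n x y j, mk (n + 1) x y j → mk n x y j
  cls1 : ∀ n x y j, mk n x y j → -1 ≤ x - ex j → -1 ≤ y - ey j → 1 ≤ (x - ex j) + (y - ey j) →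
    (∃ a : ℤ, 1 ≤ a ∧ x - ex j = a * m n ∧ y - ey j = 2 * a) ∨
      Q n ≤ m n * ((x - ex j) + (y - ey j))
  cls2 : ∀ n x y j x' y' j' d e, mk n x y j → mk n x' y' j' →
    d = (x - ex j) - (x' - ex j') → e = (y - ey j) - (y' - ey j') →
    -1 ≤ d → -1 ≤ e → 1 ≤ d + e →
    (∃ a : ℤ, 1 ≤ a ∧ d = a * m n ∧ e = 2 * a) ∨ Q n ≤ m n * (d + e)
  m2 : ∀ n, 2 ≤ m n
  msum : ∀ n, 4 * ∑ i ∈ range n, m i ≤ m n

variable {Q : ℕ → ℤ} (H : Hyp mk m Q)
include H

lemma Hyp.nest' {n' n : ℕ} (h : n' ≤ n) {x y : ℤ} {j : Bool} (hm : mk n x y j) : mk n' x y j := by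
  induction n, h using Nat.le_induction with
  | base => exact hm
  | succ n _ ih => exact ih (H.nest _ _ _ _ hm)

/-- classification at a closing -/
lemma cls (n : ℕ) (j : Bool) (F G : Fo) (hm : Mk mk n j F G)
    (hr : rr mk n F + rr mk n G ≤ 1) :
    (∃ a : ℤ, 1 ≤ a ∧ kx mk n F + kx mk n G - ex j = a * m n ∧
      ky mk n F + ky mk n G - ey j = 2 * a) ∨
      Q n ≤ m n * (kx mk n F + kx mk n G - ex j + (ky mk n F + ky mk n G - ey j)) := by
  have e1 := ex_le j
  have e2 := ey_le j
  have e3 := ex_add_ey j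
  have k1 := one_le_k (mk := mk) n F
  have k2 := one_le_k (mk := mk) n G
  have o1 := ox_nonneg (mk := mk) n F
  have o2 := ox_nonneg (mk := mk) n G
  have o3 := oy_nonneg (mk := mk) n F
  have o4 := oy_nonneg (mk := mk) n G
  have o5 := ox_le_kx (mk := mk) n F
  have o6 := ox_le_kx (mk := mk) n G
  have o7 := oy_le_ky (mk := mk) n F
  have o8 := oy_le_ky (mk := mk) n G
  have r1 := rr_nonneg (mk := mk) n F
  have r2 := rr_nonneg (mk := mk) n G
  have c1 := content_inv (mk := mk) n F
  have c2 := content_inv (mk := mk) n G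
  rcases (by omega : (rr mk n F = 0 ∧ rr mk n G = 0) ∨ (rr mk n F = 0 ∧ rr mk n G = 1) ∨
    (rr mk n F = 1 ∧ rr mk n G = 0)) with h | h | h
  · have h3 := c1.1 h.1
    have h4 := c2.1 h.2
    have := H.cls1 n _ _ j hm (by omega) (by omega) (by omega)
    rw [h3.1, h3.2, h4.1, h4.2] at this
    exact this
  · have h3 := c1.1 h.1
    obtain ⟨x, y, j', hm', e4, e5⟩ := c2.2 h.2
    exact H.cls2 n _ _ j x y j' _ _ hm hm' (by omega) (by omega) (by omega) (by omega) (by omega)
  · have h3 := c2.1 h.2
    obtain ⟨x, y, j', hm', e4, e5⟩ := c1.2 h.1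
    exact H.cls2 n _ _ j x y j' _ _ hm hm' (by omega) (by omega) (by omega) (by omega) (by omega)

omit H in
/-- T1 -/
lemma T1 (n : ℕ) (F : Fo) : Nn mk n F + rr mk n F ≤ 2 * (El mk m n F + Hc mk m n F) := by
  induction F with
  | leaf j => simp [Nn, rr, El, Hc]
  | join F G h1 h2 => simp only [Nn, rr, El, Hc]; linarith
  | root j F G h1 h2 =>
    have r1 := rr_nonneg (mk := mk) n F
    have r2 := rr_nonneg (mk := mk) n G
    by_cases hm : Mk mk n j F G
    · by_cases hr : rr mk n F + rr mk n G ≤ 1
      · by_cases hE : ∃ a : ℤ, 1 ≤ a ∧ kx mk n F + kx mk n G - ex j = a * m n ∧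
          ky mk n F + ky mk n G - ey j = 2 * a
        · have hE' : Ecl mk m n j F G := ⟨hm, hr, hE⟩
          have hH' : ¬ Hcl mk m n j F G := fun h => h.2.2 hE
          simp only [Nn, rr, El, Hc, if_pos hm, if_pos hE', if_neg hH']
          omega
        · have hE' : ¬ Ecl mk m n j F G := fun h => hE h.2.2
          have hH' : Hcl mk m n j F G := ⟨hm, hr, hE⟩
          simp only [Nn, rr, El, Hc, if_pos hm, if_neg hE', if_pos hH']
          omega
      · have hE' : ¬ Ecl mk m n j F G := fun h => hr h.2.1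
        have hH' : ¬ Hcl mk m n j F G := fun h => hr h.2.1
        simp only [Nn, rr, El, Hc, if_pos hm, if_neg hE', if_neg hH']
        omega
    · have hE' : ¬ Ecl mk m n j F G := fun h => hm h.1
      have hH' : ¬ Hcl mk m n j F G := fun h => hm h.1
      simp only [Nn, rr, El, Hc, if_neg hm, if_neg hE', if_neg hH']
      omega

/-- T2 -/
lemma T2 (n : ℕ) (F : Fo) :
    Q n * Hc mk m n F + m n * (ox mk n F + oy mk n F) ≤ m n * (cx F + cy F) := by
  have hm2 := H.m2 n
  induction F with
  | leaf j => simp [ox, oy, Hc, cx, cy]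
  | join F G h1 h2 => simp only [ox, oy, Hc, cx, cy]; linarith
  | root j F G h1 h2 =>
    by_cases hm : Mk mk n j F G
    · by_cases hH : Hcl mk m n j F G
      · simp only [ox, oy, Hc, cx, cy, if_pos hm, if_pos hH]
        have hc := (cls H n j F G hm hH.2.1).resolve_left hH.2.2
        have k1 := kx_add_ky (mk := mk) n F
        have k2 := kx_add_ky (mk := mk) n G
        have e3 := ex_add_ey j
        have hr := hH.2.1
        have h3 : kx mk n F + kx mk n G - ex j + (ky mk n F + ky mk n G - ey j) ≤
            ox mk n F + oy mk n F + (ox mk n G + oy mk n G) := by linarith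
        have h4 := mul_le_mul_of_nonneg_left h3 (by linarith : 0 ≤ m n)
        linarith
      · simp only [ox, oy, Hc, cx, cy, if_pos hm, if_neg hH]
        have o1 := ox_nonneg (mk := mk) n F
        have o2 := ox_nonneg (mk := mk) n G
        have o3 := oy_nonneg (mk := mk) n F
        have o4 := oy_nonneg (mk := mk) n G
        nlinarith
    · have hH : ¬ Hcl mk m n j F G := fun h => hm h.1
      simp only [ox, oy, Hc, cx, cy, if_neg hm, if_neg hH]
      linarith

/-- T3a -/
lemma T3a {n' n : ℕ} (hn : n' ≤ n) (F : Fo) : Eo mk m n' n F + oy mk n' F ≤ oy mk n F := by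
  induction F with
  | leaf j => simp [Eo, oy]
  | join F G h1 h2 => simp only [Eo, oy]; linarith
  | root j F G h1 h2 =>
    by_cases hm : Mk mk n j F G
    · have hm' : Mk mk n' j F G := H.nest' hn hm
      simp only [Eo, oy, if_pos hm, if_pos hm']
      simp
    · by_cases hm' : Mk mk n' j F G
      · simp only [Eo, oy, if_neg hm, if_pos hm']
        by_cases hE : Ecl mk m n' j F G
        · rw [if_pos hE]
          obtain ⟨_, hr, a, ha, _, hy⟩ := hE
          have e := ey_nonneg j
          have k1 := kx_add_ky (mk := mk) n' F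
          have k2 := kx_add_ky (mk := mk) n' G
          have o5 := ox_le_kx (mk := mk) n' F
          have o6 := ox_le_kx (mk := mk) n' G
          linarith
        · rw [if_neg hE]
          have o3 := oy_nonneg (mk := mk) n' F
          have o4 := oy_nonneg (mk := mk) n' G
          linarith
      · have hE : ¬ Ecl mk m n' j F G := fun h => hm' h.1
        simp only [Eo, oy, if_neg hm, if_neg hm', if_neg hE]
        linarith

omit H in
variable (mk m) in
noncomputable def YY (n : ℕ) (F : Fo) : ℤ := ∑ i ∈ range n, m i * Eo mk m i n F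

omit H in
variable (mk m) in
/-- total of closings of levels `< n` at the given root -/
noncomputable def clo (n : ℕ) (j : Bool) (F G : Fo) : ℤ :=
  ∑ i ∈ range n, m i * (if Ecl mk m i j F G then 1 else 0)

lemma YY_le (n : ℕ) (F : Fo) : 4 * YY mk m n F ≤ m n * oy mk n F := by
  have h1 : YY mk m n F ≤ ∑ i ∈ range n, m i * oy mk n F := by
    unfold YY
    apply sum_le_sum
    intro i hi
    have h2 := T3a H (Finset.mem_range.mp hi).le F
    have h3 := oy_nonneg (mk := mk) i F
    have h4 := H.m2 i
    exact mul_le_mul_of_nonneg_left (by linarith) (by linarith)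
  rw [← sum_mul] at h1
  have h5 := H.msum n
  have h6 := oy_nonneg (mk := mk) n F
  nlinarith

lemma clo_le (n : ℕ) (j : Bool) (F G : Fo) : 4 * clo mk m n j F G ≤ m n := by
  have h1 : clo mk m n j F G ≤ ∑ i ∈ range n, m i := by
    unfold clo
    apply sum_le_sum
    intro i hi
    have h4 := H.m2 i
    split_ifs <;> linarith
  linarith [H.msum n]

omit H in
lemma clo_succ (n : ℕ) (j : Bool) (F G : Fo) :
    clo mk m (n + 1) j F G = clo mk m n j F G + m n * (if Ecl mk m n j F G then 1 else 0) := by
  unfold clo; rw [sum_range_succ]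

omit H in
lemma clo_zero (j : Bool) (F G : Fo) : clo mk m 0 j F G = 0 := by simp [clo]

omit H in
lemma YY_leaf (n : ℕ) (j : Bool) : YY mk m n (.leaf j) = 0 := by simp [YY, Eo]

omit H in
lemma YY_join (n : ℕ) (F G : Fo) : YY mk m n (.join F G) = YY mk m n F + YY mk m n G := by
  unfold YY
  rw [← sum_add_distrib]
  apply sum_congr rfl
  intro i _
  simp only [Eo]; ring

omit H in
lemma YY_root_pos (n : ℕ) (j : Bool) (F G : Fo) (hm : Mk mk n j F G) :
    YY mk m n (.root j F G) = 0 := by
  unfold YY
  apply sum_eq_zero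
  intro i _
  simp only [Eo, if_pos hm]; ring

omit H in
lemma YY_root_neg (n : ℕ) (j : Bool) (F G : Fo) (hm : ¬ Mk mk n j F G) :
    YY mk m n (.root j F G) = YY mk m n F + YY mk m n G + clo mk m n j F G := by
  unfold YY clo
  rw [← sum_add_distrib, ← sum_add_distrib]
  apply sum_congr rfl
  intro i _
  simp only [Eo, if_neg hm]; ring

/-- the key estimate at a root marked at level `n` -/
lemma club (j : Bool) (F G : Fo)
    (hF : ∀ n, YY mk m (n + 1) F + 4 * ox mk n F ≤ YY mk m n F + 4 * ox mk (n + 1) F)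
    (hG : ∀ n, YY mk m (n + 1) G + 4 * ox mk n G ≤ YY mk m n G + 4 * ox mk (n + 1) G) :
    ∀ n, Mk mk n j F G →
      YY mk m n F + YY mk m n G + clo mk m (n + 1) j F G ≤ 4 * (ox mk n F + ox mk n G) := by
  have key : ∀ n, Ecl mk m n j F G →
      YY mk m n F + YY mk m n G + clo mk m (n + 1) j F G ≤ 4 * (ox mk n F + ox mk n G) := by
    intro n hE
    rw [clo_succ, if_pos hE]
    obtain ⟨_, hr, a, ha, hx, hy⟩ := hE
    have h1 := YY_le H n F
    have h2 := YY_le H n G
    have h3 := clo_le H n j F G
    have e1 := ex_nonneg j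
    have e2 := ey_le j
    have k1 := kx_add_ky (mk := mk) n F
    have k2 := kx_add_ky (mk := mk) n G
    have o5 := ox_le_kx (mk := mk) n F
    have o6 := ox_le_kx (mk := mk) n G
    have o7 := oy_le_ky (mk := mk) n F
    have o8 := oy_le_ky (mk := mk) n G
    have hox : a * m n - 1 ≤ ox mk n F + ox mk n G := by linarith
    have hoy : oy mk n F + oy mk n G ≤ 2 * a + 1 := by linarith
    have hm2 := H.m2 n
    have h4 := mul_le_mul_of_nonneg_left hoy (by linarith : 0 ≤ m n)
    have h5 : m n ≤ a * m n := by nlinarith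
    nlinarith
  intro n
  induction n with
  | zero =>
    intro hm
    by_cases hE : Ecl mk m 0 j F G
    · exact key 0 hE
    · rw [clo_succ, if_neg hE, clo_zero]
      have o1 := ox_nonneg (mk := mk) 0 F
      have o2 := ox_nonneg (mk := mk) 0 G
      simp [YY]
      linarith
  | succ n ih =>
    intro hm
    by_cases hE : Ecl mk m (n + 1) j F G
    · exact key (n + 1) hE
    · rw [clo_succ, if_neg hE]
      have h1 := ih (H.nest _ _ _ _ hm)
      have h2 := hF n
      have h3 := hG n
      linarith

/-- T3b -/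
lemma T3b (F : Fo) : ∀ n, YY mk m (n + 1) F + 4 * ox mk n F ≤ YY mk m n F + 4 * ox mk (n + 1) F := by
  induction F with
  | leaf j => intro n; simp [YY_leaf, ox]
  | join F G h1 h2 =>
    intro n
    have := h1 n
    have := h2 n
    simp only [YY_join, ox]; linarith
  | root j F G h1 h2 =>
    intro n
    have h3 := h1 n
    have h4 := h2 n
    by_cases hm : Mk mk (n + 1) j F G
    · have hm' : Mk mk n j F G := H.nest _ _ _ _ hm
      rw [YY_root_pos _ _ _ _ hm, YY_root_pos _ _ _ _ hm']
      simp only [ox, if_pos hm, if_pos hm']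
      simp
    · by_cases hm' : Mk mk n j F G
      · rw [YY_root_neg _ _ _ _ hm, YY_root_pos _ _ _ _ hm']
        simp only [ox, if_neg hm, if_pos hm']
        have := club H j F G h1 h2 n hm'
        linarith
      · rw [YY_root_neg _ _ _ _ hm, YY_root_neg _ _ _ _ hm', clo_succ]
        have hE : ¬ Ecl mk m n j F G := fun h => hm' h.1
        simp only [ox, if_neg hm, if_neg hm', if_neg hE]
        linarith

/-- the total number of first-kind closings, weighted -/
lemma YY_bound (N : ℕ) (F : Fo) : YY mk m N F ≤ 4 * ox mk N F := by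
  have h : ∀ N, YY mk m N F + 4 * ox mk 0 F ≤ 4 * ox mk N F := by
    intro N
    induction N with
    | zero => simp [YY]
    | succ N ih => linarith [T3b H F N]
  linarith [h N, ox_nonneg (mk := mk) 0 F]

omit H in
lemma ox_top (N : ℕ) (hN : ∀ x y j, ¬ mk N x y j) (F : Fo) : ox mk N F = cx F := by
  induction F with
  | leaf j => rfl
  | join F G h1 h2 => simp only [ox, cx, h1, h2]
  | root j F G h1 h2 => simp only [ox, cx, h1, h2, Mk, if_neg (hN _ _ _)]

omit H in
lemma Eo_top (n N : ℕ) (hN : ∀ x y j, ¬ mk N x y j) (F : Fo) : Eo mk m n N F = El mk m n F := by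
  induction F with
  | leaf j => rfl
  | join F G h1 h2 => simp only [Eo, El, h1, h2]
  | root j F G h1 h2 => simp only [Eo, El, h1, h2, Mk, if_neg (hN _ _ _)]

/-- Weighted number of marked nodes. -/
theorem total_marks (N : ℕ) (hN : ∀ x y j, ¬ mk N x y j) (F : Fo) :
    ∑ n ∈ range N, m n * Nn mk n F ≤ 8 * cx F + 2 * ∑ n ∈ range N, m n * Hc mk m n F := by
  have h1 := YY_bound H N F
  rw [ox_top N hN] at h1
  have h2 : YY mk m N F = ∑ n ∈ range N, m n * El mk m n F := by
    unfold YY
    apply sum_congr rfl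
    intro i _
    rw [Eo_top i N hN]
  have h3 : ∑ n ∈ range N, m n * Nn mk n F ≤
      ∑ n ∈ range N, (2 * (m n * El mk m n F) + 2 * (m n * Hc mk m n F)) := by
    apply sum_le_sum
    intro i _
    have h4 := T1 (m := m) (mk := mk) i F
    have h5 := rr_nonneg (mk := mk) i F
    have h6 := H.m2 i
    have h7 : Nn mk i F ≤ 2 * El mk m i F + 2 * Hc mk m i F := by linarith
    have h8 := mul_le_mul_of_nonneg_left h7 (by linarith : 0 ≤ m i)
    linarith
  rw [sum_add_distrib, ← mul_sum, ← mul_sum, ← h2] at h3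
  linarith

end

end Pool.Agent.Helper41.Br
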