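import Mathlib
import Pool.Agent.Helper41.BrTree

set_option autoImplicit false

/-!
Arithmetic part for MP_0ef3a5_an: the two rotation numbers.
-/

open Finset

namespace Pool.Agent.Helper41.Br

def mQ : ℕ → ℕ × ℕ
  | 0 => (65, 1024)
  | n + 1 => ((mQ n).1 + (mQ n).2, 2 ^ (mQ n).1 * (mQ n).2)

def mm (n : ℕ) : ℕ := (mQ n).1
def QQ (n : ℕ) : ℕ := (mQ n).2

lemma mm_zero : mm 0 = 65 := rfl
lemma QQ_zero : QQ 0 = 1024 := rfl
lemma mm_succ (n : ℕ) : mm (n + 1) = mm n + QQ n := rfl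
lemma QQ_succ (n : ℕ) : QQ (n + 1) = 2 ^ mm n * QQ n := rfl

lemma QQ_pow (n : ℕ) : ∃ e, QQ n = 2 ^ (e + 1) := by
  induction n with
  | zero => exact ⟨9, rfl⟩
  | succ n ih =>
    obtain ⟨e, he⟩ := ih
    exact ⟨mm n + e, by rw [QQ_succ, he, ← pow_add, add_assoc]⟩

lemma mm_odd (n : ℕ) : Odd (mm n) := by
  induction n with
  | zero => exact ⟨32, rfl⟩
  | succ n ih =>
    obtain ⟨e, he⟩ := QQ_pow n
    rw [mm_succ, he, pow_succ]
    exact ih.add_even (by simp)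

lemma QQ_pos (n : ℕ) : 0 < QQ n := by
  obtain ⟨e, he⟩ := QQ_pow n
  rw [he]; positivity

lemma mm_ge (n : ℕ) : 65 + n ≤ mm n := by
  induction n with
  | zero => exact le_refl _
  | succ n ih => rw [mm_succ]; have := QQ_pos n; omega

lemma QQ_le_succ (n : ℕ) : QQ n ≤ QQ (n + 1) := by
  rw [QQ_succ]
  exact Nat.le_mul_of_pos_left _ (by positivity)

lemma QQ_ge (n : ℕ) : 1024 ≤ QQ n := by
  induction n with
  | zero => exact le_refl _
  | succ n ih => exact ih.trans (QQ_le_succ n)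

lemma mm_le_QQ (n : ℕ) : 4 * mm n ≤ QQ n := by
  induction n with
  | zero => decide
  | succ n ih =>
    rw [mm_succ, QQ_succ]
    have h1 := mm_ge n
    have h2 : 2 ^ 3 ≤ 2 ^ mm n := Nat.pow_le_pow_right (by norm_num) (by omega)
    have h3 : 2 ^ 3 * QQ n ≤ 2 ^ mm n * QQ n := Nat.mul_le_mul_right _ h2
    omega

lemma QQ4_le (n : ℕ) : QQ n ^ 4 ≤ 2 ^ mm n := by
  induction n with
  | zero => norm_num [mm_zero, QQ_zero]
  | succ n ih =>
    rw [mm_succ, QQ_succ, mul_pow, pow_add]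
    have h1 := mm_le_QQ n
    calc (2 ^ mm n) ^ 4 * QQ n ^ 4 ≤ (2 ^ mm n) ^ 4 * 2 ^ mm n := Nat.mul_le_mul_left _ ih
      _ = 2 ^ mm n * 2 ^ (4 * mm n) := by rw [← pow_mul]; ring
      _ ≤ 2 ^ mm n * 2 ^ QQ n := Nat.mul_le_mul_left _ (Nat.pow_le_pow_right (by norm_num) h1)

lemma two_pow_mm_sq (n : ℕ) : 2 ^ n * mm n ^ 2 ≤ 8 * QQ n := by
  cases n with
  | zero => norm_num [mm_zero, QQ_zero]
  | succ n =>
    rw [mm_succ, QQ_succ]
    have h1 := mm_le_QQ n
    have h2 : (mm n + QQ n) ^ 2 ≤ (2 * QQ n) ^ 2 := Nat.pow_le_pow_left (by omega) 2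
    have h3 := QQ4_le n
    have h4 : 2 ^ n ≤ QQ n := by
      clear h1 h2 h3
      induction n with
      | zero => norm_num [QQ_zero]
      | succ n ih =>
        rw [pow_succ, QQ_succ]
        have h5 : 2 ^ 1 ≤ 2 ^ mm n := Nat.pow_le_pow_right (by norm_num) (by have := mm_ge n; omega)
        calc 2 ^ n * 2 ≤ QQ n * 2 ^ mm n := Nat.mul_le_mul ih (by simpa using h5)
          _ = _ := by ring
    have h6 := QQ_ge n
    calc 2 ^ (n + 1) * (mm n + QQ n) ^ 2 ≤ 2 ^ (n + 1) * (2 * QQ n) ^ 2 := Nat.mul_le_mul_left _ h2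
      _ = 8 * (2 ^ n * QQ n * QQ n) := by ring
      _ ≤ 8 * (QQ n * QQ n * QQ n) := by gcongr
      _ ≤ 8 * (2 ^ mm n * QQ n) := by
        gcongr
        calc QQ n * QQ n ≤ QQ n * QQ n * (QQ n * QQ n) := Nat.le_mul_of_pos_right _ (by positivity)
          _ = QQ n ^ 4 := by ring
          _ ≤ _ := h3

lemma mm_sum (n : ℕ) : 4 * ∑ i ∈ range n, mm i ≤ mm n := by
  induction n with
  | zero => simp
  | succ n ih =>
    rw [sum_range_succ, mm_succ]
    have := mm_le_QQ n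
    omega

/-! ### The rotation numbers -/

noncomputable def gg (n : ℕ) : ℝ := (mm n : ℝ) / QQ n

lemma QQ_pos' (n : ℕ) : (0 : ℝ) < QQ n := by exact_mod_cast QQ_pos n

lemma mm_pos' (n : ℕ) : (65 : ℝ) ≤ mm n := by
  have := mm_ge n
  have h : 65 ≤ mm n := by omega
  exact_mod_cast h

lemma gg_pos (n : ℕ) : 0 ≤ gg n := by
  have := mm_pos' n
  have := QQ_pos' n
  unfold gg; positivity

lemma gg_succ (n : ℕ) : gg (n + 1) ≤ (5 / 4) / 2 ^ mm n := by
  unfold gg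
  have h1 : (4 : ℝ) * mm n ≤ QQ n := by exact_mod_cast mm_le_QQ n
  have h2 := QQ_pos' n
  rw [mm_succ, QQ_succ]
  push_cast
  rw [div_le_div_iff₀ (by positivity) (by positivity)]
  have h3 : (0 : ℝ) < 2 ^ mm n := by positivity
  nlinarith

lemma gg_half (n : ℕ) : gg (n + 1) ≤ gg n / 2 := by
  refine (gg_succ n).trans ?_
  unfold gg
  have h1 := mm_pos' n
  have h2 := QQ_pos' n
  have h3 : (QQ n : ℝ) ^ 4 ≤ 2 ^ mm n := by exact_mod_cast QQ4_le n
  have h4 : (1024 : ℝ) ≤ QQ n := by exact_mod_cast QQ_ge n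
  have h5 : (QQ n : ℝ) ≤ (QQ n : ℝ) ^ 4 := le_self_pow₀ (by linarith) (by norm_num)
  rw [show (5 / 4 : ℝ) / 2 ^ mm n = 5 / (4 * 2 ^ mm n) by rw [div_div],
    show (mm n : ℝ) / QQ n / 2 = mm n / (QQ n * 2) by rw [div_div],
    div_le_div_iff₀ (by positivity) (by positivity)]
  nlinarith

lemma gg_tail (n i : ℕ) : gg (i + (n + 1)) ≤ (5 / 4) / 2 ^ mm n * (1 / 2) ^ i := by
  induction i with
  | zero => simpa using gg_succ n
  | succ i ih =>
    have := gg_half (i + (n + 1))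
    rw [show i + 1 + (n + 1) = i + (n + 1) + 1 by ring, pow_succ]
    linarith

lemma gg_summable : Summable gg := by
  refine (summable_nat_add_iff 1).mp ?_
  refine Summable.of_nonneg_of_le (fun i => gg_pos _) (fun i => gg_tail 0 i) ?_
  exact (summable_geometric_of_lt_one (by norm_num) (by norm_num)).mul_left _

lemma gg_tail_sum (n : ℕ) : ∑' i, gg (i + (n + 1)) ≤ (5 / 2) / 2 ^ mm n := by
  have h1 : Summable (fun i : ℕ => (5 / 4 : ℝ) / 2 ^ mm n * (1 / 2) ^ i) :=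
    (summable_geometric_of_lt_one (by norm_num) (by norm_num)).mul_left _
  have h2 := Summable.tsum_le_tsum (gg_tail n) ((summable_nat_add_iff (n + 1)).mpr gg_summable) h1
  rw [tsum_mul_left, tsum_geometric_two] at h2
  calc _ ≤ _ := h2
    _ = _ := by ring

/-- the terms of the series of `d1 * α + d2 * β` -/
noncomputable def tm (d1 d2 : ℤ) (n : ℕ) : ℝ := (2 * (d1 : ℝ) - d2 * mm n) / (2 * QQ n)

lemma tm_le (d1 d2 : ℤ) (n : ℕ) : |tm d1 d2 n| ≤ (|(d1 : ℝ)| + |(d2 : ℝ)|) * gg n := by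
  unfold tm gg
  have h1 := mm_pos' n
  have h2 := QQ_pos' n
  rw [abs_div, abs_of_pos (by positivity : (0 : ℝ) < 2 * QQ n), ← mul_div_assoc,
    div_le_div_iff₀ (by positivity) (by positivity)]
  have h3 : |2 * (d1 : ℝ) - d2 * mm n| ≤ 2 * |(d1 : ℝ)| + |(d2 : ℝ)| * mm n := by
    refine (abs_sub _ _).trans ?_
    rw [abs_mul, abs_mul, abs_of_pos (by norm_num : (0 : ℝ) < 2), abs_of_pos (by linarith : (0:ℝ) < mm n)]
  have h4 := abs_nonneg (d1 : ℝ)
  have h5 := abs_nonneg (d2 : ℝ)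
  have h6 : 2 * |(d1 : ℝ)| + |(d2 : ℝ)| * mm n ≤ 2 * ((|(d1 : ℝ)| + |(d2 : ℝ)|) * mm n) := by nlinarith
  calc |2 * (d1 : ℝ) - d2 * mm n| * QQ n ≤ (2 * ((|(d1 : ℝ)| + |(d2 : ℝ)|) * mm n)) * QQ n :=
        mul_le_mul_of_nonneg_right (h3.trans h6) h2.le
    _ = _ := by ring

lemma tm_summable (d1 d2 : ℤ) : Summable (tm d1 d2) :=
  Summable.of_norm_bounded (gg_summable.mul_left _) (tm_le d1 d2)

noncomputable def al : ℝ := ∑' n, tm 1 0 n
noncomputable def be : ℝ := ∑' n, tm 0 1 n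

/-- the rotation number of the frequency vector `(d1, d2)` -/
noncomputable def th (d1 d2 : ℤ) : ℝ := d1 * al + d2 * be

lemma th_eq (d1 d2 : ℤ) : th d1 d2 = ∑' n, tm d1 d2 n := by
  unfold th al be
  rw [← tsum_mul_left, ← tsum_mul_left, ← Summable.tsum_add ((tm_summable 1 0).mul_left _)
    ((tm_summable 0 1).mul_left _)]
  apply tsum_congr
  intro n
  unfold tm
  push_cast
  ring

lemma th_tail (d1 d2 : ℤ) (n : ℕ) :
    |th d1 d2 - ∑ i ∈ range (n + 1), tm d1 d2 i| ≤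
      (|(d1 : ℝ)| + |(d2 : ℝ)|) * ((5 / 2) / 2 ^ mm n) := by
  rw [th_eq, ← (tm_summable d1 d2).sum_add_tsum_nat_add (n + 1), add_sub_cancel_left]
  have h1 : Summable (fun i => (|(d1 : ℝ)| + |(d2 : ℝ)|) * gg (i + (n + 1))) :=
    ((summable_nat_add_iff (n + 1)).mpr gg_summable).mul_left _
  have h2 : |∑' i, tm d1 d2 (i + (n + 1))| ≤ ∑' i, (|(d1 : ℝ)| + |(d2 : ℝ)|) * gg (i + (n + 1)) := by
    rw [← Real.norm_eq_abs]
    exact tsum_of_norm_bounded h1.hasSum (fun i => tm_le d1 d2 _)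
  refine h2.trans ?_
  rw [tsum_mul_left]
  exact mul_le_mul_of_nonneg_left (gg_tail_sum n) (by positivity)

def PP : ℕ → ℤ
  | 0 => 1
  | n + 1 => 2 ^ mm n * PP n + 1

def UU : ℕ → ℤ
  | 0 => 0
  | n + 1 => UU n + PP n

lemma PP_odd (n : ℕ) : Odd (PP n) := by
  cases n with
  | zero => exact odd_one
  | succ n =>
    unfold PP
    have h : mm n ≠ 0 := by have := mm_ge n; omega
    exact ((Int.even_pow.mpr ⟨even_two, h⟩).mul_right _).add_odd odd_one

/-- numerators of the partial sums -/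
def AA (d1 d2 : ℤ) (n : ℕ) : ℤ := (2 * d1 - d2 * mm n) * PP n + d2 * QQ n * UU n

lemma sum_tm (d1 d2 : ℤ) (n : ℕ) :
    ∑ i ∈ range (n + 1), tm d1 d2 i = (AA d1 d2 n : ℝ) / (2 * QQ n) := by
  induction n with
  | zero => simp [tm, AA, PP, UU]
  | succ n ih =>
    rw [sum_range_succ, ih]
    unfold tm AA
    have h1 := QQ_pos' n
    rw [mm_succ, QQ_succ, PP, UU]
    push_cast
    field_simp
    ring

/-- Classification of the near resonances of level `n`. -/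
lemma classify (n : ℕ) (d1 d2 : ℤ) (h1 : -1 ≤ d1) (h2 : -1 ≤ d2) (h3 : 1 ≤ d1 + d2)
    (hz : ∃ z : ℤ, |th d1 d2 - z| < 1 / (4 * QQ n)) :
    (∃ a : ℤ, 1 ≤ a ∧ d1 = a * mm n ∧ d2 = 2 * a) ∨ (QQ n : ℤ) ≤ mm n * (d1 + d2) := by
  have hQ := QQ_pos' n
  have hQ4 := QQ4_le n
  have hQg := QQ_ge n
  have hmg := mm_ge n
  have hmQ := mm_le_QQ n
  by_cases hD : (2 : ℤ) ^ mm n ≤ 30 * QQ n * (d1 + d2)
  · right
    have e1 : ((QQ n : ℤ)) ^ 4 ≤ 2 ^ mm n := by exact_mod_cast hQ4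
    have e2 : (1024 : ℤ) ≤ QQ n := by exact_mod_cast hQg
    have e3 : (65 : ℤ) ≤ mm n := by
      have : 65 ≤ mm n := by omega
      exact_mod_cast this
    have e4 : (QQ n : ℤ) * (QQ n) ^ 3 ≤ QQ n * (30 * (d1 + d2)) := by
      calc (QQ n : ℤ) * (QQ n) ^ 3 = (QQ n : ℤ) ^ 4 := by ring
        _ ≤ 30 * QQ n * (d1 + d2) := e1.trans hD
        _ = _ := by ring
    have e5 : ((QQ n : ℤ)) ^ 3 ≤ 30 * (d1 + d2) := le_of_mul_le_mul_left e4 (by linarith)
    have e6 : 30 * (QQ n : ℤ) ≤ (QQ n : ℤ) ^ 3 := by nlinarith [sq_nonneg ((QQ n : ℤ))]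
    have e7 : (QQ n : ℤ) ≤ d1 + d2 := by linarith
    nlinarith
  · push Not at hD
    obtain ⟨z, hz⟩ := hz
    have e1 := th_tail d1 d2 n
    rw [sum_tm] at e1
    have e2 : |(d1 : ℝ)| + |(d2 : ℝ)| ≤ 3 * (d1 + d2) := by
      have f1 : |d1| ≤ d1 + 2 := by rw [abs_le]; constructor <;> linarith
      have f2 : |d2| ≤ d2 + 2 := by rw [abs_le]; constructor <;> linarith
      have f3 : |d1| + |d2| ≤ 3 * (d1 + d2) := by
        rcases abs_cases d1 with h | h <;> rcases abs_cases d2 with h' | h' <;> linarith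
      exact_mod_cast f3
    have e3 : (30 : ℝ) * QQ n * (d1 + d2) < 2 ^ mm n := by exact_mod_cast hD
    have e4 : (|(d1 : ℝ)| + |(d2 : ℝ)|) * ((5 / 2) / 2 ^ mm n) < 1 / (4 * QQ n) := by
      have h2 : (0 : ℝ) < 2 ^ mm n := by positivity
      rw [← mul_div_assoc, div_lt_div_iff₀ h2 (by positivity)]
      nlinarith
    have e5 : |(AA d1 d2 n : ℝ) / (2 * QQ n) - z| < 1 / (2 * QQ n) := by
      have f1 : (AA d1 d2 n : ℝ) / (2 * QQ n) - z = (th d1 d2 - z) - (th d1 d2 - (AA d1 d2 n : ℝ) / (2 * QQ n)) := by ring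
      rw [f1]
      refine (abs_sub _ _).trans_lt ?_
      have f2 : (1 : ℝ) / (2 * QQ n) = 1 / (4 * QQ n) + 1 / (4 * QQ n) := by field_simp; norm_num
      rw [f2]
      linarith
    have e6 : AA d1 d2 n = 2 * QQ n * z := by
      have f1 : |(AA d1 d2 n : ℝ) - 2 * QQ n * z| < 1 := by
        have f2 : (AA d1 d2 n : ℝ) - 2 * QQ n * z = ((AA d1 d2 n : ℝ) / (2 * QQ n) - z) * (2 * QQ n) := by
          field_simp
        rw [f2, abs_mul, abs_of_pos (by positivity : (0 : ℝ) < 2 * QQ n)]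
        calc _ < 1 / (2 * (QQ n : ℝ)) * (2 * QQ n) := mul_lt_mul_of_pos_right e5 (by positivity)
          _ = 1 := by field_simp
      have f3 : |AA d1 d2 n - 2 * QQ n * z| < 1 := by exact_mod_cast f1
      have := Int.abs_lt_one_iff.mp f3
      linarith
    obtain ⟨e, he⟩ := QQ_pow n
    have hcop : IsCoprime ((QQ n : ℤ)) (PP n) := by
      rw [he]; push_cast
      exact IsCoprime.pow_left (Int.isCoprime_iff_gcd_eq_one.mpr
        (by
          have := PP_odd n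
          rw [Int.gcd_comm]
          exact Int.isCoprime_iff_gcd_eq_one.mp (Int.isCoprime_two_right.mpr this) ))
    have hcop2 : IsCoprime (2 * (QQ n : ℤ)) (PP n) :=
      IsCoprime.mul_left (Int.isCoprime_two_left.mpr (PP_odd n)) hcop
    have d1' : (QQ n : ℤ) ∣ (2 * d1 - d2 * mm n) := by
      have : (QQ n : ℤ) ∣ (2 * d1 - d2 * mm n) * PP n := by
        refine ⟨2 * z - d2 * UU n, ?_⟩
        unfold AA at e6
        linarith
      exact hcop.dvd_of_dvd_mul_right this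
    have hd2 : (2 : ℤ) ∣ d2 := by
      have g1 : (2 : ℤ) ∣ QQ n := by rw [he]; push_cast; exact dvd_pow_self _ (by omega)
      have g2 : (2 : ℤ) ∣ d2 * mm n := by
        have := g1.trans d1'
        have g3 : d2 * (mm n : ℤ) = 2 * d1 - (2 * d1 - d2 * mm n) := by ring
        rw [g3]
        exact dvd_sub (dvd_mul_right _ _) this
      have g4 : IsCoprime (2 : ℤ) (mm n) := Int.isCoprime_two_left.mpr (by exact_mod_cast mm_odd n)
      exact g4.dvd_of_dvd_mul_right g2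
    obtain ⟨s, hs⟩ := hd2
    have d3 : 2 * (QQ n : ℤ) ∣ (2 * d1 - d2 * mm n) := by
      have : 2 * (QQ n : ℤ) ∣ (2 * d1 - d2 * mm n) * PP n := by
        refine ⟨z - s * UU n, ?_⟩
        unfold AA at e6
        rw [hs] at e6 ⊢
        linarith
      exact hcop2.dvd_of_dvd_mul_right this
    obtain ⟨u, hu⟩ := d3
    have hd1 : d1 = s * mm n + QQ n * u := by rw [hs] at hu; linarith
    have hs0 : 0 ≤ s := by omega
    have e7 : (65 : ℤ) ≤ mm n := by
      have : 65 ≤ mm n := by omega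
      exact_mod_cast this
    have e8 : 4 * (mm n : ℤ) ≤ QQ n := by exact_mod_cast hmQ
    rcases lt_trichotomy u 0 with h | h | h
    · right
      have g1 : (QQ n : ℤ) * u ≤ -QQ n := by nlinarith
      have g2 : (QQ n : ℤ) - 1 ≤ s * mm n := by linarith
      have g3 : -1 + 2 * s ≤ d1 + d2 := by linarith
      have g4 : (mm n : ℤ) * (-1 + 2 * s) ≤ mm n * (d1 + d2) :=
        mul_le_mul_of_nonneg_left g3 (by linarith)
      nlinarith
    · left
      subst h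
      refine ⟨s, ?_, by linarith, hs⟩
      by_contra hc
      have : s = 0 := by omega
      subst this
      simp at hd1 hs
      omega
    · right
      have g1 : (QQ n : ℤ) ≤ QQ n * u := by nlinarith
      have g2 : 0 ≤ s * (mm n : ℤ) := by positivity
      have g3 : (QQ n : ℤ) ≤ d1 + d2 := by linarith
      nlinarith

/-- the marks -/
def mk (n : ℕ) (x y : ℤ) (j : Bool) : Prop :=
  ∃ z : ℤ, |th (x - ex j) (y - ey j) - z| < 1 / (8 * QQ n)

/-- truncated marks -/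
def mkN (N n : ℕ) (x y : ℤ) (j : Bool) : Prop := n < N ∧ mk n x y j

lemma mk_anti {n' n : ℕ} (h : n' ≤ n) {x y : ℤ} {j : Bool} (hm : mk n x y j) : mk n' x y j := by
  have hQ : QQ n' ≤ QQ n := monotone_nat_of_le_succ QQ_le_succ h
  obtain ⟨z, hz⟩ := hm
  refine ⟨z, hz.trans_le ?_⟩
  have h1 := QQ_pos' n'
  apply one_div_le_one_div_of_le (by positivity)
  have : (QQ n' : ℝ) ≤ QQ n := by exact_mod_cast hQ
  linarith

lemma hyp (N : ℕ) : Hyp (mkN N) (fun n => (mm n : ℤ)) (fun n => (QQ n : ℤ)) where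
  nest := fun n x y j h => ⟨by have := h.1; omega, mk_anti (by omega) h.2⟩
  cls1 := by
    intro n x y j h h1 h2 h3
    obtain ⟨_, z, hz⟩ := h
    refine classify n _ _ h1 h2 h3 ⟨z, hz.trans_le ?_⟩
    have h1 := QQ_pos' n
    apply one_div_le_one_div_of_le (by positivity)
    linarith
  cls2 := by
    intro n x y j x' y' j' d e h h' hd he h1 h2 h3
    obtain ⟨_, z, hz⟩ := h
    obtain ⟨_, z', hz'⟩ := h'
    refine classify n _ _ h1 h2 h3 ⟨z - z', ?_⟩
    have e1 : th d e - ((z - z' : ℤ) : ℝ) =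
        (th (x - ex j) (y - ey j) - z) - (th (x' - ex j') (y' - ey j') - z') := by
      rw [hd, he]; unfold th; push_cast; ring
    rw [e1]
    refine (abs_sub _ _).trans_lt ?_
    have h1 := QQ_pos' n
    have f2 : (1 : ℝ) / (4 * QQ n) = 1 / (8 * QQ n) + 1 / (8 * QQ n) := by field_simp; norm_num
    rw [f2]
    linarith
  m2 := by
    intro n
    have := mm_ge n
    have h : 2 ≤ mm n := by omega
    exact_mod_cast h
  msum := by
    intro n
    exact_mod_cast mm_sum n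

/-- no mark at a high level -/
lemma exists_not_mk (x y : ℤ) (j : Bool) (h1 : -1 ≤ x - ex j) (h2 : -1 ≤ y - ey j)
    (h3 : 1 ≤ (x - ex j) + (y - ey j)) : ∃ n, ¬ mk n x y j := by
  by_contra hc
  push Not at hc
  obtain ⟨S, hS⟩ := Int.eq_ofNat_of_zero_le (by linarith : 0 ≤ (x - ex j) + (y - ey j))
  have hm := (hyp (S + 1)).cls1 S x y j ⟨by omega, hc S⟩ h1 h2 h3
  have e0 := mm_ge S
  rcases hm with ⟨a, ha, e1, e2⟩ | hm
  · have e3 : (S : ℤ) + 65 ≤ mm S := by exact_mod_cast (by omega : S + 65 ≤ mm S)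
    have e4 : (S : ℤ) = a * mm S + 2 * a := by rw [← e1, ← e2, hS]
    nlinarith
  · rw [hS] at hm
    have e1 := two_pow_mm_sq S
    have e2 : QQ S ≤ mm S * S := by exact_mod_cast hm
    have e3 : S < 2 ^ S := Nat.lt_two_pow_self
    have e4 : 2 ^ S * mm S ^ 2 ≤ 8 * (mm S * S) := e1.trans (Nat.mul_le_mul_left _ e2)
    have e5 : mm S * (2 ^ S * mm S) ≤ mm S * (8 * S) := by
      calc mm S * (2 ^ S * mm S) = 2 ^ S * mm S ^ 2 := by ring
        _ ≤ _ := e4
        _ = _ := by ring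
    have e6 := Nat.le_of_mul_le_mul_left e5 (by omega)
    nlinarith

end Pool.Agent.Helper41.Br
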