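import Mathlib

set_option autoImplicit false

/-!
Formal part of the linearization theorem: a majorant criterion for the convergence of the
formal linearization, for MP_0ef3a5_an.
-/

open Finset
open scoped ENNReal

namespace Pool.Agent.Helper41.Br

variable {n : ℕ}

/-- `z ^ k` -/
noncomputable def mon (z : Fin n → ℂ) (k : Fin n →₀ ℕ) : ℂ := ∏ i, z i ^ k i

lemma mon_zero (z : Fin n → ℂ) : mon z 0 = 1 := by simp [mon]

lemma mon_add (z : Fin n → ℂ) (k l : Fin n →₀ ℕ) : mon z (k + l) = mon z k * mon z l := by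
  unfold mon
  rw [← prod_mul_distrib]
  apply prod_congr rfl
  intro i _
  rw [Finsupp.add_apply, pow_add]

lemma mon_single (z : Fin n → ℂ) (j : Fin n) : mon z (Finsupp.single j 1) = z j := by
  unfold mon
  rw [prod_eq_single j]
  · simp
  · intro b _ hb
    rw [Finsupp.single_eq_of_ne hb, pow_zero]
  · simp

lemma mon_mul (z w : Fin n → ℂ) (k : Fin n →₀ ℕ) : mon (fun i => z i * w i) k = mon z k * mon w k := by
  unfold mon
  rw [← prod_mul_distrib]
  apply prod_congr rfl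
  intro i _
  rw [mul_pow]

lemma norm_mon_le {z : Fin n → ℂ} {r : ℝ} (hz : ∀ i, ‖z i‖ ≤ r) (k : Fin n →₀ ℕ) :
    ‖mon z k‖ ≤ r ^ k.degree := by
  unfold mon
  rw [norm_prod, Finsupp.degree_eq_sum, ← prod_pow_eq_pow_sum]
  apply prod_le_prod
  · intro i _; positivity
  · intro i _
    rw [norm_pow]
    exact pow_le_pow_left₀ (norm_nonneg _) (hz i) _

/-- weighted `ℓ¹` norm -/
noncomputable def nrm (u : (Fin n →₀ ℕ) → ℝ≥0∞) (g : MvPowerSeries (Fin n) ℂ) : ℝ≥0∞ :=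
  ∑' k, ‖MvPowerSeries.coeff k g‖ₑ * u k

lemma tsum_antidiagonal (F : (Fin n →₀ ℕ) → (Fin n →₀ ℕ) → ℝ≥0∞) :
    ∑' k, ∑ x ∈ antidiagonal k, F x.1 x.2 = ∑' p, ∑' q, F p q := by
  rw [← ENNReal.tsum_prod,
    ← (Finset.HasAntidiagonal.sigmaAntidiagonalEquivProd (A := Fin n →₀ ℕ)).tsum_eq,
    ENNReal.tsum_sigma']
  apply tsum_congr
  intro k
  rw [← Finset.sum_finset_coe, ← tsum_fintype (L := .unconditional _)]
  rfl

lemma nrm_mul_le {u v : (Fin n →₀ ℕ) → ℝ≥0∞} {g h : MvPowerSeries (Fin n) ℂ}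
    (hu : ∀ p q, MvPowerSeries.coeff p g ≠ 0 → MvPowerSeries.coeff q h ≠ 0 →
      u (p + q) ≤ v p * v q) : nrm u (g * h) ≤ nrm v g * nrm v h := by
  unfold nrm
  calc ∑' k, ‖MvPowerSeries.coeff k (g * h)‖ₑ * u k
      ≤ ∑' k, ∑ x ∈ antidiagonal k, (‖MvPowerSeries.coeff x.1 g‖ₑ * v x.1) *
          (‖MvPowerSeries.coeff x.2 h‖ₑ * v x.2) := by
        apply ENNReal.tsum_le_tsum
        intro k
        rw [MvPowerSeries.coeff_mul]
        refine (mul_le_mul_left (enorm_sum_le _ _) _).trans ?_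
        rw [sum_mul]
        apply sum_le_sum
        intro x hx
        rw [HasAntidiagonal.mem_antidiagonal] at hx
        rw [enorm_mul]
        by_cases h1 : MvPowerSeries.coeff x.1 g = 0
        · simp [h1]
        · by_cases h2 : MvPowerSeries.coeff x.2 h = 0
          · simp [h2]
          · have := hu x.1 x.2 h1 h2
            rw [hx] at this
            calc ‖MvPowerSeries.coeff x.1 g‖ₑ * ‖MvPowerSeries.coeff x.2 h‖ₑ * u k
                ≤ ‖MvPowerSeries.coeff x.1 g‖ₑ * ‖MvPowerSeries.coeff x.2 h‖ₑ * (v x.1 * v x.2) := by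
                  gcongr
              _ = _ := by ring
    _ = ∑' p, ∑' q, (‖MvPowerSeries.coeff p g‖ₑ * v p) * (‖MvPowerSeries.coeff q h‖ₑ * v q) :=
        tsum_antidiagonal (fun p q => (‖MvPowerSeries.coeff p g‖ₑ * v p) *
          (‖MvPowerSeries.coeff q h‖ₑ * v q))
    _ = _ := by
        simp_rw [ENNReal.tsum_mul_left]
        rw [ENNReal.tsum_mul_right]

lemma nrm_one_le {u : (Fin n →₀ ℕ) → ℝ≥0∞} (h0 : u 0 ≤ 1) : nrm u 1 ≤ 1 := by
  unfold nrm
  rw [tsum_eq_single 0]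
  · simpa using h0
  · intro k hk
    rw [MvPowerSeries.coeff_one, if_neg hk]
    simp

lemma nrm_prod_le {u : (Fin n →₀ ℕ) → ℝ≥0∞} (h0 : u 0 ≤ 1) (hu : ∀ p q, u (p + q) ≤ u p * u q)
    {φ : Fin n → MvPowerSeries (Fin n) ℂ} {t : ℝ≥0∞} (ht : ∀ j, nrm u (φ j) ≤ t) (d : ℕ)
    (s : Fin d → Fin n) : nrm u (∏ i, φ (s i)) ≤ t ^ d := by
  induction d with
  | zero => simpa using nrm_one_le h0
  | succ d ih =>
    rw [Fin.prod_univ_succ, pow_succ']
    refine (nrm_mul_le (fun p q _ _ => hu p q)).trans ?_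
    exact mul_le_mul' (ht _) (ih _)

/-- vanishing of the coefficients of degree `< d` -/
def Van (d : ℕ) (g : MvPowerSeries (Fin n) ℂ) : Prop :=
  ∀ k : Fin n →₀ ℕ, k.degree < d → MvPowerSeries.coeff k g = 0

lemma Van.mul {a b : ℕ} {g h : MvPowerSeries (Fin n) ℂ} (hg : Van a g) (hh : Van b h) :
    Van (a + b) (g * h) := by
  intro k hk
  rw [MvPowerSeries.coeff_mul]
  apply sum_eq_zero
  intro x hx
  rw [HasAntidiagonal.mem_antidiagonal] at hx
  have : x.1.degree + x.2.degree = k.degree := by rw [← hx, map_add]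
  rcases (by omega : x.1.degree < a ∨ x.2.degree < b) with h1 | h1
  · rw [hg _ h1, zero_mul]
  · rw [hh _ h1, mul_zero]

lemma Van.add {a : ℕ} {g h : MvPowerSeries (Fin n) ℂ} (hg : Van a g) (hh : Van a h) :
    Van a (g + h) := by
  intro k hk
  rw [map_add, hg _ hk, hh _ hk, add_zero]

lemma Van.mono {a b : ℕ} (h : b ≤ a) {g : MvPowerSeries (Fin n) ℂ} (hg : Van a g) : Van b g :=
  fun k hk => hg k (by omega)

lemma Van_prod {φ : Fin n → MvPowerSeries (Fin n) ℂ} (h1 : ∀ j, Van 1 (φ j)) (d : ℕ)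
    (s : Fin d → Fin n) : Van d (∏ i, φ (s i)) := by
  induction d with
  | zero => intro k hk; omega
  | succ d ih =>
    rw [Fin.prod_univ_succ]
    exact ((h1 _).mul (ih _)).mono (by omega)

lemma Van_prod_sub {φ ψ : Fin n → MvPowerSeries (Fin n) ℂ} (h1 : ∀ j, Van 1 (φ j))
    (h2 : ∀ j, Van 1 (ψ j)) {e : ℕ} (h : ∀ j, Van e (φ j - ψ j)) (d : ℕ)
    (s : Fin (d + 1) → Fin n) : Van (e + d) (∏ i, φ (s i) - ∏ i, ψ (s i)) := by
  induction d with
  | zero => simpa using h (s 0)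
  | succ d ih =>
    rw [Fin.prod_univ_succ, Fin.prod_univ_succ (fun i => ψ (s i))]
    have e1 : φ (s 0) * ∏ i : Fin (d + 1), φ (s i.succ) - ψ (s 0) * ∏ i : Fin (d + 1), ψ (s i.succ) =
        (φ (s 0) - ψ (s 0)) * ∏ i : Fin (d + 1), φ (s i.succ) +
        ψ (s 0) * (∏ i : Fin (d + 1), φ (s i.succ) - ∏ i : Fin (d + 1), ψ (s i.succ)) := by ring
    rw [e1]
    refine Van.add ((h _).mul (Van_prod h1 (d + 1) _)) ?_
    exact ((h2 (s 0)).mul (ih (fun i => s i.succ))).mono (by omega)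

/-- composition of a (word indexed) series with `φ` -/
noncomputable def cmp (a : (d : ℕ) → (Fin d → Fin n) → ℂ) (φ : Fin n → MvPowerSeries (Fin n) ℂ) :
    MvPowerSeries (Fin n) ℂ :=
  fun k => ∑ d ∈ range (k.degree + 1), ∑ s : Fin d → Fin n, a d s * MvPowerSeries.coeff k (∏ i, φ (s i))

lemma coeff_cmp (a : (d : ℕ) → (Fin d → Fin n) → ℂ) (φ : Fin n → MvPowerSeries (Fin n) ℂ)
    (k : Fin n →₀ ℕ) : MvPowerSeries.coeff k (cmp a φ) =
    ∑ d ∈ range (k.degree + 1), ∑ s : Fin d → Fin n, a d s * MvPowerSeries.coeff k (∏ i, φ (s i)) := rfl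

/-- the iteration -/
noncomputable def TT (lam : Fin n → ℂ) (a : Fin n → (d : ℕ) → (Fin d → Fin n) → ℂ)
    (φ : Fin n → MvPowerSeries (Fin n) ℂ) (j : Fin n) : MvPowerSeries (Fin n) ℂ :=
  fun k => (if k = Finsupp.single j 1 then 1 else 0) +
    (mon lam k - lam j)⁻¹ * MvPowerSeries.coeff k (cmp (a j) φ)

lemma coeff_TT (lam : Fin n → ℂ) (a : Fin n → (d : ℕ) → (Fin d → Fin n) → ℂ)
    (φ : Fin n → MvPowerSeries (Fin n) ℂ) (j : Fin n) (k : Fin n →₀ ℕ) :
    MvPowerSeries.coeff k (TT lam a φ j) = (if k = Finsupp.single j 1 then 1 else 0) +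
    (mon lam k - lam j)⁻¹ * MvPowerSeries.coeff k (cmp (a j) φ) := rfl

section
variable (lam : Fin n → ℂ) (a : Fin n → (d : ℕ) → (Fin d → Fin n) → ℂ)
  (ha : ∀ j d s, d < 2 → a j d s = 0)
include ha

lemma cmp_low (φ : Fin n → MvPowerSeries (Fin n) ℂ) (j : Fin n) (k : Fin n →₀ ℕ)
    (hk : k.degree < 2) : MvPowerSeries.coeff k (cmp (a j) φ) = 0 := by
  rw [coeff_cmp]
  apply sum_eq_zero
  intro d hd
  rw [mem_range] at hd
  apply sum_eq_zero
  intro s _
  rw [ha j d s (by omega), zero_mul]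

lemma TT_van (φ : Fin n → MvPowerSeries (Fin n) ℂ) (j : Fin n) : Van 1 (TT lam a φ j) := by
  intro k hk
  have h0 : k = 0 := (Finsupp.degree_eq_zero_iff k).mp (by omega)
  rw [coeff_TT, cmp_low a ha φ j k (by omega), if_neg]
  · simp
  · rw [h0]
    intro h
    have := Finsupp.single_eq_zero.mp h.symm
    omega

lemma TT_contract {φ ψ : Fin n → MvPowerSeries (Fin n) ℂ} (h1 : ∀ j, Van 1 (φ j))
    (h2 : ∀ j, Van 1 (ψ j)) {e : ℕ} (h : ∀ j, Van e (φ j - ψ j)) (j : Fin n) :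
    Van (e + 1) (TT lam a φ j - TT lam a ψ j) := by
  intro k hk
  rw [map_sub, coeff_TT, coeff_TT, add_sub_add_left_eq_sub, ← mul_sub, coeff_cmp, coeff_cmp,
    ← sum_sub_distrib]
  rw [sum_eq_zero, mul_zero]
  intro d _
  rw [← sum_sub_distrib]
  apply sum_eq_zero
  intro s _
  rw [← mul_sub, ← map_sub]
  by_cases hd : d < 2
  · rw [ha j d s hd, zero_mul]
  · obtain ⟨d', rfl⟩ : ∃ d', d = d' + 1 + 1 := ⟨d - 2, by omega⟩
    rw [Van_prod_sub h1 h2 h (d' + 1) s k (by omega), mul_zero]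

/-- the iterates -/
noncomputable def itr (lam : Fin n → ℂ) (a : Fin n → (d : ℕ) → (Fin d → Fin n) → ℂ) :
    ℕ → Fin n → MvPowerSeries (Fin n) ℂ
  | 0 => fun _ => 0
  | e + 1 => TT lam a (itr lam a e)

lemma itr_van (e : ℕ) (j : Fin n) : Van 1 (itr lam a e j) := by
  cases e with
  | zero => intro k _; simp [itr]
  | succ e => exact TT_van lam a ha _ j

lemma itr_stab (e : ℕ) : ∀ j, Van e (itr lam a (e + 1) j - itr lam a e j) := by
  induction e with
  | zero => intro j k hk; omega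
  | succ e ih =>
    intro j
    exact TT_contract lam a ha (itr_van lam a ha (e + 1)) (itr_van lam a ha e) ih j

lemma itr_stab' {e e' : ℕ} (h : e ≤ e') (j : Fin n) (k : Fin n →₀ ℕ) (hk : k.degree < e) :
    MvPowerSeries.coeff k (itr lam a e' j) = MvPowerSeries.coeff k (itr lam a e j) := by
  induction e', h using Nat.le_induction with
  | base => rfl
  | succ e' he' ih =>
    have := itr_stab lam a ha e' j k (by omega)
    rw [map_sub, sub_eq_zero] at this
    rw [this, ih]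

omit ha in
/-- the limit of the iterates -/
noncomputable def lmt (lam : Fin n → ℂ) (a : Fin n → (d : ℕ) → (Fin d → Fin n) → ℂ) (j : Fin n) :
    MvPowerSeries (Fin n) ℂ :=
  fun k => MvPowerSeries.coeff k (itr lam a (k.degree + 1) j)

omit ha in
lemma coeff_lmt (j : Fin n) (k : Fin n →₀ ℕ) : MvPowerSeries.coeff k (lmt lam a j) =
    MvPowerSeries.coeff k (itr lam a (k.degree + 1) j) := rfl

lemma lmt_itr (e : ℕ) (j : Fin n) : Van e (lmt lam a j - itr lam a e j) := by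
  intro k hk
  rw [map_sub, coeff_lmt, sub_eq_zero]
  exact (itr_stab' lam a ha (by omega) j k (by omega)).symm

lemma lmt_van (j : Fin n) : Van 1 (lmt lam a j) := by
  intro k hk
  exact itr_van lam a ha _ j k hk

lemma TT_lmt (j : Fin n) (k : Fin n →₀ ℕ) :
    MvPowerSeries.coeff k (TT lam a (lmt lam a) j) = MvPowerSeries.coeff k (lmt lam a j) := by
  have h1 := TT_contract lam a ha (lmt_van lam a ha) (itr_van lam a ha (k.degree + 1))
    (lmt_itr lam a ha (k.degree + 1)) j k (by omega)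
  have h2 := lmt_itr lam a ha (k.degree + 1 + 1) j k (by omega)
  rw [map_sub, sub_eq_zero] at h1 h2
  rw [h1, h2]
  rfl

/-- one step of the iteration does not increase the norms -/
lemma TT_nrm {u : (Fin n →₀ ℕ) → ℝ≥0∞} (h0 : u 0 ≤ 1) (hu : ∀ p q, u (p + q) ≤ u p * u q)
    (hdiv : ∀ j p q, p ≠ 0 → q ≠ 0 → ‖(mon lam (p + q) - lam j)⁻¹‖ₑ * u (p + q) ≤ u p * u q)
    {B : ℕ → ℝ≥0∞} {t : ℝ≥0∞} (hB : ∀ j d, ∑ s : Fin d → Fin n, ‖a j d s‖ₑ ≤ B d)
    (hBt : ∀ j : Fin n, u (Finsupp.single j 1) + ∑' d, B d * t ^ d ≤ t)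
    {φ : Fin n → MvPowerSeries (Fin n) ℂ} (h1 : ∀ j, Van 1 (φ j)) (ht : ∀ j, nrm u (φ j) ≤ t)
    (j : Fin n) : nrm u (TT lam a φ j) ≤ t := by
  refine le_trans ?_ (hBt j)
  have e1 : nrm u (TT lam a φ j) ≤
      ∑' k, (‖(if k = Finsupp.single j 1 then (1 : ℂ) else 0)‖ₑ * u k +
      ∑' d, ∑ s : Fin d → Fin n, ‖a j d s‖ₑ * (‖MvPowerSeries.coeff k (∏ i, φ (s i))‖ₑ *
        (‖(mon lam k - lam j)⁻¹‖ₑ * u k))) := by
    unfold nrm
    apply ENNReal.tsum_le_tsum
    intro k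
    rw [coeff_TT, coeff_cmp]
    refine (mul_le_mul_left (enorm_add_le _ _) _).trans ?_
    rw [add_mul]
    gcongr
    rw [enorm_mul]
    calc ‖(mon lam k - lam j)⁻¹‖ₑ * ‖∑ d ∈ range (k.degree + 1), ∑ s : Fin d → Fin n,
          a j d s * MvPowerSeries.coeff k (∏ i, φ (s i))‖ₑ * u k
        ≤ ‖(mon lam k - lam j)⁻¹‖ₑ * (∑ d ∈ range (k.degree + 1), ∑ s : Fin d → Fin n,
          ‖a j d s‖ₑ * ‖MvPowerSeries.coeff k (∏ i, φ (s i))‖ₑ) * u k := by
          gcongr
          refine (enorm_sum_le _ _).trans (sum_le_sum fun d _ => ?_)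
          refine (enorm_sum_le _ _).trans (sum_le_sum fun s _ => ?_)
          rw [enorm_mul]
      _ = ∑ d ∈ range (k.degree + 1), ∑ s : Fin d → Fin n,
          ‖a j d s‖ₑ * (‖MvPowerSeries.coeff k (∏ i, φ (s i))‖ₑ *
            (‖(mon lam k - lam j)⁻¹‖ₑ * u k)) := by
          rw [mul_sum, sum_mul]
          apply sum_congr rfl
          intro d _
          rw [mul_sum, sum_mul]
          apply sum_congr rfl
          intro s _
          ring
      _ ≤ _ := ENNReal.sum_le_tsum _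
  refine e1.trans ?_
  rw [ENNReal.tsum_add]
  apply add_le_add
  · rw [tsum_eq_single (Finsupp.single j 1)]
    · simp
    · intro k hk
      rw [if_neg hk]; simp
  · rw [ENNReal.tsum_comm]
    apply ENNReal.tsum_le_tsum
    intro d
    have e2 : ∑' k, ∑ s : Fin d → Fin n, ‖a j d s‖ₑ * (‖MvPowerSeries.coeff k (∏ i, φ (s i))‖ₑ *
        (‖(mon lam k - lam j)⁻¹‖ₑ * u k)) = ∑ s : Fin d → Fin n, ‖a j d s‖ₑ *
        nrm (fun k => ‖(mon lam k - lam j)⁻¹‖ₑ * u k) (∏ i, φ (s i)) := by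
      rw [Summable.tsum_finsetSum (fun _ _ => ENNReal.summable)]
      apply sum_congr rfl
      intro s _
      rw [ENNReal.tsum_mul_left]
      rfl
    rw [e2]
    calc ∑ s : Fin d → Fin n, ‖a j d s‖ₑ *
        nrm (fun k => ‖(mon lam k - lam j)⁻¹‖ₑ * u k) (∏ i, φ (s i))
        ≤ ∑ s : Fin d → Fin n, ‖a j d s‖ₑ * t ^ d := by
          apply sum_le_sum
          intro s _
          by_cases hd : d < 2
          · rw [ha j d s hd]; simp
          · obtain ⟨d', rfl⟩ : ∃ d', d = d' + 1 + 1 := ⟨d - 2, by omega⟩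
            gcongr
            rw [Fin.prod_univ_succ, pow_succ']
            refine (nrm_mul_le (v := u) ?_).trans
              (mul_le_mul' (ht _) (nrm_prod_le h0 hu ht (d' + 1) _))
            intro p q hp hq
            apply hdiv j p q
            · rintro rfl
              exact hp (h1 _ 0 (by simp))
            · rintro rfl
              exact hq (Van_prod h1 (d' + 1) _ 0 (by simp))
      _ ≤ B d * t ^ d := by
          rw [← sum_mul]
          exact mul_le_mul_left (hB j d) _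

lemma lmt_nrm {u : (Fin n →₀ ℕ) → ℝ≥0∞} (h0 : u 0 ≤ 1) (hu : ∀ p q, u (p + q) ≤ u p * u q)
    (hdiv : ∀ j p q, p ≠ 0 → q ≠ 0 → ‖(mon lam (p + q) - lam j)⁻¹‖ₑ * u (p + q) ≤ u p * u q)
    {B : ℕ → ℝ≥0∞} {t : ℝ≥0∞} (hB : ∀ j d, ∑ s : Fin d → Fin n, ‖a j d s‖ₑ ≤ B d)
    (hBt : ∀ j : Fin n, u (Finsupp.single j 1) + ∑' d, B d * t ^ d ≤ t)
    (j : Fin n) : nrm u (lmt lam a j) ≤ t := by
  have h1 : ∀ e j, nrm u (itr lam a e j) ≤ t := by
    intro e
    induction e with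
    | zero => intro j; simp [itr, nrm]
    | succ e ih => intro j; exact TT_nrm lam a ha h0 hu hdiv hB hBt (itr_van lam a ha e) ih j
  unfold nrm
  rw [ENNReal.tsum_eq_iSup_sum]
  apply iSup_le
  intro S
  obtain ⟨e, he⟩ : ∃ e, ∀ k ∈ S, k.degree < e :=
    ⟨S.sup (fun k => k.degree) + 1, fun k hk => Nat.lt_succ_of_le (Finset.le_sup (f := fun k => k.degree) hk)⟩
  refine le_trans ?_ (h1 e j)
  refine le_trans (le_of_eq ?_) (ENNReal.sum_le_tsum S)
  apply sum_congr rfl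
  intro k hk
  have := lmt_itr lam a ha e j k (he k hk)
  rw [map_sub, sub_eq_zero] at this
  rw [this]

/-- the formal conjugacy equation -/
lemma lmt_eq (hres : ∀ k : Fin n →₀ ℕ, 2 ≤ k.degree → ∀ j, mon lam k ≠ lam j) (j : Fin n)
    (k : Fin n →₀ ℕ) : (mon lam k - lam j) * MvPowerSeries.coeff k (lmt lam a j) =
      MvPowerSeries.coeff k (cmp (a j) (lmt lam a)) := by
  rw [← TT_lmt lam a ha j k, coeff_TT]
  by_cases h2 : 2 ≤ k.degree
  · rw [if_neg, zero_add, ← mul_assoc, mul_inv_cancel₀ (sub_ne_zero.mpr (hres k h2 j)), one_mul]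
    rintro rfl
    simp at h2
  · rw [cmp_low a ha _ j k (by omega), mul_zero, add_zero]
    by_cases h3 : k = Finsupp.single j 1
    · rw [h3, mon_single, sub_self, zero_mul]
    · rw [if_neg h3, mul_zero]

lemma lmt_low (j : Fin n) (k : Fin n →₀ ℕ) (hk : k.degree < 2) :
    MvPowerSeries.coeff k (lmt lam a j) = if k = Finsupp.single j 1 then 1 else 0 := by
  rw [← TT_lmt lam a ha j k, coeff_TT, cmp_low a ha _ j k hk, mul_zero, add_zero]

end

end Pool.Agent.Helper41.Br
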