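import Mathlib
import Pool.Agent.Helper41.BrFormal

set_option autoImplicit false

/-!
Evaluation of formal power series, for MP_0ef3a5_an.
-/

open Finset
open scoped ENNReal NNReal Topology

namespace Pool.Agent.Helper41.Br

variable {n : ℕ}

/-- evaluation of a power series -/
noncomputable def ev (z : Fin n → ℂ) (g : MvPowerSeries (Fin n) ℂ) : ℂ :=
  ∑' k, MvPowerSeries.coeff k g * mon z k

section
variable {u : (Fin n →₀ ℕ) → ℝ≥0∞} {z : Fin n → ℂ} (hz : ∀ k, ‖mon z k‖ₑ ≤ u k)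
include hz

lemma tsum_enorm_le (g : MvPowerSeries (Fin n) ℂ) :
    ∑' k, ‖MvPowerSeries.coeff k g * mon z k‖ₑ ≤ nrm u g := by
  unfold nrm
  apply ENNReal.tsum_le_tsum
  intro k
  rw [enorm_mul]
  gcongr
  exact hz k

lemma ev_summable {g : MvPowerSeries (Fin n) ℂ} (hg : nrm u g ≠ ∞) :
    Summable (fun k => ‖MvPowerSeries.coeff k g * mon z k‖) :=
  tsum_enorm_ne_top_iff_summable_norm.mp (ne_top_of_le_ne_top hg (tsum_enorm_le hz g))

lemma enorm_ev_le (g : MvPowerSeries (Fin n) ℂ) : ‖ev z g‖ₑ ≤ nrm u g :=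
  enorm_tsum_le_tsum_enorm.trans (tsum_enorm_le hz g)

lemma ev_mul {g h : MvPowerSeries (Fin n) ℂ} (hg : nrm u g ≠ ∞) (hh : nrm u h ≠ ∞) :
    ev z (g * h) = ev z g * ev z h := by
  have s1 := ev_summable hz hg
  have s2 := ev_summable hz hh
  have s3 := summable_mul_of_summable_norm s1 s2
  have key : (∑' k, MvPowerSeries.coeff k g * mon z k) * (∑' k, MvPowerSeries.coeff k h * mon z k) =
      ∑' k, ∑ x ∈ HasAntidiagonal.antidiagonal k, (MvPowerSeries.coeff x.1 g * mon z x.1) *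
        (MvPowerSeries.coeff x.2 h * mon z x.2) :=
    Summable.tsum_mul_tsum_eq_tsum_sum_antidiagonal
      (f := fun k => MvPowerSeries.coeff k g * mon z k)
      (g := fun k => MvPowerSeries.coeff k h * mon z k) s1.of_norm s2.of_norm s3
  unfold ev
  rw [key]
  apply tsum_congr
  intro k
  rw [MvPowerSeries.coeff_mul, sum_mul]
  apply sum_congr rfl
  intro x hx
  rw [HasAntidiagonal.mem_antidiagonal] at hx
  rw [← hx, mon_add]
  ring

omit hz in
lemma ev_one : ev z 1 = 1 := by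
  unfold ev
  rw [tsum_eq_single 0]
  · simp [mon_zero]
  · intro k hk
    rw [MvPowerSeries.coeff_one, if_neg hk, zero_mul]

lemma ev_prod (h0 : u 0 ≤ 1) (hu : ∀ p q, u (p + q) ≤ u p * u q)
    {φ : Fin n → MvPowerSeries (Fin n) ℂ} {t : ℝ≥0∞} (htt : t ≠ ∞) (ht : ∀ j, nrm u (φ j) ≤ t) (d : ℕ)
    (s : Fin d → Fin n) : ev z (∏ i, φ (s i)) = ∏ i, ev z (φ (s i)) := by
  induction d with
  | zero => simp [ev_one]
  | succ d ih =>
    rw [Fin.prod_univ_succ, Fin.prod_univ_succ, ev_mul hz, ih]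
    · exact ne_top_of_le_ne_top htt (ht _)
    · exact ne_top_of_le_ne_top (ENNReal.pow_ne_top htt) (nrm_prod_le h0 hu ht d _)

lemma ev_cmp (h0 : u 0 ≤ 1) (hu : ∀ p q, u (p + q) ≤ u p * u q)
    {φ : Fin n → MvPowerSeries (Fin n) ℂ} {t : ℝ≥0∞} (htt : t ≠ ∞) (ht : ∀ j, nrm u (φ j) ≤ t)
    (h1 : ∀ j, Van 1 (φ j)) (a : (d : ℕ) → (Fin d → Fin n) → ℂ) {B : ℕ → ℝ≥0∞}
    (hB : ∀ d, ∑ s : Fin d → Fin n, ‖a d s‖ₑ ≤ B d) (hBt : ∑' d, B d * t ^ d ≠ ∞) :
    ev z (cmp a φ) = ∑' d, ∑ s : Fin d → Fin n, a d s * ∏ i, ev z (φ (s i)) := by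
  have e1 : ∀ k, MvPowerSeries.coeff k (cmp a φ) * mon z k =
      ∑' d, ∑ s : Fin d → Fin n, a d s * (MvPowerSeries.coeff k (∏ i, φ (s i)) * mon z k) := by
    intro k
    rw [tsum_eq_sum (s := range (k.degree + 1)), coeff_cmp, sum_mul]
    · apply sum_congr rfl
      intro d _
      rw [sum_mul]
      apply sum_congr rfl
      intro s _
      ring
    · intro d hd
      rw [mem_range, not_lt] at hd
      apply sum_eq_zero
      intro s _
      rw [Van_prod h1 d s k (by omega), zero_mul, mul_zero]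
  have e2 : Summable (Function.uncurry (fun (k : Fin n →₀ ℕ) (d : ℕ) =>
      ∑ s : Fin d → Fin n, a d s * (MvPowerSeries.coeff k (∏ i, φ (s i)) * mon z k))) := by
    apply Summable.of_enorm
    refine ne_top_of_le_ne_top hBt ?_
    rw [ENNReal.tsum_prod', ENNReal.tsum_comm]
    apply ENNReal.tsum_le_tsum
    intro d
    calc ∑' k, ‖∑ s : Fin d → Fin n, a d s * (MvPowerSeries.coeff k (∏ i, φ (s i)) * mon z k)‖ₑ
        ≤ ∑' k, ∑ s : Fin d → Fin n, ‖a d s‖ₑ * ‖MvPowerSeries.coeff k (∏ i, φ (s i)) * mon z k‖ₑ := by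
          apply ENNReal.tsum_le_tsum
          intro k
          refine (enorm_sum_le _ _).trans (sum_le_sum fun s _ => ?_)
          rw [enorm_mul]
      _ = ∑ s : Fin d → Fin n, ‖a d s‖ₑ *
            ∑' k, ‖MvPowerSeries.coeff k (∏ i, φ (s i)) * mon z k‖ₑ := by
          rw [Summable.tsum_finsetSum (fun _ _ => ENNReal.summable)]
          apply sum_congr rfl
          intro s _
          rw [ENNReal.tsum_mul_left]
      _ ≤ ∑ s : Fin d → Fin n, ‖a d s‖ₑ * t ^ d := by
          apply sum_le_sum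
          intro s _
          gcongr
          exact (tsum_enorm_le hz _).trans (nrm_prod_le h0 hu ht d s)
      _ ≤ B d * t ^ d := by
          rw [← sum_mul]
          exact mul_le_mul_left (hB d) _
  calc ev z (cmp a φ) = ∑' k, ∑' d, ∑ s : Fin d → Fin n,
        a d s * (MvPowerSeries.coeff k (∏ i, φ (s i)) * mon z k) := by
        unfold ev; exact tsum_congr e1
    _ = ∑' d, ∑' k, ∑ s : Fin d → Fin n,
        a d s * (MvPowerSeries.coeff k (∏ i, φ (s i)) * mon z k) := e2.tsum_comm.symm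
    _ = _ := by
        apply tsum_congr
        intro d
        have e3 : ∀ s : Fin d → Fin n,
            Summable (fun k => MvPowerSeries.coeff k (∏ i, φ (s i)) * mon z k) := by
          intro s
          exact (ev_summable hz (ne_top_of_le_ne_top (ENNReal.pow_ne_top htt)
            (nrm_prod_le h0 hu ht d s))).of_norm
        rw [Summable.tsum_finsetSum (fun s _ => (e3 s).mul_left _)]
        apply sum_congr rfl
        intro s _
        rw [tsum_mul_left, ← ev_prod hz h0 hu htt ht d s]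
        rfl

end

/-! ### Analyticity -/

/-- every monomial comes from a word -/
lemma exists_word (d : ℕ) : ∀ k : Fin n →₀ ℕ, k.degree = d →
    ∃ s : Fin d → Fin n, ∀ z : Fin n → ℂ, ∏ i, z (s i) = mon z k := by
  induction d with
  | zero =>
    intro k hk
    have h0 : k = 0 := (Finsupp.degree_eq_zero_iff k).mp hk
    exact ⟨Fin.elim0, fun z => by simp [h0, mon_zero]⟩
  | succ d ih =>
    intro k hk
    have hne : k ≠ 0 := by rintro rfl; simp at hk
    obtain ⟨i, hi⟩ := Finsupp.support_nonempty_iff.mpr hne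
    rw [Finsupp.mem_support_iff] at hi
    obtain ⟨k', rfl⟩ : ∃ k', k = Finsupp.single i 1 + k' := by
      have : Finsupp.single i 1 ≤ k := by
        rw [Finsupp.single_le_iff]; omega
      exact ⟨k - Finsupp.single i 1, (add_tsub_cancel_of_le this).symm⟩
    have hk' : k'.degree = d := by
      rw [map_add, Finsupp.degree_single] at hk; omega
    obtain ⟨s, hs⟩ := ih k' hk'
    refine ⟨Fin.cons i s, fun z => ?_⟩
    rw [Fin.prod_univ_succ, mon_add, mon_single, ← hs z]
    simp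

/-- a multilinear map for a monomial -/
lemma exists_mlin (d : ℕ) (k : Fin n →₀ ℕ) (hk : k.degree = d) :
    ∃ M : ContinuousMultilinearMap ℂ (fun _ : Fin d => (Fin n → ℂ)) ℂ,
      (∀ z : Fin n → ℂ, M (fun _ => z) = mon z k) ∧ ‖M‖ ≤ 1 := by
  obtain ⟨s, hs⟩ := exists_word d k hk
  refine ⟨(ContinuousMultilinearMap.mkPiAlgebra ℂ (Fin d) ℂ).compContinuousLinearMap
    (fun i => ContinuousLinearMap.proj (s i)), fun z => ?_, ?_⟩
  · simpa using hs z
  · apply ContinuousMultilinearMap.opNorm_le_bound zero_le_one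
    intro m
    simp only [ContinuousMultilinearMap.compContinuousLinearMap_apply,
      ContinuousMultilinearMap.mkPiAlgebra_apply, ContinuousLinearMap.proj_apply, one_mul]
    rw [norm_prod]
    apply prod_le_prod
    · intro i _; positivity
    · intro i _
      exact norm_le_pi_norm (m i) (s i)

open Classical in
noncomputable def ML (d : ℕ) (k : Fin n →₀ ℕ) :
    ContinuousMultilinearMap ℂ (fun _ : Fin d => (Fin n → ℂ)) ℂ :=
  if h : k.degree = d then (exists_mlin d k h).choose else 0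

lemma ML_apply {d : ℕ} {k : Fin n →₀ ℕ} (hk : k.degree = d) (z : Fin n → ℂ) :
    ML d k (fun _ => z) = mon z k := by
  unfold ML
  rw [dif_pos hk]
  exact (exists_mlin d k hk).choose_spec.1 z

lemma norm_ML_le {d : ℕ} {k : Fin n →₀ ℕ} : ‖ML d k‖ ≤ 1 := by
  unfold ML
  split_ifs with hk
  · exact (exists_mlin d k hk).choose_spec.2
  · simp

/-- multi-indices of degree `d` -/
def Sd (n d : ℕ) : Finset (Fin n →₀ ℕ) := Finset.finsuppAntidiag univ d

lemma mem_Sd {d : ℕ} {k : Fin n →₀ ℕ} : k ∈ Sd n d ↔ k.degree = d := by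
  unfold Sd
  rw [Finset.mem_finsuppAntidiag, Finsupp.degree_eq_sum]
  simp

/-- the formal multilinear series of a power series -/
noncomputable def fms (g : MvPowerSeries (Fin n) ℂ) : FormalMultilinearSeries ℂ (Fin n → ℂ) ℂ :=
  fun d => ∑ k ∈ Sd n d, MvPowerSeries.coeff k g • ML d k

noncomputable def SdEquiv (n : ℕ) : (Σ d, ↥(Sd n d)) ≃ (Fin n →₀ ℕ) where
  toFun x := x.2.1
  invFun k := ⟨k.degree, k, mem_Sd.mpr rfl⟩
  left_inv := by
    rintro ⟨d, k, hk⟩
    rw [mem_Sd] at hk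
    subst hk
    rfl
  right_inv := fun k => rfl

lemma fms_apply (g : MvPowerSeries (Fin n) ℂ) (d : ℕ) (z : Fin n → ℂ) :
    fms g d (fun _ => z) = ∑ k ∈ Sd n d, MvPowerSeries.coeff k g * mon z k := by
  unfold fms
  rw [_root_.sum_apply]
  apply sum_congr rfl
  intro k hk
  rw [_root_.smul_apply, ML_apply (mem_Sd.mp hk), smul_eq_mul]

lemma ev_hasFPowerSeriesOnBall (g : MvPowerSeries (Fin n) ℂ) {r : ℝ≥0} (hr : 0 < r)
    (hg : nrm (fun k => (r : ℝ≥0∞) ^ k.degree) g ≠ ∞) :
    HasFPowerSeriesOnBall (fun z => ev z g) (fms g) 0 r where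
  r_le := by
    have hs : Summable (fun k => ‖MvPowerSeries.coeff k g‖ * (r : ℝ) ^ k.degree) := by
      have := tsum_enorm_ne_top_iff_summable_norm (E := ℝ)
        (f := fun k => ‖MvPowerSeries.coeff k g‖ * (r : ℝ) ^ k.degree)
      have h2 : (∑' k, ‖‖MvPowerSeries.coeff k g‖ * (r : ℝ) ^ k.degree‖ₑ) =
          nrm (fun k => (r : ℝ≥0∞) ^ k.degree) g := by
        unfold nrm
        apply tsum_congr
        intro k
        rw [enorm_mul, enorm_norm, enorm_pow]
        simp
      rw [h2] at this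
      have h3 := this.mp hg
      exact h3.of_norm
    apply FormalMultilinearSeries.le_radius_of_bound _
      (∑' k, ‖MvPowerSeries.coeff k g‖ * (r : ℝ) ^ k.degree)
    intro d
    refine le_trans ?_ (hs.sum_le_tsum (Sd n d) (fun k _ => by positivity))
    have e1 : ‖fms g d‖ ≤ ∑ k ∈ Sd n d, ‖MvPowerSeries.coeff k g‖ := by
      unfold fms
      refine (norm_sum_le _ _).trans (sum_le_sum fun k _ => ?_)
      refine (norm_smul_le (MvPowerSeries.coeff k g) (ML d k)).trans ?_
      have := norm_ML_le (d := d) (k := k)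
      nlinarith [norm_nonneg (MvPowerSeries.coeff k g)]
    calc ‖fms g d‖ * (r : ℝ) ^ d ≤ (∑ k ∈ Sd n d, ‖MvPowerSeries.coeff k g‖) * (r : ℝ) ^ d := by
          gcongr
      _ = ∑ k ∈ Sd n d, ‖MvPowerSeries.coeff k g‖ * (r : ℝ) ^ k.degree := by
          rw [sum_mul]
          apply sum_congr rfl
          intro k hk
          rw [mem_Sd.mp hk]
  r_pos := by exact_mod_cast hr
  hasSum := by
    intro y hy
    rw [zero_add]
    have hy' : ∀ i, ‖y i‖ ≤ r := by
      intro i
      have h1 : ‖y‖ < r := by simpa using hy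
      exact (norm_le_pi_norm y i).trans h1.le
    have hz : ∀ k, ‖mon y k‖ₑ ≤ (fun k : Fin n →₀ ℕ => (r : ℝ≥0∞) ^ k.degree) k := by
      intro k
      have h1 := norm_mon_le hy' k
      have h2 : ‖mon y k‖ₑ ≤ ENNReal.ofReal ((r : ℝ) ^ k.degree) := by
        rw [← ofReal_norm]
        exact ENNReal.ofReal_le_ofReal h1
      refine h2.trans (le_of_eq ?_)
      show _ = (r : ℝ≥0∞) ^ k.degree
      rw [ENNReal.ofReal_pow (NNReal.coe_nonneg r), ENNReal.ofReal_coe_nnreal]
    have hs : HasSum (fun k => MvPowerSeries.coeff k g * mon y k) (ev y g) :=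
      (ev_summable hz hg).of_norm.hasSum
    have hs2 : HasSum ((fun k => MvPowerSeries.coeff k g * mon y k) ∘ (SdEquiv n)) (ev y g) :=
      (SdEquiv n).hasSum_iff.mpr hs
    refine hs2.sigma (fun d => ?_)
    rw [fms_apply]
    exact Finset.hasSum (Sd n d) (fun k => MvPowerSeries.coeff k g * mon y k)

end Pool.Agent.Helper41.Br
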