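import Mathlib
import Pool.Agent.Helper41.BrEval

set_option autoImplicit false

/-!
A majorant criterion for holomorphic linearizability, for MP_0ef3a5_an.
-/

open Finset Filter
open scoped ENNReal NNReal Topology

namespace Pool.Agent.Helper41.Br

variable {n : ℕ}

lemma multilin_expand {d : ℕ} (M : ContinuousMultilinearMap ℂ (fun _ : Fin d => (Fin n → ℂ)) (Fin n → ℂ))
    (w : Fin n → ℂ) (j : Fin n) : M (fun _ => w) j =
      ∑ s : Fin d → Fin n, (M (fun i => Pi.single (s i) 1)) j * ∏ i, w (s i) := by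
  have h1 : (fun _ : Fin d => w) = fun _ : Fin d => ∑ b : Fin n, w b • (Pi.single b (1 : ℂ) : Fin n → ℂ) := by
    funext _
    ext i
    simp [Finset.sum_apply, Pi.single_apply]
  rw [h1, ContinuousMultilinearMap.map_sum, Finset.sum_apply]
  apply sum_congr rfl
  intro s _
  rw [ContinuousMultilinearMap.map_smul_univ, Pi.smul_apply, smul_eq_mul, mul_comm]

lemma norm_coeff_le {d : ℕ} (M : ContinuousMultilinearMap ℂ (fun _ : Fin d => (Fin n → ℂ)) (Fin n → ℂ))
    (s : Fin d → Fin n) (j : Fin n) : ‖(M (fun i => Pi.single (s i) 1)) j‖ ≤ ‖M‖ := by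
  refine (norm_le_pi_norm _ j).trans ?_
  refine (M.le_opNorm _).trans ?_
  have : ∏ i : Fin d, ‖(Pi.single (s i) (1 : ℂ) : Fin n → ℂ)‖ ≤ 1 := by
    apply prod_le_one
    · intro i _; positivity
    · intro i _
      rw [pi_norm_le_iff_of_nonneg zero_le_one]
      intro b
      by_cases hb : b = s i
      · rw [hb, Pi.single_eq_same]; simp
      · rw [Pi.single_eq_of_ne hb]; simp
  nlinarith [norm_nonneg M]

/-- The hypotheses on the eigenvalues. -/
structure Good (lam : Fin n → ℂ) (K : (Fin n →₀ ℕ) → ℝ) (C : ℝ) : Prop where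
  le_one : ∀ j, ‖lam j‖ ≤ 1
  K_zero : K 0 = 0
  K_nonneg : ∀ k, 0 ≤ K k
  K_le : ∀ k, K k ≤ C * k.degree
  K_add : ∀ p q, K p + K q ≤ K (p + q)
  nonres : ∀ k : Fin n →₀ ℕ, 2 ≤ k.degree → ∀ j, mon lam k ≠ lam j
  K_div : ∀ j p q, p ≠ 0 → q ≠ 0 → K p + K q - Real.log ‖mon lam (p + q) - lam j‖ ≤ K (p + q)

/-- the weight -/
noncomputable def wt (K : (Fin n →₀ ℕ) → ℝ) (ρ : ℝ) (k : Fin n →₀ ℕ) : ℝ≥0∞ :=
  ENNReal.ofReal (Real.exp (-K k) * ρ ^ k.degree)

variable {lam : Fin n → ℂ} {K : (Fin n →₀ ℕ) → ℝ} {C : ℝ}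

lemma wt_zero (hG : Good lam K C) (ρ : ℝ) : wt K ρ 0 ≤ 1 := by
  unfold wt
  rw [hG.K_zero]
  simp

lemma wt_mul {ρ : ℝ} (hρ : 0 ≤ ρ) (p q : Fin n →₀ ℕ) :
    wt K ρ p * wt K ρ q = ENNReal.ofReal (Real.exp (-(K p + K q)) * ρ ^ (p + q).degree) := by
  unfold wt
  rw [← ENNReal.ofReal_mul (by positivity)]
  congr 1
  rw [map_add, pow_add, neg_add, Real.exp_add]
  ring

lemma wt_add (hG : Good lam K C) {ρ : ℝ} (hρ : 0 ≤ ρ) (p q : Fin n →₀ ℕ) :
    wt K ρ (p + q) ≤ wt K ρ p * wt K ρ q := by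
  rw [wt_mul hρ]
  unfold wt
  apply ENNReal.ofReal_le_ofReal
  gcongr
  exact hG.K_add p q

lemma degree_pos {p : Fin n →₀ ℕ} (hp : p ≠ 0) : 1 ≤ p.degree := by
  by_contra h
  exact hp ((Finsupp.degree_eq_zero_iff p).mp (by omega))

lemma wt_div (hG : Good lam K C) {ρ : ℝ} (hρ : 0 ≤ ρ) (j : Fin n) (p q : Fin n →₀ ℕ) (hp : p ≠ 0)
    (hq : q ≠ 0) : ‖(mon lam (p + q) - lam j)⁻¹‖ₑ * wt K ρ (p + q) ≤ wt K ρ p * wt K ρ q := by
  rw [wt_mul hρ]
  unfold wt
  rw [← ofReal_norm, ← ENNReal.ofReal_mul (by positivity)]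
  apply ENNReal.ofReal_le_ofReal
  rw [← mul_assoc]
  gcongr
  have h1 : 2 ≤ (p + q).degree := by
    have := degree_pos hp
    have := degree_pos hq
    rw [map_add]; omega
  have h2 : 0 < ‖mon lam (p + q) - lam j‖ := norm_pos_iff.mpr (sub_ne_zero.mpr (hG.nonres _ h1 j))
  rw [norm_inv, ← Real.exp_log h2, ← Real.exp_neg, ← Real.exp_add]
  apply Real.exp_le_exp.mpr
  linarith [hG.K_div j p q hp hq]

lemma mon_le_wt (hG : Good lam K C) {ρ : ℝ} (hρ : 0 ≤ ρ) {z : Fin n → ℂ}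
    (hz : ∀ i, ‖z i‖ ≤ ρ * Real.exp (-C)) (k : Fin n →₀ ℕ) : ‖mon z k‖ₑ ≤ wt K ρ k := by
  unfold wt
  rw [← ofReal_norm]
  apply ENNReal.ofReal_le_ofReal
  refine (norm_mon_le hz k).trans ?_
  rw [mul_pow, ← Real.exp_nat_mul, mul_comm]
  gcongr
  linarith [hG.K_le k]

/-- numbers -/
lemma exists_rho (M q R' : ℝ) (hM : 0 < M) (hq : 0 ≤ q) (hR : 0 < R') :
    ∃ ρ : ℝ, 0 < ρ ∧ 4 * q * ρ ≤ 1 ∧ 8 * M * q ^ 2 * ρ ≤ 1 ∧ 2 * ρ < R' := by
  refine ⟨min (min (1 / (4 * q + 1)) (1 / (8 * M * q ^ 2 + 1))) (R' / 4), ?_, ?_, ?_, ?_⟩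
  · refine lt_min (lt_min ?_ ?_) ?_ <;> positivity
  · have h1 : min (min (1 / (4 * q + 1)) (1 / (8 * M * q ^ 2 + 1))) (R' / 4) ≤ 1 / (4 * q + 1) :=
      (min_le_left _ _).trans (min_le_left _ _)
    calc 4 * q * min (min (1 / (4 * q + 1)) (1 / (8 * M * q ^ 2 + 1))) (R' / 4)
        ≤ 4 * q * (1 / (4 * q + 1)) := mul_le_mul_of_nonneg_left h1 (by positivity)
      _ ≤ 1 := by rw [mul_one_div, div_le_one (by positivity)]; linarith
  · have h1 : min (min (1 / (4 * q + 1)) (1 / (8 * M * q ^ 2 + 1))) (R' / 4) ≤ 1 / (8 * M * q ^ 2 + 1) :=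
      (min_le_left _ _).trans (min_le_right _ _)
    calc 8 * M * q ^ 2 * min (min (1 / (4 * q + 1)) (1 / (8 * M * q ^ 2 + 1))) (R' / 4)
        ≤ 8 * M * q ^ 2 * (1 / (8 * M * q ^ 2 + 1)) := mul_le_mul_of_nonneg_left h1 (by positivity)
      _ ≤ 1 := by rw [mul_one_div, div_le_one (by positivity)]; linarith
  · have h1 : min (min (1 / (4 * q + 1)) (1 / (8 * M * q ^ 2 + 1))) (R' / 4) ≤ R' / 4 := min_le_right _ _
    linarith

/-- the majorant of the nonlinear part -/
noncomputable def BB (M q : ℝ) (d : ℕ) : ℝ≥0∞ := if d < 2 then 0 else ENNReal.ofReal (M * q ^ d)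

lemma BB_sum {M q ρ : ℝ} (hM : 0 < M) (hq : 0 ≤ q) (hρ : 0 < ρ) (h1 : 4 * q * ρ ≤ 1)
    (h2 : 8 * M * q ^ 2 * ρ ≤ 1) :
    ∑' d, BB M q d * ENNReal.ofReal (2 * ρ) ^ d ≤ ENNReal.ofReal ρ := by
  have e1 : ∀ d, BB M q d * ENNReal.ofReal (2 * ρ) ^ d =
      if d < 2 then 0 else ENNReal.ofReal (M * (2 * q * ρ) ^ d) := by
    intro d
    unfold BB
    split_ifs
    · simp
    · rw [← ENNReal.ofReal_pow (by positivity), ← ENNReal.ofReal_mul (by positivity)]
      congr 1
      rw [show 2 * q * ρ = q * (2 * ρ) by ring, mul_pow q]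
      ring
  have e2 : ∑' d, BB M q d * ENNReal.ofReal (2 * ρ) ^ d =
      ∑' d : ℕ, ENNReal.ofReal (M * (2 * q * ρ) ^ (d + 2)) := by
    have e3 := Summable.sum_add_tsum_nat_add' (k := 2)
      (f := fun d : ℕ => if d < 2 then (0 : ℝ≥0∞) else ENNReal.ofReal (M * (2 * q * ρ) ^ d))
      ENNReal.summable
    rw [tsum_congr e1, ← e3]
    simp [sum_range_succ]
  rw [e2]
  have e3 : ∀ d : ℕ, ENNReal.ofReal (M * (2 * q * ρ) ^ (d + 2)) ≤
      ENNReal.ofReal (M * (2 * q * ρ) ^ 2 * (1 / 2) ^ d) := by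
    intro d
    apply ENNReal.ofReal_le_ofReal
    rw [pow_add]
    have : (2 * q * ρ) ^ d ≤ (1 / 2) ^ d := pow_le_pow_left₀ (by positivity) (by linarith) d
    have h3 : 0 ≤ M * (2 * q * ρ) ^ 2 := by positivity
    calc M * ((2 * q * ρ) ^ d * (2 * q * ρ) ^ 2) = M * (2 * q * ρ) ^ 2 * (2 * q * ρ) ^ d := by ring
      _ ≤ _ := mul_le_mul_of_nonneg_left this h3
  refine (ENNReal.tsum_le_tsum e3).trans ?_
  have hs : Summable (fun d : ℕ => M * (2 * q * ρ) ^ 2 * (1 / 2 : ℝ) ^ d) :=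
    (summable_geometric_of_lt_one (by norm_num) (by norm_num)).mul_left _
  rw [← ENNReal.ofReal_tsum_of_nonneg (fun d => by positivity) hs, tsum_mul_left, tsum_geometric_two]
  apply ENNReal.ofReal_le_ofReal
  have : 8 * M * q ^ 2 * ρ * ρ ≤ 1 * ρ := mul_le_mul_of_nonneg_right h2 hρ.le
  nlinarith

/-- Linearization for a diagonal linear part. -/
theorem lin_diag (hG : Good lam K C) (f : (Fin n → ℂ) → (Fin n → ℂ)) (hf : AnalyticAt ℂ f 0)
    (hf0 : f 0 = 0) (hd : ∀ z, fderiv ℂ f 0 z = fun i => lam i * z i) :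
    ∃ φ : (Fin n → ℂ) → (Fin n → ℂ), AnalyticAt ℂ φ 0 ∧ φ 0 = 0 ∧
      fderiv ℂ φ 0 = ContinuousLinearMap.id ℂ (Fin n → ℂ) ∧
      ∀ᶠ z in 𝓝 0, f (φ z) = φ (fun i => lam i * z i) := by
  obtain ⟨p, r, hp⟩ := hf
  obtain ⟨M, R, hM, hR, hMR⟩ := p.le_mul_pow_of_radius_pos (hp.r_pos.trans_le hp.r_le)
  obtain ⟨r', hr'0, hr'⟩ := ENNReal.lt_iff_exists_nnreal_btwn.mp hp.r_pos
  have hr'0' : (0 : ℝ) < r' := by exact_mod_cast hr'0
  -- coefficients
  set a : Fin n → (d : ℕ) → (Fin d → Fin n) → ℂ := fun j d s =>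
    if d < 2 then 0 else (p d (fun i => Pi.single (s i) 1)) j with ha_def
  have ha : ∀ j d s, d < 2 → a j d s = 0 := by
    intro j d s h
    simp only [ha_def, if_pos h]
  obtain ⟨ρ, hρ, h4, h8, h2⟩ := exists_rho M (n * R) r' hM (by positivity) hr'0'
  have hB : ∀ j d, ∑ s : Fin d → Fin n, ‖a j d s‖ₑ ≤ BB M (n * R) d := by
    intro j d
    unfold BB
    by_cases h : d < 2
    · rw [if_pos h]
      apply le_of_eq
      apply sum_eq_zero
      intro s _
      rw [ha j d s h]; simp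
    · rw [if_neg h]
      have e1 : ∀ s : Fin d → Fin n, ‖a j d s‖ₑ ≤ ENNReal.ofReal (M * R ^ d) := by
        intro s
        simp only [ha_def, if_neg h]
        rw [← ofReal_norm]
        exact ENNReal.ofReal_le_ofReal ((norm_coeff_le _ _ _).trans (hMR d))
      refine (sum_le_sum (fun s _ => e1 s)).trans (le_of_eq ?_)
      rw [sum_const, nsmul_eq_mul, card_univ, Fintype.card_fun, Fintype.card_fin, Fintype.card_fin]
      rw [← ENNReal.ofReal_natCast, ← ENNReal.ofReal_mul (by positivity)]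
      congr 1
      rw [mul_pow]; push_cast; ring
  set t : ℝ≥0∞ := ENNReal.ofReal (2 * ρ) with ht_def
  have htt : t ≠ ∞ := ENNReal.ofReal_ne_top
  have hBs := BB_sum hM (by positivity : (0 : ℝ) ≤ n * R) hρ h4 h8
  have hBt : ∀ j : Fin n, wt K ρ (Finsupp.single j 1) + ∑' d, BB M (n * R) d * t ^ d ≤ t := by
    intro j
    have e1 : wt K ρ (Finsupp.single j 1) ≤ ENNReal.ofReal ρ := by
      unfold wt
      apply ENNReal.ofReal_le_ofReal
      rw [Finsupp.degree_single, pow_one]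
      have : Real.exp (-K (Finsupp.single j 1)) ≤ 1 := by
        rw [Real.exp_le_one_iff]; linarith [hG.K_nonneg (Finsupp.single j 1)]
      nlinarith
    refine (add_le_add e1 hBs).trans (le_of_eq ?_)
    rw [ht_def, ← ENNReal.ofReal_add hρ.le hρ.le]
    congr 1; ring
  have hBtop : ∑' d, BB M (n * R) d * t ^ d ≠ ∞ :=
    ne_top_of_le_ne_top ENNReal.ofReal_ne_top hBs
  have hu0 := wt_zero hG ρ
  have hua := wt_add hG hρ.le
  have hnrm : ∀ j, nrm (wt K ρ) (lmt lam a j) ≤ t :=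
    fun j => lmt_nrm lam a ha hu0 hua (wt_div hG hρ.le) hB hBt j
  have hvan := lmt_van lam a ha
  -- the conjugacy
  set φ : (Fin n → ℂ) → (Fin n → ℂ) := fun z j => ev z (lmt lam a j) with hφ_def
  have hσ : 0 < ρ * Real.exp (-C) := by positivity
  set σ : ℝ≥0 := ⟨ρ * Real.exp (-C), hσ.le⟩ with hσ_def
  have hσ0 : 0 < σ := hσ
  have hpow : ∀ j, HasFPowerSeriesOnBall (fun z => ev z (lmt lam a j)) (fms (lmt lam a j)) 0 σ := by
    intro j
    apply ev_hasFPowerSeriesOnBall _ hσ0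
    refine ne_top_of_le_ne_top htt (le_trans ?_ (hnrm j))
    unfold nrm
    apply ENNReal.tsum_le_tsum
    intro k
    gcongr
    unfold wt
    show (σ : ℝ≥0∞) ^ k.degree ≤ _
    rw [← ENNReal.ofReal_coe_nnreal, ← ENNReal.ofReal_pow (NNReal.coe_nonneg σ)]
    apply ENNReal.ofReal_le_ofReal
    show (ρ * Real.exp (-C)) ^ k.degree ≤ _
    rw [mul_pow, ← Real.exp_nat_mul, mul_comm]
    gcongr
    linarith [hG.K_le k]
  have hev0 : ∀ g : MvPowerSeries (Fin n) ℂ, Van 1 g → ev (0 : Fin n → ℂ) g = 0 := by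
    intro g hg
    unfold ev
    rw [tsum_eq_single 0]
    · rw [hg 0 (by simp), zero_mul]
    · intro k hk
      have : mon (0 : Fin n → ℂ) k = 0 := by
        unfold mon
        obtain ⟨i, hi⟩ := Finsupp.support_nonempty_iff.mpr hk
        rw [Finsupp.mem_support_iff] at hi
        exact prod_eq_zero (mem_univ i) (by simp [hi])
      rw [this, mul_zero]
  refine ⟨φ, ?_, ?_, ?_, ?_⟩
  · rw [analyticAt_pi_iff]
    intro j
    exact (hpow j).analyticAt
  · funext j
    exact hev0 _ (hvan j)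
  · have h1 : ∀ j, HasFDerivAt (fun z => φ z j)
        (ContinuousLinearMap.proj j : (Fin n → ℂ) →L[ℂ] ℂ) 0 := by
      intro j
      have e1 := (hpow j).hasFPowerSeriesAt.hasFDerivAt
      have e2 : (continuousMultilinearCurryFin1 ℂ (Fin n → ℂ) ℂ) (fms (lmt lam a j) 1) =
          (ContinuousLinearMap.proj j : (Fin n → ℂ) →L[ℂ] ℂ) := by
        apply ContinuousLinearMap.ext
        intro w
        rw [continuousMultilinearCurryFin1_apply]
        have e3 : (Fin.snoc 0 w : Fin 1 → (Fin n → ℂ)) = fun _ => w := by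
          funext i
          have : i = Fin.last 0 := by
            apply Fin.ext
            have := i.2
            simp
          rw [this, Fin.snoc_last]
        rw [e3, fms_apply, sum_eq_single (Finsupp.single j 1)]
        · rw [lmt_low lam a ha j _ (by simp), if_pos rfl, mon_single, one_mul]
          rfl
        · intro k hk hne
          rw [lmt_low lam a ha j k (by rw [mem_Sd.mp hk]; norm_num), if_neg hne, zero_mul]
        · intro h
          exact absurd (mem_Sd.mpr (by simp)) h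
      rw [e2] at e1
      exact e1
    have h2 : HasFDerivAt φ (ContinuousLinearMap.id ℂ (Fin n → ℂ)) 0 := by
      rw [hasFDerivAt_pi']
      intro j
      exact h1 j
    exact h2.fderiv
  · have hball : ∀ᶠ z : Fin n → ℂ in 𝓝 0, ‖z‖ < σ := by
      have := Metric.ball_mem_nhds (0 : Fin n → ℂ) (show (0 : ℝ) < σ from hσ)
      filter_upwards [this] with z hz
      simpa using hz
    filter_upwards [hball] with z hz
    have hzi : ∀ i, ‖z i‖ ≤ ρ * Real.exp (-C) := fun i => (norm_le_pi_norm z i).trans hz.le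
    have hmz := mon_le_wt hG hρ.le hzi
    have hlzi : ∀ i, ‖lam i * z i‖ ≤ ρ * Real.exp (-C) := by
      intro i
      rw [norm_mul]
      have := hG.le_one i
      have := hzi i
      nlinarith [norm_nonneg (z i), norm_nonneg (lam i)]
    have hmlz := mon_le_wt hG hρ.le hlzi
    have hφz : ‖φ z‖ < r' := by
      refine lt_of_le_of_lt ?_ h2
      rw [pi_norm_le_iff_of_nonneg (by positivity)]
      intro j
      have e1 := (enorm_ev_le hmz (lmt lam a j)).trans (hnrm j)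
      rw [← ofReal_norm, ht_def, ENNReal.ofReal_le_ofReal_iff (by positivity)] at e1
      exact e1
    have hφball : φ z ∈ Metric.eball (0 : Fin n → ℂ) r := by
      rw [Metric.mem_eball, edist_zero_right]
      refine lt_trans ?_ hr'
      rw [← ofReal_norm]
      rw [← ENNReal.ofReal_coe_nnreal]
      exact (ENNReal.ofReal_lt_ofReal_iff hr'0').mpr hφz
    have hsum := hp.hasSum hφball
    rw [zero_add] at hsum
    funext j
    have hsumj : HasSum (fun d => p d (fun _ => φ z) j) (f (φ z) j) := (Pi.hasSum.mp hsum) j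
    -- split off the linear terms
    have e0 : p 0 (fun _ => φ z) = 0 := by
      rw [hp.coeff_zero, hf0]
    have e1 : p 1 (fun _ => φ z) = fun i => lam i * φ z i := by
      rw [← hd (φ z), hp.hasFPowerSeriesAt.fderiv_eq, continuousMultilinearCurryFin1_apply]
      congr 1
    have e2 : ∀ d, p (d + 2) (fun _ => φ z) j =
        ∑ s : Fin (d + 2) → Fin n, a j (d + 2) s * ∏ i, φ z (s i) := by
      intro d
      rw [multilin_expand]
      apply sum_congr rfl
      intro s _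
      simp only [ha_def]
      rw [if_neg (by omega)]
    have e3 : f (φ z) j = lam j * φ z j +
        ∑' d, ∑ s : Fin (d + 2) → Fin n, a j (d + 2) s * ∏ i, φ z (s i) := by
      rw [← hsumj.tsum_eq, ← hsumj.summable.sum_add_tsum_nat_add 2]
      rw [sum_range_succ, sum_range_succ, sum_range_zero, e0, e1]
      simp only [Pi.zero_apply, zero_add]
      congr 1
      exact tsum_congr e2
    have e4 := ev_cmp hmz hu0 hua htt hnrm hvan (a j) (hB j) hBtop
    have e5 : ∑' d, ∑ s : Fin d → Fin n, a j d s * ∏ i, ev z (lmt lam a (s i)) =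
        ∑' d, ∑ s : Fin (d + 2) → Fin n, a j (d + 2) s * ∏ i, φ z (s i) := by
      have hs2 : Summable (fun d => ∑ s : Fin d → Fin n, a j d s * ∏ i, ev z (lmt lam a (s i))) := by
        rw [← summable_nat_add_iff 2]
        have := (summable_nat_add_iff 2).mpr hsumj.summable
        exact this.congr e2
      rw [← hs2.sum_add_tsum_nat_add 2]
      rw [sum_range_succ, sum_range_succ, sum_range_zero]
      have z0 : ∑ s : Fin 0 → Fin n, a j 0 s * ∏ i, ev z (lmt lam a (s i)) = 0 :=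
        sum_eq_zero (fun s _ => by rw [ha j 0 s (by norm_num), zero_mul])
      have z1 : ∑ s : Fin 1 → Fin n, a j 1 s * ∏ i, ev z (lmt lam a (s i)) = 0 :=
        sum_eq_zero (fun s _ => by rw [ha j 1 s (by norm_num), zero_mul])
      rw [z0, z1]
      simp only [zero_add, hφ_def]
    rw [e3, ← e5, ← e4]
    have e6 : ev z (cmp (a j) (lmt lam a)) =
        ev (fun i => lam i * z i) (lmt lam a j) - lam j * ev z (lmt lam a j) := by
      have s1 := (ev_summable hmlz (ne_top_of_le_ne_top htt (hnrm j))).of_norm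
      have s2 := (ev_summable hmz (ne_top_of_le_ne_top htt (hnrm j))).of_norm
      unfold ev
      rw [← tsum_mul_left, ← Summable.tsum_sub s1 (s2.mul_left _)]
      apply tsum_congr
      intro k
      rw [← lmt_eq lam a ha hG.nonres j k, mon_mul]
      ring
    rw [e6]
    simp only [hφ_def]
    ring

end Pool.Agent.Helper41.Br
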