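import Mathlib
import Pool.Agent.Helper41.BrMain

set_option autoImplicit false

/-!
Linearization of germs with diagonalizable linear part, for MP_0ef3a5_an.
-/

open Finset Filter
open scoped ENNReal NNReal Topology

namespace Pool.Agent.Helper41.Br

variable {n : ℕ}

/-- a germ tangent to the identity has a local inverse -/
lemma exists_local_inverse {φ : (Fin n → ℂ) → (Fin n → ℂ)} (hφ : AnalyticAt ℂ φ 0) (h0 : φ 0 = 0)
    (hd : fderiv ℂ φ 0 = ContinuousLinearMap.id ℂ (Fin n → ℂ)) :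
    ∃ ψ : (Fin n → ℂ) → (Fin n → ℂ), AnalyticAt ℂ ψ 0 ∧ ψ 0 = 0 ∧
      (∀ᶠ z in 𝓝 0, ψ (φ z) = z) ∧ (∀ᶠ z in 𝓝 0, φ (ψ z) = z) := by
  have h1 : HasStrictFDerivAt φ
      ((ContinuousLinearEquiv.refl ℂ (Fin n → ℂ) : (Fin n → ℂ) →L[ℂ] (Fin n → ℂ))) 0 := by
    have := hφ.hasStrictFDerivAt
    rw [hd] at this
    exact this
  refine ⟨h1.localInverse φ _ 0, ?_, ?_, h1.eventually_left_inverse, ?_⟩
  · have h2 : AnalyticAt ℂ (h1.localInverse φ _ 0) (φ 0) := by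
      rw [h1.localInverse_def]
      apply (h1.toOpenPartialHomeomorph φ).analyticAt_symm' (i := ContinuousLinearEquiv.refl ℂ (Fin n → ℂ))
        h1.mem_toOpenPartialHomeomorph_source hφ
      rw [h1.toOpenPartialHomeomorph_coe, hd]
      rfl
    rwa [h0] at h2
  · have := h1.localInverse_apply_image
    rwa [h0] at this
  · have := h1.eventually_right_inverse
    rwa [h0] at this

/-- Linearization for a diagonalizable linear part. -/
theorem lin {lam : Fin n → ℂ} {K : (Fin n →₀ ℕ) → ℝ} {C : ℝ} (hG : Good lam K C)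
    (f : (Fin n → ℂ) → (Fin n → ℂ)) (hf : AnalyticAt ℂ f 0) (hf0 : f 0 = 0)
    (P : (Fin n → ℂ) ≃L[ℂ] (Fin n → ℂ))
    (hP : ∀ z, fderiv ℂ f 0 (P z) = P (fun i => lam i * z i)) :
    ∃ φ ψ : (Fin n → ℂ) → (Fin n → ℂ), AnalyticAt ℂ φ 0 ∧ AnalyticAt ℂ ψ 0 ∧ φ 0 = 0 ∧ ψ 0 = 0 ∧
      (∀ᶠ z in 𝓝 0, ψ (φ z) = z) ∧ (∀ᶠ z in 𝓝 0, φ (ψ z) = z) ∧
      fderiv ℂ φ 0 = ContinuousLinearMap.id ℂ (Fin n → ℂ) ∧
      ∀ᶠ z in 𝓝 0, ψ (f (φ z)) = fderiv ℂ f 0 z := by
  have hPa : ∀ x, AnalyticAt ℂ P x := fun x => P.analyticAt x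
  have hPsa : ∀ x, AnalyticAt ℂ P.symm x := fun x => P.symm.analyticAt x
  -- the conjugated germ
  have hg : AnalyticAt ℂ (fun z => P.symm (f (P z))) 0 := by
    have h1 : AnalyticAt ℂ (fun z => f (P z)) 0 := by
      apply AnalyticAt.fun_comp (g := f) (f := P) _ (hPa 0)
      rw [map_zero]; exact hf
    exact AnalyticAt.fun_comp (hPsa _) h1
  have hg0 : P.symm (f (P 0)) = 0 := by rw [map_zero, hf0, map_zero]
  have hfd : HasFDerivAt f (fderiv ℂ f 0) 0 := hf.differentiableAt.hasFDerivAt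
  have hgd : HasFDerivAt (fun z => P.symm (f (P z)))
      ((P.symm : (Fin n → ℂ) →L[ℂ] (Fin n → ℂ)).comp ((fderiv ℂ f 0).comp
        (P : (Fin n → ℂ) →L[ℂ] (Fin n → ℂ)))) 0 := by
    have h1 : HasFDerivAt (fun z => f (P z)) ((fderiv ℂ f 0).comp
        (P : (Fin n → ℂ) →L[ℂ] (Fin n → ℂ))) 0 := by
      apply HasFDerivAt.comp (g := f) (f := P) 0 _ P.hasFDerivAt
      rw [map_zero]; exact hfd
    exact HasFDerivAt.comp (g := P.symm) (f := fun z => f (P z)) 0 P.symm.hasFDerivAt h1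
  have hgd' : ∀ z, fderiv ℂ (fun z => P.symm (f (P z))) 0 z = fun i => lam i * z i := by
    intro z
    rw [hgd.fderiv]
    simp only [ContinuousLinearMap.comp_apply, ContinuousLinearEquiv.coe_coe]
    rw [hP, P.symm_apply_apply]
  obtain ⟨χ, hχ, hχ0, hχd, hχe⟩ := lin_diag hG _ hg hg0 hgd'
  -- conjugate back
  have hφ : AnalyticAt ℂ (fun z => P (χ (P.symm z))) 0 := by
    have h1 : AnalyticAt ℂ (fun z => χ (P.symm z)) 0 := by
      apply AnalyticAt.fun_comp (g := χ) (f := P.symm) _ (hPsa 0)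
      rw [map_zero]; exact hχ
    exact AnalyticAt.fun_comp (hPa _) h1
  have hφ0 : P (χ (P.symm 0)) = 0 := by rw [map_zero, hχ0, map_zero]
  have hφd : fderiv ℂ (fun z => P (χ (P.symm z))) 0 = ContinuousLinearMap.id ℂ (Fin n → ℂ) := by
    have h0 : HasFDerivAt χ (ContinuousLinearMap.id ℂ (Fin n → ℂ)) 0 := by
      rw [← hχd]; exact hχ.differentiableAt.hasFDerivAt
    have h1 : HasFDerivAt (fun z => χ (P.symm z)) ((ContinuousLinearMap.id ℂ (Fin n → ℂ)).comp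
        (P.symm : (Fin n → ℂ) →L[ℂ] (Fin n → ℂ))) 0 := by
      apply HasFDerivAt.comp (g := χ) (f := P.symm) 0 _ P.symm.hasFDerivAt
      rw [map_zero]; exact h0
    have h2 := HasFDerivAt.comp (g := P) (f := fun z => χ (P.symm z)) 0 P.hasFDerivAt h1
    have h3 : (P : (Fin n → ℂ) →L[ℂ] (Fin n → ℂ)).comp ((ContinuousLinearMap.id ℂ (Fin n → ℂ)).comp
        (P.symm : (Fin n → ℂ) →L[ℂ] (Fin n → ℂ))) = ContinuousLinearMap.id ℂ (Fin n → ℂ) := by
      apply ContinuousLinearMap.ext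
      intro z
      simp
    rw [h3] at h2
    exact h2.fderiv
  obtain ⟨ψ, hψ, hψ0, h1, h2⟩ := exists_local_inverse hφ hφ0 hφd
  refine ⟨fun z => P (χ (P.symm z)), ψ, hφ, hψ, hφ0, hψ0, h1, h2, hφd, ?_⟩
  -- the conjugacy equation
  have hlim : Tendsto (fun z => P.symm z) (𝓝 0) (𝓝 0) := by
    have := P.symm.continuous.tendsto 0
    rwa [map_zero] at this
  have hlim2 : Tendsto (fun z => fderiv ℂ f 0 z) (𝓝 0) (𝓝 0) := by
    have := (fderiv ℂ f 0).continuous.tendsto 0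
    rwa [map_zero] at this
  filter_upwards [hlim.eventually hχe, hlim2.eventually h1] with z hz hz2
  have e1 : f (P (χ (P.symm z))) = P (χ (fun i => lam i * P.symm z i)) := by
    rw [← hz, P.apply_symm_apply]
  have e2 : P.symm (fderiv ℂ f 0 z) = fun i => lam i * P.symm z i := by
    have := hP (P.symm z)
    rw [P.apply_symm_apply] at this
    rw [this, P.symm_apply_apply]
  rw [e1, ← e2]
  exact hz2

end Pool.Agent.Helper41.Br
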