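import Mathlib
import Pool.Agent.Helper41.BrArith

set_option autoImplicit false

/-!
Weights of forests, for MP_0ef3a5_an.
-/

open Finset

namespace Pool.Agent.Helper41.Br

/-- `exp (2 π i x)` -/
noncomputable def ee (x : ℝ) : ℂ := Complex.exp (2 * Real.pi * x * Complex.I)

lemma ee_add (x y : ℝ) : ee (x + y) = ee x * ee y := by
  unfold ee; rw [← Complex.exp_add]; push_cast; ring_nf

lemma ee_zero : ee 0 = 1 := by simp [ee]

lemma ee_int (z : ℤ) : ee z = 1 := by
  unfold ee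
  have := Complex.exp_int_mul_two_pi_mul_I z
  rw [← this]; push_cast; ring_nf

lemma norm_ee (x : ℝ) : ‖ee x‖ = 1 := by
  unfold ee
  have : (2 * (Real.pi : ℂ) * x * Complex.I) = ((2 * Real.pi * x : ℝ) : ℂ) * Complex.I := by
    push_cast; ring
  rw [this, Complex.norm_exp_ofReal_mul_I]

lemma ee_nat_mul (n : ℕ) (x : ℝ) : ee (n * x) = ee x ^ n := by
  unfold ee; rw [← Complex.exp_nat_mul]; push_cast; ring_nf

lemma norm_ee_sub_one (x : ℝ) : ‖ee x - 1‖ = 2 * |Real.sin (Real.pi * x)| := by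
  unfold ee
  have h1 : (2 * (Real.pi : ℂ) * x * Complex.I) = Complex.I * ((2 * Real.pi * x : ℝ) : ℂ) := by
    push_cast; ring
  rw [h1, Complex.norm_exp_I_mul_ofReal_sub_one, Real.norm_eq_abs, abs_mul,
    abs_of_pos (by norm_num : (0 : ℝ) < 2)]
  congr 3
  ring

lemma norm_ee_sub_one_ge {x : ℝ} (hx : |x| ≤ 1 / 2) : 4 * |x| ≤ ‖ee x - 1‖ := by
  rw [norm_ee_sub_one]
  have h1 : |Real.sin (Real.pi * x)| = Real.sin (Real.pi * |x|) := by
    rcases le_or_gt 0 x with h | h
    · rw [abs_of_nonneg h] at hx ⊢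
      apply abs_of_nonneg
      apply Real.sin_nonneg_of_nonneg_of_le_pi (by positivity)
      nlinarith [Real.pi_pos]
    · rw [abs_of_neg h] at hx ⊢
      rw [show Real.pi * x = -(Real.pi * -x) by ring, Real.sin_neg, abs_neg]
      apply abs_of_nonneg
      apply Real.sin_nonneg_of_nonneg_of_le_pi
      · have := Real.pi_pos; nlinarith
      · nlinarith [Real.pi_pos]
  rw [h1]
  have h2 := Real.mul_le_sin (x := Real.pi * |x|) (by positivity) (by nlinarith [Real.pi_pos])
  have h3 : 2 / Real.pi * (Real.pi * |x|) = 2 * |x| := by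
    have := Real.pi_pos.ne'
    field_simp
  linarith

lemma norm_ee_sub_one_le (x : ℝ) : ‖ee x - 1‖ ≤ 7 * |x| := by
  rw [norm_ee_sub_one]
  have h1 : |Real.sin (Real.pi * x)| ≤ |Real.pi * x| := Real.abs_sin_le_abs
  rw [abs_mul, abs_of_pos Real.pi_pos] at h1
  have h2 := Real.pi_lt_d2
  have h3 := abs_nonneg x
  nlinarith

/-- the distance to the nearest integer controls `|e(x) - 1|` -/
lemma norm_ee_sub_one_ge' {x c : ℝ} (h : ∀ z : ℤ, c ≤ |x - z|) : 4 * c ≤ ‖ee x - 1‖ := by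
  have h1 : ee x = ee (x - round x) := by
    have : ee x = ee (x - round x) * ee ((round x : ℤ) : ℝ) := by rw [← ee_add]; congr 1; ring
    rw [this, ee_int, mul_one]
  rw [h1]
  refine le_trans ?_ (norm_ee_sub_one_ge (abs_sub_round x))
  linarith [h (round x)]

lemma norm_ee_sub (x y : ℝ) : ‖ee x - ee y‖ = ‖ee (x - y) - 1‖ := by
  have : ee x - ee y = (ee (x - y) - 1) * ee y := by
    rw [sub_mul, ← ee_add]; simp
  rw [this, norm_mul, norm_ee, mul_one]

/-- the two eigenvalues -/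
noncomputable def lb : Bool → ℂ
  | false => ee al
  | true => ee be

lemma lb_eq (j : Bool) : lb j = ee (th (ex j) (ey j)) := by
  cases j <;> simp [lb, th, ex, ey]

lemma norm_lb (j : Bool) : ‖lb j‖ = 1 := by rw [lb_eq, norm_ee]

lemma th_sub (a b c d : ℤ) : th a b - th c d = th (a - c) (b - d) := by
  unfold th; push_cast; ring

lemma ee_th_sub_lb (x y : ℤ) (j : Bool) :
    ‖ee (th x y) - lb j‖ = ‖ee (th (x - ex j) (y - ey j)) - 1‖ := by
  rw [lb_eq, norm_ee_sub, th_sub]

lemma not_mk_bound {n : ℕ} {x y : ℤ} {j : Bool} (h : ¬ mk n x y j) :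
    1 / (2 * QQ n) ≤ ‖ee (th x y) - lb j‖ := by
  rw [ee_th_sub_lb]
  unfold mk at h
  push Not at h
  have := norm_ee_sub_one_ge' h
  have h1 : 4 * (1 / (8 * (QQ n : ℝ))) = 1 / (2 * QQ n) := by field_simp; norm_num
  rw [h1] at this
  exact this

/-- weight of a node -/
noncomputable def w (x y : ℤ) (j : Bool) : ℝ := max 0 (-Real.log ‖ee (th x y) - lb j‖)

/-- weight of a forest -/
noncomputable def W : Fo → ℝ
  | .leaf _ => 0
  | .join F G => W F + W G
  | .root j F G => W F + W G + w (cx F + cx G) (cy F + cy G) j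

/-- number of roots -/
def nr : Fo → ℤ
  | .leaf _ => 0
  | .join F G => nr F + nr G
  | .root _ F G => nr F + nr G + 1

lemma nr_le (F : Fo) : nr F + 1 ≤ cx F + cy F := by
  induction F with
  | leaf j => simp only [nr, cx, cy]; linarith [ex_add_ey j]
  | join F G h1 h2 => simp only [nr, cx, cy]; linarith
  | root j F G h1 h2 => simp only [nr, cx, cy]; linarith

lemma QQ_prod (n : ℕ) : Real.log (2 * QQ n) = 11 * Real.log 2 + Real.log 2 * ∑ i ∈ range n, (mm i : ℝ) := by
  induction n with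
  | zero =>
    simp [QQ_zero]
    rw [show (2 * 1024 : ℝ) = 2 ^ 11 by norm_num, Real.log_pow]
    norm_num
  | succ n ih =>
    rw [sum_range_succ, QQ_succ]
    push_cast
    have h1 := QQ_pos' n
    rw [show (2 : ℝ) * (2 ^ mm n * QQ n) = 2 ^ mm n * (2 * QQ n) by ring,
      Real.log_mul (by positivity) (by positivity), ih, Real.log_pow]
    ring

open Classical in
lemma w_bound (x y : ℤ) (j : Bool) (h1 : -1 ≤ x - ex j) (h2 : -1 ≤ y - ey j)
    (h3 : 1 ≤ (x - ex j) + (y - ey j)) : ∃ N₀, ∀ N, N₀ ≤ N → 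
    w x y j ≤ 11 * Real.log 2 + Real.log 2 * ∑ n ∈ (range N).filter (fun n => mk n x y j), (mm n : ℝ) := by
  have hex := exists_not_mk x y j h1 h2 h3
  obtain ⟨n, hn⟩ : ∃ n, n = Nat.find hex := ⟨_, rfl⟩
  have hn1 : ¬ mk n x y j := by rw [hn]; exact Nat.find_spec hex
  have hn2 : ∀ i < n, mk i x y j := by
    intro i hi
    rw [hn] at hi
    exact not_not.mp (Nat.find_min hex hi)
  refine ⟨n, fun N hN => ?_⟩
  have hl2 : 0 < Real.log 2 := Real.log_pos (by norm_num)
  have hsum : ∑ i ∈ range n, (mm i : ℝ) ≤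
      ∑ i ∈ (range N).filter (fun n => mk n x y j), (mm i : ℝ) := by
    apply sum_le_sum_of_subset_of_nonneg
    · intro i hi
      rw [mem_range] at hi
      rw [mem_filter, mem_range]
      exact ⟨by omega, hn2 i hi⟩
    · intro i _ _; positivity
  have hpos : 0 ≤ ∑ i ∈ (range N).filter (fun n => mk n x y j), (mm i : ℝ) :=
    sum_nonneg (fun i _ => by positivity)
  unfold w
  apply max_le
  · positivity
  · have h4 := not_mk_bound hn1
    have h5 := QQ_pos' n
    have h6 : -Real.log ‖ee (th x y) - lb j‖ ≤ Real.log (2 * QQ n) := by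
      have := Real.log_le_log (by positivity) h4
      rw [one_div, Real.log_inv] at this
      linarith
    rw [QQ_prod] at h6
    nlinarith

lemma W_trunc (F : Fo) : ∃ N₀, ∀ N, N₀ ≤ N →
    W F ≤ 11 * Real.log 2 * nr F + Real.log 2 * ∑ n ∈ range N, (mm n : ℝ) * Nn (mkN N) n F := by
  classical
  have hl2 : 0 < Real.log 2 := Real.log_pos (by norm_num)
  induction F with
  | leaf j => exact ⟨0, fun N _ => by simp [W, nr, Nn]⟩
  | join F G h1 h2 =>
    obtain ⟨N1, h1⟩ := h1
    obtain ⟨N2, h2⟩ := h2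
    refine ⟨max N1 N2, fun N hN => ?_⟩
    have e1 := h1 N (le_trans (le_max_left _ _) hN)
    have e2 := h2 N (le_trans (le_max_right _ _) hN)
    simp only [W, nr, Nn]
    push_cast
    have e3 : ∑ n ∈ range N, (mm n : ℝ) * ((Nn (mkN N) n F : ℝ) + Nn (mkN N) n G) =
        ∑ n ∈ range N, (mm n : ℝ) * Nn (mkN N) n F + ∑ n ∈ range N, (mm n : ℝ) * Nn (mkN N) n G := by
      rw [← sum_add_distrib]; apply sum_congr rfl; intros; ring
    rw [e3]
    linarith
  | root j F G h1 h2 =>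
    obtain ⟨N1, h1⟩ := h1
    obtain ⟨N2, h2⟩ := h2
    have c1 := one_le_c F
    have c2 := one_le_c G
    have c3 := cx_nonneg F
    have c4 := cx_nonneg G
    have c5 := cy_nonneg F
    have c6 := cy_nonneg G
    have c7 := ex_le j
    have c8 := ey_le j
    have c9 := ex_add_ey j
    obtain ⟨N3, h3⟩ := w_bound (cx F + cx G) (cy F + cy G) j (by omega) (by omega) (by omega)
    refine ⟨max (max N1 N2) N3, fun N hN => ?_⟩
    have e1 := h1 N (by omega)
    have e2 := h2 N (by omega)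
    have e3 := h3 N (by omega)
    simp only [W, nr, Nn]
    push_cast
    have e4 : ∑ n ∈ (range N).filter (fun n => mk n (cx F + cx G) (cy F + cy G) j), (mm n : ℝ) =
        ∑ n ∈ range N, (mm n : ℝ) * (if Mk (mkN N) n j F G then 1 else 0) := by
      rw [sum_filter]
      apply sum_congr rfl
      intro n hn
      rw [mem_range] at hn
      by_cases hm : mk n (cx F + cx G) (cy F + cy G) j
      · have hm' : Mk (mkN N) n j F G := ⟨hn, hm⟩
        rw [if_pos hm, if_pos hm', mul_one]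
      · have hm' : ¬ Mk (mkN N) n j F G := fun h => hm h.2
        rw [if_neg hm, if_neg hm', mul_zero]
    rw [e4] at e3
    have e5 : ∑ n ∈ range N, (mm n : ℝ) * ((Nn (mkN N) n F : ℝ) + Nn (mkN N) n G +
          (if Mk (mkN N) n j F G then 1 else 0)) =
        ∑ n ∈ range N, (mm n : ℝ) * Nn (mkN N) n F + ∑ n ∈ range N, (mm n : ℝ) * Nn (mkN N) n G +
        ∑ n ∈ range N, (mm n : ℝ) * (if Mk (mkN N) n j F G then 1 else 0) := by
      rw [← sum_add_distrib, ← sum_add_distrib]; apply sum_congr rfl; intros; ring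
    rw [e5]
    linarith

/-- The weight of a forest is bounded by a constant times the number of its leaves. -/
theorem W_le (F : Fo) : W F ≤ 51 * Real.log 2 * (cx F + cy F) := by
  obtain ⟨N, hN⟩ := W_trunc F
  have h1 := hN N le_rfl
  have hl2 : 0 < Real.log 2 := Real.log_pos (by norm_num)
  have h2 := total_marks (hyp N) N (fun x y j h => by have := h.1; omega) F
  have h2' : ∑ n ∈ range N, (mm n : ℝ) * Nn (mkN N) n F ≤
      8 * cx F + 2 * ∑ n ∈ range N, (mm n : ℝ) * Hc (mkN N) (fun n => (mm n : ℤ)) n F := by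
    exact_mod_cast h2
  have h3 : ∀ n ∈ range N, (mm n : ℝ) * Hc (mkN N) (fun n => (mm n : ℤ)) n F ≤
      8 * (cx F + cy F) * (1 / 2) ^ n := by
    intro n _
    have e1 := T2 (hyp N) n F
    have e2 := ox_nonneg (mk := mkN N) n F
    have e3 := oy_nonneg (mk := mkN N) n F
    have e4 : (QQ n : ℤ) * Hc (mkN N) (fun n => (mm n : ℤ)) n F ≤ mm n * (cx F + cy F) := by
      have : (0 : ℤ) ≤ mm n * (ox (mkN N) n F + oy (mkN N) n F) := by positivity
      linarith
    have e5 : (QQ n : ℝ) * Hc (mkN N) (fun n => (mm n : ℤ)) n F ≤ mm n * (cx F + cy F) := by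
      exact_mod_cast e4
    have e6 : (2 : ℝ) ^ n * (mm n) ^ 2 ≤ 8 * QQ n := by exact_mod_cast two_pow_mm_sq n
    have e7 := QQ_pos' n
    have e8 := mm_pos' n
    have e9 : (0 : ℝ) ≤ cx F + cy F := by
      have := one_le_c F
      have : (0 : ℤ) ≤ cx F + cy F := by omega
      exact_mod_cast this
    rw [one_div, inv_pow, ← div_eq_mul_inv, le_div_iff₀ (by positivity)]
    have f1 : (QQ n : ℝ) * ((mm n : ℝ) * Hc (mkN N) (fun n => (mm n : ℤ)) n F * 2 ^ n) ≤
        QQ n * (8 * (cx F + cy F)) := by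
      calc (QQ n : ℝ) * ((mm n : ℝ) * Hc (mkN N) (fun n => (mm n : ℤ)) n F * 2 ^ n)
          = ((QQ n : ℝ) * Hc (mkN N) (fun n => (mm n : ℤ)) n F) * (mm n * 2 ^ n) := by ring
        _ ≤ (mm n * (cx F + cy F)) * (mm n * 2 ^ n) := mul_le_mul_of_nonneg_right e5 (by positivity)
        _ = (2 ^ n * (mm n) ^ 2) * (cx F + cy F) := by ring
        _ ≤ (8 * QQ n) * (cx F + cy F) := mul_le_mul_of_nonneg_right e6 e9
        _ = _ := by ring
    exact le_of_mul_le_mul_left f1 e7
  have e9 : (0 : ℝ) ≤ cx F + cy F := by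
    have := one_le_c F
    have : (0 : ℤ) ≤ cx F + cy F := by omega
    exact_mod_cast this
  have h4 : ∑ n ∈ range N, (mm n : ℝ) * Hc (mkN N) (fun n => (mm n : ℤ)) n F ≤ 16 * (cx F + cy F) := by
    refine (sum_le_sum h3).trans ?_
    rw [← mul_sum]
    have h5 : ∑ n ∈ range N, (1 / 2 : ℝ) ^ n ≤ 2 := by
      have := (summable_geometric_of_lt_one (by norm_num : (0 : ℝ) ≤ 1 / 2) (by norm_num)).sum_le_tsum
        (range N) (fun i _ => by positivity)
      rwa [tsum_geometric_two] at this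
    nlinarith
  have h6 : (nr F : ℝ) ≤ cx F + cy F := by
    have := nr_le F
    have : nr F ≤ cx F + cy F := by omega
    exact_mod_cast this
  have h7 : (cx F : ℝ) ≤ cx F + cy F := by
    have := cy_nonneg F
    have : cx F ≤ cx F + cy F := by omega
    exact_mod_cast this
  nlinarith

/-- `K x y` is the supremum of the weights of the forests with content `(x, y)` -/
noncomputable def KK (x y : ℤ) : ℝ := sSup {r | ∃ F : Fo, cx F = x ∧ cy F = y ∧ r = W F}

lemma w_nonneg (x y : ℤ) (j : Bool) : 0 ≤ w x y j := le_max_left _ _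

lemma W_nonneg (F : Fo) : 0 ≤ W F := by
  induction F with
  | leaf j => exact le_refl _
  | join F G h1 h2 => simp only [W]; linarith
  | root j F G h1 h2 => simp only [W]; linarith [w_nonneg (cx F + cx G) (cy F + cy G) j]

lemma KK_bdd (x y : ℤ) : BddAbove {r | ∃ F : Fo, cx F = x ∧ cy F = y ∧ r = W F} := by
  refine ⟨51 * Real.log 2 * (x + y), ?_⟩
  rintro r ⟨F, rfl, rfl, rfl⟩
  exact W_le F

lemma exists_forest (n : ℕ) : ∀ x y : ℤ, 0 ≤ x → 0 ≤ y → x + y = n + 1 → ∃ F : Fo, cx F = x ∧ cy F = y := by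
  induction n with
  | zero =>
    intro x y hx hy h
    rcases (by omega : (x = 1 ∧ y = 0) ∨ (x = 0 ∧ y = 1)) with h | h
    · exact ⟨.leaf false, by simp [cx, ex, h.1], by simp [cy, ey, h.2]⟩
    · exact ⟨.leaf true, by simp [cx, ex, h.1], by simp [cy, ey, h.2]⟩
  | succ n ih =>
    intro x y hx hy h
    push_cast at h
    rcases (by omega : 1 ≤ x ∨ 1 ≤ y) with h' | h'
    · obtain ⟨F, h1, h2⟩ := ih (x - 1) y (by omega) hy (by omega)
      exact ⟨.join (.leaf false) F, by simp only [cx, ex, h1]; ring, by simp [cy, ey, h2]⟩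
    · obtain ⟨F, h1, h2⟩ := ih x (y - 1) hx (by omega) (by omega)
      exact ⟨.join (.leaf true) F, by simp [cx, ex, h1], by simp only [cy, ey, h2]; ring⟩

lemma exists_forest' (x y : ℤ) (hx : 0 ≤ x) (hy : 0 ≤ y) (h : 1 ≤ x + y) :
    ∃ F : Fo, cx F = x ∧ cy F = y := by
  obtain ⟨n, hn⟩ := Int.eq_ofNat_of_zero_le (by linarith : 0 ≤ x + y - 1)
  exact exists_forest n x y hx hy (by omega)

lemma KK_nonneg (x y : ℤ) : 0 ≤ KK x y := by
  apply Real.sSup_nonneg
  rintro r ⟨F, _, _, rfl⟩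
  exact W_nonneg F

lemma KK_zero : KK 0 0 = 0 := by
  unfold KK
  have : {r | ∃ F : Fo, cx F = 0 ∧ cy F = 0 ∧ r = W F} = ∅ := by
    ext r
    simp only [Set.mem_ofPred_eq, Set.mem_empty_iff_false, iff_false]
    rintro ⟨F, h1, h2, _⟩
    have := one_le_c F
    omega
  rw [this, Real.sSup_empty]

lemma KK_le (x y : ℤ) (hx : 0 ≤ x) (hy : 0 ≤ y) : KK x y ≤ 51 * Real.log 2 * (x + y) := by
  have hl2 : 0 < Real.log 2 := Real.log_pos (by norm_num)
  unfold KK
  apply Real.sSup_le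
  · rintro r ⟨F, rfl, rfl, rfl⟩
    exact W_le F
  · have h1 : (0 : ℝ) ≤ x := by exact_mod_cast hx
    have h2 : (0 : ℝ) ≤ y := by exact_mod_cast hy
    positivity

lemma KK_le_of {x y : ℤ} {B : ℝ} (h0 : ∃ F : Fo, cx F = x ∧ cy F = y)
    (h : ∀ F : Fo, cx F = x → cy F = y → W F ≤ B) : KK x y ≤ B := by
  obtain ⟨F0, h1, h2⟩ := h0
  unfold KK
  have hne : Set.Nonempty {r | ∃ F : Fo, cx F = x ∧ cy F = y ∧ r = W F} := ⟨W F0, F0, h1, h2, rfl⟩
  apply csSup_le hne
  rintro r ⟨F, e1, e2, rfl⟩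
  exact h F e1 e2

lemma KK_w (x y x' y' : ℤ) (j : Bool) (hx : 0 ≤ x) (hy : 0 ≤ y) (hx' : 0 ≤ x') (hy' : 0 ≤ y')
    (h : 1 ≤ x + y) (h' : 1 ≤ x' + y') :
    KK x y + KK x' y' + w (x + x') (y + y') j ≤ KK (x + x') (y + y') := by
  have h1 : KK x y ≤ KK (x + x') (y + y') - w (x + x') (y + y') j - KK x' y' := by
    apply KK_le_of (exists_forest' x y hx hy h)
    rintro F rfl rfl
    have h2 : KK x' y' ≤ KK (cx F + x') (cy F + y') - w (cx F + x') (cy F + y') j - W F := by
      apply KK_le_of (exists_forest' x' y' hx' hy' h')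
      rintro G rfl rfl
      have h3 : W (.root j F G) ≤ KK (cx F + cx G) (cy F + cy G) :=
        le_csSup (KK_bdd _ _) ⟨.root j F G, rfl, rfl, rfl⟩
      simp only [W] at h3
      linarith
    linarith
  linarith

lemma KK_add (x y x' y' : ℤ) (hx : 0 ≤ x) (hy : 0 ≤ y) (hx' : 0 ≤ x') (hy' : 0 ≤ y') :
    KK x y + KK x' y' ≤ KK (x + x') (y + y') := by
  by_cases h : 1 ≤ x + y
  · by_cases h' : 1 ≤ x' + y'
    · have := KK_w x y x' y' false hx hy hx' hy' h h'
      linarith [w_nonneg (x + x') (y + y') false]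
    · have e1 : x' = 0 := by omega
      have e2 : y' = 0 := by omega
      subst e1 e2
      simp [KK_zero]
  · have e1 : x = 0 := by omega
    have e2 : y = 0 := by omega
    subst e1 e2
    simp [KK_zero]

/-- no resonances -/
lemma nonres (x y : ℤ) (j : Bool) (hx : 0 ≤ x) (hy : 0 ≤ y) (h : 2 ≤ x + y) :
    ee (th x y) ≠ lb j := by
  have c7 := ex_le j
  have c8 := ey_le j
  have c9 := ex_add_ey j
  obtain ⟨n, hn⟩ := exists_not_mk x y j (by omega) (by omega) (by omega)
  have h1 := not_mk_bound hn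
  have h2 := QQ_pos' n
  intro h3
  rw [h3, sub_self, norm_zero] at h1
  have : (0 : ℝ) < 1 / (2 * QQ n) := by positivity
  linarith

end Pool.Agent.Helper41.Br
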