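import Mathlib

set_option autoImplicit false

namespace Pool.Agent.Helper41.Dautov

open Complex

/-- the polynomial `φ` as a function -/
noncomputable def phi (z : ℂ) : ℂ := z ^ 2 + (I / 8) * z * (1 - z) ^ 2 - (1 / 16) * (1 - z) ^ 4

theorem circ {z : ℂ} (hz : ‖z‖ = 1) : (1 - z) ^ 2 = -z * ((‖1 - z‖ ^ 2 : ℝ) : ℂ) := by
  have h1 : ((‖1 - z‖ ^ 2 : ℝ) : ℂ) = (1 - z) * (1 - (starRingEnd ℂ) z) := by
    have := Complex.mul_conj (1 - z)
    rw [map_sub, map_one, Complex.normSq_eq_norm_sq] at this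
    exact this.symm
  have h2 : z * (starRingEnd ℂ) z = 1 := by
    rw [Complex.mul_conj, Complex.normSq_eq_norm_sq, hz]; simp
  rw [h1]
  linear_combination (-(1 - z)) * h2

theorem phi_circ {z : ℂ} (hz : ‖z‖ = 1) :
    phi z = z ^ 2 * (1 - I * ((‖1 - z‖ ^ 2 : ℝ) : ℂ) / 8 - ((‖1 - z‖ ^ 2 : ℝ) : ℂ) ^ 2 / 16) := by
  have h := circ hz
  have h4 : (1 - z) ^ 4 = z ^ 2 * ((‖1 - z‖ ^ 2 : ℝ) : ℂ) ^ 2 := by
    have : (1 - z) ^ 4 = ((1 - z) ^ 2) ^ 2 := by ring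
    rw [this, h]; ring
  unfold phi
  rw [h4, h]
  ring

/-- norm of the factor `1 - i s/8 - s^2/16` -/
theorem norm_factor (s : ℝ) :
    ‖(1 - I * (s : ℂ) / 8 - (s : ℂ) ^ 2 / 16)‖ ^ 2 = 1 - (7 / 64) * s ^ 2 + s ^ 4 / 256 := by
  rw [← Complex.normSq_eq_norm_sq, Complex.normSq_apply]
  have h1 : (1 - I * (s : ℂ) / 8 - (s : ℂ) ^ 2 / 16).re = 1 - s ^ 2 / 16 := by
    have : (1 - I * (s : ℂ) / 8 - (s : ℂ) ^ 2 / 16) = ((1 - s ^ 2 / 16 : ℝ) : ℂ) + ((-(s / 8) : ℝ) : ℂ) * I := by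
      push_cast; ring
    rw [this, Complex.add_re, Complex.ofReal_re, Complex.re_ofReal_mul, Complex.I_re]; ring
  have h2 : (1 - I * (s : ℂ) / 8 - (s : ℂ) ^ 2 / 16).im = -(s / 8) := by
    have : (1 - I * (s : ℂ) / 8 - (s : ℂ) ^ 2 / 16) = ((1 - s ^ 2 / 16 : ℝ) : ℂ) + ((-(s / 8) : ℝ) : ℂ) * I := by
      push_cast; ring
    rw [this, Complex.add_im, Complex.ofReal_im, Complex.im_ofReal_mul, Complex.I_im]; ring
  rw [h1, h2]; ring

theorem norm_factor_le {s : ℝ} (hs0 : 0 ≤ s) (hs : s ≤ 4) :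
    ‖(1 - I * (s : ℂ) / 8 - (s : ℂ) ^ 2 / 16)‖ ≤ 1 - (3 / 128) * s ^ 2 := by
  have h := norm_factor s
  have h4 : s ^ 2 ≤ 16 := by nlinarith
  refine abs_le_of_sq_le_sq' ?_ (by nlinarith) |>.2
  rw [h]
  nlinarith [sq_nonneg (s ^ 2), mul_nonneg (sq_nonneg s) (sub_nonneg.mpr h4)]

theorem norm_one_sub_le {z : ℂ} (hz : ‖z‖ ≤ 1) : ‖1 - z‖ ≤ 2 := by
  calc ‖1 - z‖ ≤ ‖(1 : ℂ)‖ + ‖z‖ := norm_sub_le _ _
    _ ≤ 2 := by rw [norm_one]; linarith

theorem norm_phi_circ_le {z : ℂ} (hz : ‖z‖ = 1) : ‖phi z‖ ≤ 1 - (3 / 128) * ‖1 - z‖ ^ 4 := by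
  rw [phi_circ hz, norm_mul, norm_pow, hz, one_pow, one_mul]
  have h2 : ‖1 - z‖ ^ 2 ≤ 4 := by
    have := norm_one_sub_le hz.le
    nlinarith [norm_nonneg (1 - z)]
  have := norm_factor_le (sq_nonneg ‖1 - z‖) h2
  calc _ ≤ _ := this
    _ = _ := by ring

theorem continuous_phi : Continuous phi := by unfold phi; fun_prop

theorem differentiable_phi : Differentiable ℂ phi := by unfold phi; fun_prop

theorem norm_phi_le {z : ℂ} (hz : ‖z‖ ≤ 1) : ‖phi z‖ ≤ 1 := by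
  have hz' : z ∈ closure (Metric.ball (0 : ℂ) 1) := by
    rw [closure_ball _ one_ne_zero]; simpa using hz
  refine Complex.norm_le_of_forall_mem_frontier_norm_le Metric.isBounded_ball
    (differentiable_phi.diffContOnCl) ?_ hz'
  intro w hw
  rw [frontier_ball _ one_ne_zero] at hw
  have hw1 : ‖w‖ = 1 := by simpa using hw
  have := norm_phi_circ_le hw1
  nlinarith [pow_nonneg (norm_nonneg (1 - w)) 4]

theorem norm_mul_phi_lt {z w : ℂ} (hz : ‖z‖ ≤ 1) (hw : ‖w‖ < 1) : ‖w * phi z‖ < 1 := by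
  rw [norm_mul]
  have := norm_phi_le hz
  nlinarith [norm_nonneg w, norm_nonneg (phi z)]

theorem one_sub_ne {z w : ℂ} (hz : ‖z‖ ≤ 1) (hw : ‖w‖ < 1) : 1 - w * phi z ≠ 0 := by
  intro h
  have h1 : w * phi z = 1 := by linear_combination -h
  have := norm_mul_phi_lt hz hw
  rw [h1, norm_one] at this
  exact lt_irrefl _ this

theorem key_lt {z w : ℂ} (hz : ‖z‖ ≤ 1) (hw : ‖w‖ < 1) :
    ‖1 - z‖ ^ 4 ≤ (128 / 3) * ‖1 - w * phi z‖ := by
  have hz' : z ∈ closure (Metric.ball (0 : ℂ) 1) := by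
    rw [closure_ball _ one_ne_zero]; simpa using hz
  have hG : ‖(1 - z) ^ 4 / (1 - w * phi z)‖ ≤ 128 / 3 := by
    refine Complex.norm_le_of_forall_mem_frontier_norm_le (f := fun z => (1 - z) ^ 4 / (1 - w * phi z))
      (U := Metric.ball (0 : ℂ) 1) Metric.isBounded_ball ?_ ?_ hz'
    · apply DifferentiableOn.diffContOnCl
      rw [closure_ball _ one_ne_zero]
      apply DifferentiableOn.div
      · exact (Differentiable.pow (by fun_prop) 4).differentiableOn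
      · have := differentiable_phi
        exact (Differentiable.differentiableOn (by fun_prop))
      · intro x hx
        exact one_sub_ne (by simpa using hx) hw
    · intro x hx
      rw [frontier_ball _ one_ne_zero] at hx
      have hx1 : ‖x‖ = 1 := by simpa using hx
      have h1 := norm_phi_circ_le hx1
      have h2 : 1 - ‖phi x‖ ≤ ‖1 - w * phi x‖ := by
        have h3 : ‖w * phi x‖ ≤ ‖phi x‖ := by
          rw [norm_mul]; nlinarith [norm_nonneg (phi x), hw]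
        have h4 : ‖(1 : ℂ)‖ - ‖w * phi x‖ ≤ ‖1 - w * phi x‖ := norm_sub_norm_le _ _
        rw [norm_one] at h4
        linarith
      have h5 : 0 < ‖1 - w * phi x‖ := norm_pos_iff.mpr (one_sub_ne hx1.le hw)
      rw [norm_div, norm_pow, div_le_iff₀ h5]
      linarith
  have h5 : 0 < ‖1 - w * phi z‖ := norm_pos_iff.mpr (one_sub_ne hz hw)
  rw [norm_div, norm_pow, div_le_iff₀ h5] at hG
  exact hG

theorem key {z w : ℂ} (hz : ‖z‖ ≤ 1) (hw : ‖w‖ ≤ 1) :
    ‖1 - z‖ ^ 4 ≤ (128 / 3) * ‖1 - w * phi z‖ := by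
  refine le_of_forall_pos_le_add fun e he => ?_
  -- choose t = 1 - d
  set d : ℝ := min (1 / 2) (e * (3 / 128)) with hd
  have hd0 : 0 < d := lt_min (by norm_num) (by positivity)
  have hd1 : d ≤ 1 / 2 := min_le_left _ _
  have hd2 : d ≤ e * (3 / 128) := min_le_right _ _
  have hw' : ‖((1 - d : ℝ) : ℂ) * w‖ < 1 := by
    rw [norm_mul, Complex.norm_real, Real.norm_eq_abs, abs_of_pos (by linarith)]
    nlinarith [norm_nonneg w]
  have h := key_lt hz hw'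
  have h2 : ‖1 - ((1 - d : ℝ) : ℂ) * w * phi z‖ ≤ ‖1 - w * phi z‖ + d := by
    have e1 : 1 - ((1 - d : ℝ) : ℂ) * w * phi z = (1 - w * phi z) + (d : ℂ) * (w * phi z) := by
      push_cast; ring
    rw [e1]
    refine (norm_add_le _ _).trans ?_
    gcongr
    rw [norm_mul, norm_mul, Complex.norm_real, Real.norm_eq_abs, abs_of_pos hd0]
    have := norm_phi_le hz
    have h7 : ‖w‖ * ‖phi z‖ ≤ 1 := by nlinarith [norm_nonneg w, norm_nonneg (phi z)]
    nlinarith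
  linarith

theorem phi_one : phi 1 = 1 := by unfold phi; ring

theorem zero_iff {z w : ℂ} (hz : ‖z‖ ≤ 1) (hw : ‖w‖ ≤ 1) (h : 1 - w * phi z = 0) : z = 1 ∧ w = 1 := by
  have h1 := key hz hw
  rw [h, norm_zero, mul_zero] at h1
  have h2 : ‖1 - z‖ = 0 := by
    by_contra hne
    have : 0 < ‖1 - z‖ := lt_of_le_of_ne (norm_nonneg _) (Ne.symm hne)
    have := pow_pos this 4
    linarith
  have hz1 : z = 1 := by
    have := norm_eq_zero.mp h2
    linear_combination -this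
  refine ⟨hz1, ?_⟩
  rw [hz1, phi_one] at h
  linear_combination -h

end Pool.Agent.Helper41.Dautov
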