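import Mathlib

set_option autoImplicit false

namespace Pool.Agent.Helper41

open MeasureTheory intervalIntegral Set

/-- A splitting-free form of the van der Corput second derivative test:
if `F'' ≥ l > 0` on `[a,b]` then `|∫ exp(iF)| ≤ (1 + 2π)/√l`. -/
theorem vdc {a b l : ℝ} (hab : a ≤ b) (hl : 0 < l) {F F' F'' : ℝ → ℝ}
    (h1 : ∀ x, HasDerivAt F (F' x) x) (h2 : ∀ x, HasDerivAt F' (F'' x) x)
    (hc : Continuous F'') (hF : ∀ x ∈ Icc a b, l ≤ F'' x) :
    ‖∫ x in a..b, Complex.exp (Complex.I * (F x : ℂ))‖ ≤ (1 + 2 * Real.pi) / Real.sqrt l := by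
  set m := Real.sqrt l with hm
  have hm0 : 0 < m := Real.sqrt_pos.mpr hl
  have hm2 : m * m = l := Real.mul_self_sqrt hl.le
  have hcF : Continuous F := continuous_iff_continuousAt.mpr fun x => (h1 x).continuousAt
  have hcF' : Continuous F' := continuous_iff_continuousAt.mpr fun x => (h2 x).continuousAt
  -- weight
  set w : ℝ → ℝ := fun x => F' x / (F' x ^ 2 + m ^ 2) with hw
  set w' : ℝ → ℝ := fun x => F'' x * (m ^ 2 - F' x ^ 2) / (F' x ^ 2 + m ^ 2) ^ 2 with hw'
  have hden : ∀ x, 0 < F' x ^ 2 + m ^ 2 := fun x => by positivity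
  have hdw : ∀ x, HasDerivAt w (w' x) x := by
    intro x
    have hd : HasDerivAt (fun y => F' y ^ 2 + m ^ 2) (2 * F' x * F'' x) x := by
      have := ((h2 x).pow 2).add_const (m ^ 2)
      simpa using this
    have := (h2 x).div hd (hden x).ne'
    refine this.congr_deriv ?_
    simp only [hw']
    congr 1
    ring
  have hcw : Continuous w := continuous_iff_continuousAt.mpr fun x => (hdw x).continuousAt
  have hcw' : Continuous w' := by
    simp only [hw']
    refine Continuous.div (hc.mul (continuous_const.sub (hcF'.pow 2))) ?_ ?_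
    · exact ((hcF'.pow 2).add continuous_const).pow 2
    · intro x; exact (pow_pos (hden x) 2).ne'
  set E : ℝ → ℂ := fun x => Complex.exp (Complex.I * (F x : ℂ)) with hE
  have hEn : ∀ x, ‖E x‖ = 1 := by
    intro x
    simp only [hE]
    rw [mul_comm]
    exact Complex.norm_exp_ofReal_mul_I (F x)
  have hcE : Continuous E := by
    simp only [hE]
    fun_prop
  have hdE : ∀ x, HasDerivAt E (Complex.I * (F' x : ℂ) * E x) x := by
    intro x
    have h3 : HasDerivAt (fun y => Complex.I * (F y : ℂ)) (Complex.I * (F' x : ℂ)) x :=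
      ((h1 x).ofReal_comp).const_mul _
    have := h3.cexp
    simp only [hE]
    refine this.congr_deriv ?_
    ring
  -- derivative of w * E
  have hdwE : ∀ x, HasDerivAt (fun y => (w y : ℂ) * E y)
      ((w' x : ℂ) * E x + (w x : ℂ) * (Complex.I * (F' x : ℂ) * E x)) x := by
    intro x
    exact ((hdw x).ofReal_comp).mul (hdE x)
  have key : ∀ x, E x = -Complex.I * ((w' x : ℂ) * E x + (w x : ℂ) * (Complex.I * (F' x : ℂ) * E x))
      + Complex.I * ((w' x : ℂ) * E x) + ((m ^ 2 / (F' x ^ 2 + m ^ 2) : ℝ) : ℂ) * E x := by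
    intro x
    have e1 : (w x : ℂ) * (F' x : ℂ) + ((m ^ 2 / (F' x ^ 2 + m ^ 2) : ℝ) : ℂ) = 1 := by
      have : w x * F' x + m ^ 2 / (F' x ^ 2 + m ^ 2) = 1 := by
        simp only [hw]
        have := (hden x).ne'
        field_simp
      exact_mod_cast this
    have e2 : -Complex.I * ((w' x : ℂ) * E x + (w x : ℂ) * (Complex.I * (F' x : ℂ) * E x))
      + Complex.I * ((w' x : ℂ) * E x) + ((m ^ 2 / (F' x ^ 2 + m ^ 2) : ℝ) : ℂ) * E x
      = -(Complex.I * Complex.I) * ((w x : ℂ) * (F' x : ℂ)) * E x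
        + ((m ^ 2 / (F' x ^ 2 + m ^ 2) : ℝ) : ℂ) * E x := by ring
    rw [e2, Complex.I_mul_I]
    linear_combination (-(E x)) * e1
  -- bounds
  have hcden : Continuous fun x => m ^ 2 / (F' x ^ 2 + m ^ 2) :=
    continuous_const.div ((hcF'.pow 2).add continuous_const) fun x => (hden x).ne'
  have hcg : Continuous fun x => F'' x / (F' x ^ 2 + m ^ 2) :=
    hc.div ((hcF'.pow 2).add continuous_const) fun x => (hden x).ne'
  have hwb : ∀ x, |w x| ≤ 1 / (2 * m) := by
    intro x
    simp only [hw]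
    rw [abs_div, abs_of_pos (hden x), div_le_div_iff₀ (hden x) (by positivity)]
    nlinarith [sq_nonneg (|F' x| - m), sq_abs (F' x), abs_nonneg (F' x)]
  -- integral of F''/(F'^2+m^2)
  have hI : ∫ x in a..b, F'' x / (F' x ^ 2 + m ^ 2) ≤ Real.pi / m := by
    have hda : ∀ x, HasDerivAt (fun y => Real.arctan (F' y / m) / m)
        (F'' x / (F' x ^ 2 + m ^ 2)) x := by
      intro x
      have := ((h2 x).div_const m).arctan.div_const m
      refine this.congr_deriv ?_
      have := (hden x).ne'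
      have hm0' := hm0.ne'
      field_simp
      ring
    rw [intervalIntegral.integral_eq_sub_of_hasDerivAt (fun x _ => hda x)
      (hcg.intervalIntegrable _ _)]
    have e1 := Real.arctan_lt_pi_div_two (F' b / m)
    have e2 := Real.neg_pi_div_two_lt_arctan (F' a / m)
    rw [← sub_div]
    gcongr
    linarith
  have hFnn : ∀ x ∈ Icc a b, 0 ≤ F'' x := fun x hx => hl.le.trans (hF x hx)
  -- split the integral
  have hsplit : ∫ x in a..b, E x = -Complex.I * ((w b : ℂ) * E b - (w a : ℂ) * E a)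
      + Complex.I * (∫ x in a..b, (w' x : ℂ) * E x)
      + ∫ x in a..b, ((m ^ 2 / (F' x ^ 2 + m ^ 2) : ℝ) : ℂ) * E x := by
    have hc1 : Continuous fun x => (w' x : ℂ) * E x + (w x : ℂ) * (Complex.I * (F' x : ℂ) * E x) := by
      fun_prop
    have hc2 : Continuous fun x => (w' x : ℂ) * E x := by fun_prop
    have hc3 : Continuous fun x => ((m ^ 2 / (F' x ^ 2 + m ^ 2) : ℝ) : ℂ) * E x :=
      (Complex.continuous_ofReal.comp hcden).mul hcE
    have e0 : ∫ x in a..b, ((w' x : ℂ) * E x + (w x : ℂ) * (Complex.I * (F' x : ℂ) * E x))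
        = (w b : ℂ) * E b - (w a : ℂ) * E a :=
      intervalIntegral.integral_eq_sub_of_hasDerivAt (fun x _ => hdwE x)
        (hc1.intervalIntegrable _ _)
    rw [← e0]
    rw [← intervalIntegral.integral_const_mul, ← intervalIntegral.integral_const_mul,
      ← intervalIntegral.integral_add, ← intervalIntegral.integral_add]
    · exact intervalIntegral.integral_congr fun x _ => key x
    · exact ((continuous_const.mul hc1).add (continuous_const.mul hc2)).intervalIntegrable _ _
    · exact hc3.intervalIntegrable _ _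
    · exact (continuous_const.mul hc1).intervalIntegrable _ _
    · exact (continuous_const.mul hc2).intervalIntegrable _ _
  have hB1 : ‖-Complex.I * ((w b : ℂ) * E b - (w a : ℂ) * E a)‖ ≤ 1 / m := by
    rw [norm_mul, norm_neg, Complex.norm_I, one_mul]
    calc ‖(w b : ℂ) * E b - (w a : ℂ) * E a‖ ≤ ‖(w b : ℂ) * E b‖ + ‖(w a : ℂ) * E a‖ := norm_sub_le _ _
      _ = |w b| + |w a| := by
        rw [norm_mul, norm_mul, hEn, hEn, Complex.norm_real, Complex.norm_real]; simp
      _ ≤ 1 / (2 * m) + 1 / (2 * m) := add_le_add (hwb b) (hwb a)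
      _ = 1 / m := by field_simp; ring
  have hB2 : ‖Complex.I * (∫ x in a..b, (w' x : ℂ) * E x)‖ ≤ Real.pi / m := by
    rw [norm_mul, Complex.norm_I, one_mul]
    refine le_trans (intervalIntegral.norm_integral_le_integral_norm hab) (le_trans ?_ hI)
    refine intervalIntegral.integral_mono_on hab ?_ (hcg.intervalIntegrable _ _) ?_
    · have hc2 : Continuous fun x => (w' x : ℂ) * E x := by fun_prop
      exact hc2.norm.intervalIntegrable _ _
    · intro x hx
      rw [norm_mul, hEn, mul_one, Complex.norm_real, Real.norm_eq_abs]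
      simp only [hw']
      rw [abs_div, abs_mul, abs_of_nonneg (hFnn x hx), abs_of_pos (pow_pos (hden x) 2),
        div_le_div_iff₀ (pow_pos (hden x) 2) (hden x)]
      have h5 : |m ^ 2 - F' x ^ 2| ≤ F' x ^ 2 + m ^ 2 := by
        rw [abs_le]; constructor <;> nlinarith [sq_nonneg m, sq_nonneg (F' x)]
      have h6 := hFnn x hx
      have h7 := hden x
      calc F'' x * |m ^ 2 - F' x ^ 2| * (F' x ^ 2 + m ^ 2)
          ≤ F'' x * (F' x ^ 2 + m ^ 2) * (F' x ^ 2 + m ^ 2) := by gcongr
        _ = F'' x * (F' x ^ 2 + m ^ 2) ^ 2 := by ring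
  have hB3 : ‖∫ x in a..b, ((m ^ 2 / (F' x ^ 2 + m ^ 2) : ℝ) : ℂ) * E x‖ ≤ Real.pi / m := by
    refine le_trans (intervalIntegral.norm_integral_le_integral_norm hab) (le_trans ?_ hI)
    refine intervalIntegral.integral_mono_on hab ?_ (hcg.intervalIntegrable _ _) ?_
    · have hc3 : Continuous fun x => ((m ^ 2 / (F' x ^ 2 + m ^ 2) : ℝ) : ℂ) * E x :=
        (Complex.continuous_ofReal.comp hcden).mul hcE
      exact hc3.norm.intervalIntegrable _ _
    · intro x hx
      rw [norm_mul, hEn, mul_one, Complex.norm_real, Real.norm_eq_abs,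
        abs_of_nonneg (div_nonneg (sq_nonneg m) (hden x).le)]
      have h6 := hF x hx
      have h7 := hden x
      have : m ^ 2 = l := by rw [pow_two]; exact hm2
      gcongr
      rw [this]; exact h6
  rw [hsplit]
  calc _ ≤ ‖-Complex.I * ((w b : ℂ) * E b - (w a : ℂ) * E a)‖
        + ‖Complex.I * (∫ x in a..b, (w' x : ℂ) * E x)‖
        + ‖∫ x in a..b, ((m ^ 2 / (F' x ^ 2 + m ^ 2) : ℝ) : ℂ) * E x‖ := norm_add₃_le
    _ ≤ 1 / m + Real.pi / m + Real.pi / m := by gcongr
    _ = (1 + 2 * Real.pi) / m := by ring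

end Pool.Agent.Helper41
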