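import Mathlib
import Pool.Agent.Helper41.VdC
import Pool.Agent.Helper41.DautovBasic

set_option autoImplicit false

namespace Pool.Agent.Helper41.Dautov

open Complex MeasureTheory Set

/-- `s(x) = 2 - 2 cos x = |1 - e^{ix}|^2` -/
noncomputable def ss (x : ℝ) : ℝ := 2 - 2 * Real.cos x

theorem ss_nonneg (x : ℝ) : 0 ≤ ss x := by
  unfold ss; have := Real.cos_le_one x; linarith

theorem ss_le_four (x : ℝ) : ss x ≤ 4 := by
  unfold ss; have := Real.neg_one_le_cos x; linarith

theorem ss_le_sq (x : ℝ) : ss x ≤ x ^ 2 := by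
  unfold ss
  have := Real.one_sub_sq_div_two_le_cos (x := x)
  linarith

theorem norm_exp_I (x : ℝ) : ‖cexp (I * x)‖ = 1 := by
  rw [mul_comm]; exact Complex.norm_exp_ofReal_mul_I x

theorem norm_one_sub_exp_sq (x : ℝ) : ‖1 - cexp (I * x)‖ ^ 2 = ss x := by
  rw [← Complex.normSq_eq_norm_sq, Complex.normSq_apply]
  have h : cexp (I * x) = (Real.cos x : ℂ) + (Real.sin x : ℂ) * I := by
    rw [mul_comm, Complex.exp_mul_I]; simp
  rw [h]
  have h1 : (1 - ((Real.cos x : ℂ) + (Real.sin x : ℂ) * I)).re = 1 - Real.cos x := by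
    rw [Complex.sub_re, Complex.add_re, Complex.ofReal_re, Complex.re_ofReal_mul, Complex.I_re,
      Complex.one_re]; ring
  have h2 : (1 - ((Real.cos x : ℂ) + (Real.sin x : ℂ) * I)).im = - Real.sin x := by
    rw [Complex.sub_im, Complex.add_im, Complex.ofReal_im, Complex.im_ofReal_mul, Complex.I_im,
      Complex.one_im]; ring
  rw [h1, h2]
  unfold ss
  nlinarith [Real.sin_sq_add_cos_sq x]

/-- the slowly varying factor -/
noncomputable def q (x : ℝ) : ℂ :=
  (1 - I * (ss x : ℂ) / 8 - (ss x : ℂ) ^ 2 / 16) * cexp (I * (ss x : ℂ) / 8)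

theorem norm_exp_I_div (s : ℝ) : ‖cexp (I * (s : ℂ) / 8)‖ = 1 := by
  have : I * (s : ℂ) / 8 = ((s / 8 : ℝ) : ℂ) * I := by push_cast; ring
  rw [this]; exact Complex.norm_exp_ofReal_mul_I _

theorem norm_q_le (x : ℝ) : ‖q x‖ ≤ 1 := by
  unfold q
  rw [norm_mul, norm_exp_I_div, mul_one]
  have := norm_factor_le (ss_nonneg x) (ss_le_four x)
  nlinarith [sq_nonneg (ss x)]

theorem norm_q_sub_one_le {x : ℝ} (hx : ss x ≤ 1) : ‖q x - 1‖ ≤ (7 / 64) * ss x ^ 2 := by
  set s := ss x with hs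
  have hs0 : 0 ≤ s := ss_nonneg x
  set t : ℂ := I * (s : ℂ) / 8 with ht
  have htn : ‖t‖ = s / 8 := by
    rw [ht, norm_div, norm_mul, Complex.norm_I, Complex.norm_real, Real.norm_eq_abs,
      abs_of_nonneg hs0]
    simp
  have h1 : ‖cexp t - 1 - t‖ ≤ ‖t‖ ^ 2 := Complex.norm_exp_sub_one_sub_id_le (by rw [htn]; linarith)
  have e : q x - 1 = (1 - t) * (cexp t - 1 - t) - t ^ 2 - ((s : ℂ) ^ 2 / 16) * cexp t := by
    unfold q
    rw [← hs, ← ht]
    ring
  rw [e]
  have h2 : ‖(1 - t) * (cexp t - 1 - t)‖ ≤ (9 / 8) * (s ^ 2 / 64) := by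
    rw [norm_mul]
    have h3 : ‖1 - t‖ ≤ 9 / 8 := by
      refine (norm_sub_le _ _).trans ?_
      rw [norm_one, htn]; linarith
    have h4 : ‖cexp t - 1 - t‖ ≤ s ^ 2 / 64 := by
      refine h1.trans ?_
      rw [htn]; apply le_of_eq; ring
    gcongr
  have h3 : ‖t ^ 2‖ = s ^ 2 / 64 := by rw [norm_pow, htn]; ring
  have h4 : ‖((s : ℂ) ^ 2 / 16) * cexp t‖ = s ^ 2 / 16 := by
    rw [norm_mul, ht, norm_exp_I_div, norm_div, norm_pow, Complex.norm_real, Real.norm_eq_abs,
      abs_of_nonneg hs0]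
    simp
  calc _ ≤ ‖(1 - t) * (cexp t - 1 - t)‖ + ‖t ^ 2‖ + ‖((s : ℂ) ^ 2 / 16) * cexp t‖ := by
        refine (norm_sub_le _ _).trans ?_
        gcongr
        exact norm_sub_le _ _
    _ ≤ (9 / 8) * (s ^ 2 / 64) + s ^ 2 / 64 + s ^ 2 / 16 := by rw [h3, h4]; gcongr
    _ ≤ _ := by nlinarith [sq_nonneg s]

theorem norm_pow_sub_one_le {w : ℂ} (hw : ‖w‖ ≤ 1) (k : ℕ) : ‖w ^ k - 1‖ ≤ k * ‖w - 1‖ := by
  induction k with
  | zero => simp
  | succ n ih =>
    have e : w ^ (n + 1) - 1 = w ^ n * (w - 1) + (w ^ n - 1) := by ring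
    rw [e]
    refine (norm_add_le _ _).trans ?_
    rw [norm_mul, norm_pow]
    have h1 : ‖w‖ ^ n ≤ 1 := pow_le_one₀ (norm_nonneg _) hw
    push_cast
    nlinarith [norm_nonneg (w - 1)]

theorem re_q_pow {x : ℝ} {k : ℕ} (hx : ss x ≤ 1) (hk : (k : ℝ) * ss x ^ 2 ≤ 1) :
    1 / 2 ≤ (q x ^ k).re := by
  have h1 := norm_pow_sub_one_le (norm_q_le x) k
  have h2 := norm_q_sub_one_le hx
  have h3 : ‖q x ^ k - 1‖ ≤ 1 / 2 := by
    refine h1.trans ?_
    calc (k : ℝ) * ‖q x - 1‖ ≤ k * ((7 / 64) * ss x ^ 2) := by gcongr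
      _ ≤ 1 / 2 := by nlinarith
  have h4 := Complex.abs_re_le_norm (q x ^ k - 1)
  rw [Complex.sub_re, Complex.one_re] at h4
  have := (abs_le.mp (h4.trans h3)).1
  linarith

/-- the polynomial `φ` -/
noncomputable def phiP : Polynomial ℂ :=
  Polynomial.X ^ 2 + Polynomial.C (I / 8) * Polynomial.X * (1 - Polynomial.X) ^ 2
    - Polynomial.C (1 / 16) * (1 - Polynomial.X) ^ 4

theorem eval_phiP (z : ℂ) : phiP.eval z = phi z := by
  unfold phiP phi; simp

/-- the row polynomial `(1-X)^5 φ^k` -/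
noncomputable def row (k : ℕ) : Polynomial ℂ := (1 - Polynomial.X) ^ 5 * phiP ^ k

theorem eval_row (k : ℕ) (z : ℂ) : (row k).eval z = (1 - z) ^ 5 * phi z ^ k := by
  unfold row; simp [eval_phiP]

/-- test function -/
noncomputable def psi (k : ℕ) (x : ℝ) : ℂ :=
  I * cexp (-(I * ((2 * k + 5 / 2 : ℝ) : ℂ) * x)) * cexp (I * (k : ℂ) * (ss x : ℂ) / 8)

theorem one_sub_exp (x : ℝ) : 1 - cexp (I * x) = -2 * I * (Real.sin (x / 2) : ℂ) * cexp (I * x / 2) := by
  have h1 : cexp (I * x) = cexp (I * x / 2) * cexp (I * x / 2) := by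
    rw [← Complex.exp_add]; congr 1; ring
  have h2 : (Real.sin (x / 2) : ℂ) = (cexp (-(I * x / 2)) - cexp (I * x / 2)) * I / 2 := by
    rw [Complex.ofReal_sin, Complex.sin]
    have e1 : -((x / 2 : ℝ) : ℂ) * I = -(I * x / 2) := by push_cast; ring
    have e2 : ((x / 2 : ℝ) : ℂ) * I = I * x / 2 := by push_cast; ring
    rw [e1, e2]
  have h3 : cexp (-(I * x / 2)) * cexp (I * x / 2) = 1 := by
    rw [← Complex.exp_add]; simp
  rw [h2, h1]
  linear_combination ((-1 : ℂ)) * h3 + ((cexp (-(I * x / 2)) - cexp (I * x / 2)) * cexp (I * x / 2)) * Complex.I_mul_I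

theorem row_mul_psi (k : ℕ) (x : ℝ) :
    (row k).eval (cexp (I * x)) * psi k x = 32 * ((Real.sin (x / 2)) ^ 5 : ℝ) * q x ^ k := by
  have hn := norm_exp_I x
  rw [eval_row, phi_circ hn, norm_one_sub_exp_sq, one_sub_exp]
  unfold psi q
  set s : ℂ := (ss x : ℂ)
  set P : ℂ := (1 - I * s / 8 - s ^ 2 / 16)
  have h1 : cexp (I * x) ^ 2 = cexp (2 * (I * x)) := by rw [← Complex.exp_nat_mul]; simp
  have h2 : cexp (I * x / 2) ^ 5 = cexp (5 * (I * x / 2)) := by
    rw [← Complex.exp_nat_mul]; simp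
  have h3 : cexp (I * s / 8) ^ k = cexp (I * (k : ℂ) * s / 8) := by
    rw [← Complex.exp_nat_mul]; congr 1; ring
  have h4 : (cexp (2 * (I * x))) ^ k = cexp (k * (2 * (I * x))) := by
    rw [← Complex.exp_nat_mul]
  have h5 : cexp (5 * (I * x / 2)) * cexp (k * (2 * (I * x))) *
      cexp (-(I * ((2 * k + 5 / 2 : ℝ) : ℂ) * x)) = 1 := by
    rw [← Complex.exp_add, ← Complex.exp_add]
    have : 5 * (I * (x : ℂ) / 2) + k * (2 * (I * x)) + -(I * ((2 * k + 5 / 2 : ℝ) : ℂ) * x) = 0 := by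
      push_cast; ring
    rw [this, Complex.exp_zero]
  have h6 : I ^ 6 = -1 := by
    have : I ^ 6 = (I ^ 2) ^ 3 := by ring
    rw [this, Complex.I_sq]; norm_num
  rw [mul_pow, mul_pow (cexp (I * x) ^ 2), h1, h4, h2,
    mul_pow P, h3]
  push_cast
  have e : (-2 * I * Complex.sin ((x : ℂ) / 2)) ^ 5 * I = 32 * Complex.sin ((x : ℂ) / 2) ^ 5 := by
    have : (-2 * I * Complex.sin ((x : ℂ) / 2)) ^ 5 * I = -32 * I ^ 6 * Complex.sin ((x : ℂ) / 2) ^ 5 := by ring
    rw [this, h6]; ring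
  calc _ = ((-2 * I * Complex.sin ((x : ℂ) / 2)) ^ 5 * I) * P ^ k * cexp (I * (k : ℂ) * s / 8) *
        (cexp (5 * (I * x / 2)) * cexp (k * (2 * (I * x))) *
      cexp (-(I * ((2 * k + 5 / 2 : ℝ) : ℂ) * x))) := by push_cast; ring
    _ = _ := by rw [h5, e]; ring

theorem continuous_ss : Continuous ss := by unfold ss; fun_prop

theorem continuous_psi (k : ℕ) : Continuous (psi k) := by
  unfold psi
  have := continuous_ss
  fun_prop

theorem continuous_q : Continuous q := by
  unfold q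
  have := continuous_ss
  fun_prop

/-- van der Corput bound for the test function -/
theorem psi_coeff_bound {k : ℕ} (hk : 0 < k) {e : ℝ} (he0 : 0 ≤ e) (he : e ≤ 1) (j : ℕ) :
    ‖∫ x in (0 : ℝ)..e, cexp (I * x) ^ j * psi k x‖
      ≤ (1 + 2 * Real.pi) / Real.sqrt (k / 8) := by
  set al : ℝ := (j : ℝ) - (2 * k + 5 / 2) with hal
  have h := Pool.Agent.Helper41.vdc (a := 0) (b := e) (l := k / 8) he0 (by positivity)
    (F := fun x => k / 8 * (2 - 2 * Real.cos x) + al * x)
    (F' := fun x => k / 4 * Real.sin x + al)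
    (F'' := fun x => k / 4 * Real.cos x)
    (by
      intro x
      have h1 := ((((Real.hasDerivAt_cos x).const_mul 2).const_sub 2).const_mul ((k : ℝ) / 8)).add
        ((hasDerivAt_id x).const_mul al)
      refine h1.congr_deriv ?_
      ring)
    (by
      intro x
      have h1 := ((Real.hasDerivAt_sin x).const_mul ((k : ℝ) / 4)).add_const al
      exact h1)
    (by fun_prop)
    (by
      intro x hx
      have h1 : 1 / 2 ≤ Real.cos x := by
        have h2 := Real.one_sub_sq_div_two_le_cos (x := x)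
        have h3 : x ^ 2 ≤ 1 := by
          have := hx.1; have := hx.2
          nlinarith
        linarith
      have : (0 : ℝ) < k := by exact_mod_cast hk
      nlinarith)
  have e1 : ∀ x : ℝ, cexp (I * x) ^ j * psi k x
      = I * cexp (I * ((k / 8 * (2 - 2 * Real.cos x) + al * x : ℝ) : ℂ)) := by
    intro x
    unfold psi
    have e2 : cexp (I * x) ^ j = cexp (j * (I * x)) := by rw [← Complex.exp_nat_mul]
    have e3 : I * cexp (I * ((k / 8 * (2 - 2 * Real.cos x) + al * x : ℝ) : ℂ)) =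
        I * (cexp (j * (I * x)) * cexp (-(I * ((2 * k + 5 / 2 : ℝ) : ℂ) * x)) *
          cexp (I * (k : ℂ) * (ss x : ℂ) / 8)) := by
      rw [← Complex.exp_add, ← Complex.exp_add]
      congr 2
      simp only [hal, ss]
      push_cast
      ring
    rw [e2, e3]; ring
  simp_rw [e1]
  rw [intervalIntegral.integral_const_mul, norm_mul, Complex.norm_I, one_mul]
  exact h

/-- The row sums: lower bound `c / k`. -/
theorem row_lower {k : ℕ} (hk : 0 < k) :
    ((16 / (6 * Real.pi ^ 5)) / (1 + 2 * Real.pi) * Real.sqrt (1 / 8)) / k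
      ≤ ∑ j ∈ Finset.range ((row k).natDegree + 1), ‖(row k).coeff j‖ := by
  have hk0 : (0 : ℝ) < k := by exact_mod_cast hk
  have hk1 : (1 : ℝ) ≤ k := by exact_mod_cast hk
  set e : ℝ := Real.sqrt (Real.sqrt (1 / k)) with he
  have he0 : 0 < e := by positivity
  have he2 : e ^ 2 = Real.sqrt (1 / k) := Real.sq_sqrt (Real.sqrt_nonneg _)
  have he4 : e ^ 4 = 1 / k := by
    have : e ^ 4 = (e ^ 2) ^ 2 := by ring
    rw [this, he2, Real.sq_sqrt (by positivity)]
  have he1 : e ≤ 1 := by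
    by_contra hc
    push Not at hc
    have h1 : 1 < e ^ 4 := one_lt_pow₀ hc (by norm_num)
    rw [he4] at h1
    have : 1 / (k : ℝ) ≤ 1 := by rw [div_le_one hk0]; exact hk1
    linarith
  set J : ℂ := ∫ x in (0 : ℝ)..e, (row k).eval (cexp (I * x)) * psi k x with hJ
  set S := ∑ j ∈ Finset.range ((row k).natDegree + 1), ‖(row k).coeff j‖ with hS
  have hcψ := continuous_psi k
  -- upper bound
  have hup : ‖J‖ ≤ S * ((1 + 2 * Real.pi) / Real.sqrt (k / 8)) := by
    have e1 : J = ∑ j ∈ Finset.range ((row k).natDegree + 1),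
        (row k).coeff j * ∫ x in (0 : ℝ)..e, cexp (I * x) ^ j * psi k x := by
      rw [hJ]
      have : ∀ x : ℝ, (row k).eval (cexp (I * x)) * psi k x
          = ∑ j ∈ Finset.range ((row k).natDegree + 1),
            (row k).coeff j * (cexp (I * x) ^ j * psi k x) := by
        intro x
        rw [Polynomial.eval_eq_sum_range, Finset.sum_mul]
        refine Finset.sum_congr rfl fun j _ => ?_
        ring
      simp_rw [this]
      rw [intervalIntegral.integral_finsetSum]
      · refine Finset.sum_congr rfl fun j _ => ?_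
        rw [intervalIntegral.integral_const_mul]
      · intro j _
        apply Continuous.intervalIntegrable
        fun_prop
    rw [e1, hS, Finset.sum_mul]
    refine (norm_sum_le _ _).trans ?_
    refine Finset.sum_le_sum fun j _ => ?_
    rw [norm_mul]
    gcongr
    exact psi_coeff_bound hk he0.le he1 j
  -- lower bound
  have hlow : (16 / (6 * Real.pi ^ 5)) * e ^ 6 ≤ ‖J‖ := by
    refine le_trans ?_ (Complex.re_le_norm J)
    have hcont : Continuous fun x : ℝ => 32 * ((Real.sin (x / 2)) ^ 5 : ℝ) * q x ^ k := by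
      have := continuous_q
      fun_prop
    have e2 : J.re = ∫ x in (0 : ℝ)..e, (32 * (((Real.sin (x / 2)) ^ 5 : ℝ) : ℂ) * q x ^ k).re := by
      rw [hJ]
      simp_rw [row_mul_psi]
      have hii : IntervalIntegrable (fun x : ℝ => 32 * (((Real.sin (x / 2)) ^ 5 : ℝ) : ℂ) * q x ^ k)
          MeasureTheory.volume 0 e := by
        apply Continuous.intervalIntegrable
        have := continuous_q
        fun_prop
      have := Complex.reCLM.intervalIntegral_comp_comm hii
      simpa using this.symm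
    rw [e2]
    have e3 : (16 / (6 * Real.pi ^ 5)) * e ^ 6 = ∫ x in (0 : ℝ)..e, (16 / Real.pi ^ 5) * x ^ 5 := by
      rw [intervalIntegral.integral_const_mul, integral_pow]
      have := Real.pi_pos.ne'
      simp
      field_simp
      ring
    rw [e3]
    refine intervalIntegral.integral_mono_on he0.le ?_ ?_ ?_
    · apply Continuous.intervalIntegrable; fun_prop
    · apply Continuous.intervalIntegrable
      have := continuous_q
      have h9 : Continuous fun x : ℝ => (32 * (((Real.sin (x / 2)) ^ 5 : ℝ) : ℂ) * q x ^ k) := by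
        fun_prop
      exact Complex.continuous_re.comp h9
    · intro x hx
      have hx0 := hx.1
      have hx1 := hx.2
      have hs : ss x ≤ 1 := by
        refine (ss_le_sq x).trans ?_
        nlinarith
      have hs2 : (k : ℝ) * ss x ^ 2 ≤ 1 := by
        have h1 : ss x ^ 2 ≤ e ^ 4 := by
          have h2 : ss x ≤ e ^ 2 := (ss_le_sq x).trans (by gcongr)
          calc ss x ^ 2 ≤ (e ^ 2) ^ 2 := by
                have := ss_nonneg x
                gcongr
            _ = e ^ 4 := by ring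
        rw [he4] at h1
        calc (k : ℝ) * ss x ^ 2 ≤ k * (1 / k) := by gcongr
          _ = 1 := by field_simp
      have hre := re_q_pow hs hs2
      have hsin : x / Real.pi ≤ Real.sin (x / 2) := by
        have := Real.mul_le_sin (x := x / 2) (by linarith) (by
          have := Real.pi_gt_three; linarith)
        calc x / Real.pi = 2 / Real.pi * (x / 2) := by field_simp
          _ ≤ _ := this
      have e4 : (32 * (((Real.sin (x / 2)) ^ 5 : ℝ) : ℂ) * q x ^ k).re
          = 32 * (Real.sin (x / 2)) ^ 5 * (q x ^ k).re := by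
        have : (32 * (((Real.sin (x / 2)) ^ 5 : ℝ) : ℂ) * q x ^ k)
          = ((32 * (Real.sin (x / 2)) ^ 5 : ℝ) : ℂ) * q x ^ k := by push_cast; ring
        rw [this, Complex.re_ofReal_mul]
      rw [e4]
      have hp : 0 ≤ x / Real.pi := by positivity
      have h7 : (x / Real.pi) ^ 5 ≤ Real.sin (x / 2) ^ 5 := by gcongr
      have h8 : 0 ≤ (x / Real.pi) ^ 5 := by positivity
      have h10 : 0 ≤ Real.sin (x / 2) ^ 5 := h8.trans h7
      calc 16 / Real.pi ^ 5 * x ^ 5 = 32 * (x / Real.pi) ^ 5 * (1 / 2) := by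
            rw [div_pow]; ring
        _ ≤ 32 * Real.sin (x / 2) ^ 5 * (q x ^ k).re := by gcongr
  -- combine
  have hcomb := hlow.trans hup
  have hsq : Real.sqrt (k / 8) = Real.sqrt (1 / 8) * Real.sqrt k := by
    rw [← Real.sqrt_mul (by norm_num)]; congr 1; ring
  have he6 : e ^ 6 = (1 / k) * (1 / Real.sqrt k) := by
    have : e ^ 6 = e ^ 4 * e ^ 2 := by ring
    rw [this, he4, he2, Real.sqrt_div zero_le_one, Real.sqrt_one]
  rw [he6, hsq] at hcomb
  have hsk : 0 < Real.sqrt k := Real.sqrt_pos.mpr hk0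
  have hs8 : 0 < Real.sqrt (1 / 8) := Real.sqrt_pos.mpr (by norm_num)
  have hpi := Real.pi_pos
  have h1 : 0 < 1 + 2 * Real.pi := by positivity
  have e5 : S * ((1 + 2 * Real.pi) / (Real.sqrt (1 / 8) * Real.sqrt k))
      = (S * (1 + 2 * Real.pi) / Real.sqrt (1 / 8)) * (1 / Real.sqrt k) := by
    field_simp
  have e6 : 16 / (6 * Real.pi ^ 5) * (1 / ↑k * (1 / Real.sqrt ↑k))
      = (16 / (6 * Real.pi ^ 5) * (1 / k)) * (1 / Real.sqrt k) := by ring
  rw [e5, e6] at hcomb
  have h2 := le_of_mul_le_mul_right hcomb (by positivity)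
  rw [le_div_iff₀ hs8] at h2
  rw [div_le_iff₀ hk0, div_mul_eq_mul_div, div_le_iff₀ h1]
  calc 16 / (6 * Real.pi ^ 5) * Real.sqrt (1 / 8)
      = (16 / (6 * Real.pi ^ 5) * (1 / k) * Real.sqrt (1 / 8)) * k := by field_simp
    _ ≤ (S * (1 + 2 * Real.pi)) * k := by gcongr
    _ = S * k * (1 + 2 * Real.pi) := by ring

end Pool.Agent.Helper41.Dautov
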