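import Mathlib
import Pool.Agent.Helper41.DautovRow

set_option autoImplicit false

namespace Pool.Agent.Helper41.Dautov

open Complex

/-- numerator -/
noncomputable def PA : MvPolynomial (Fin 2) ℂ := (1 - MvPolynomial.X 0) ^ 5

/-- denominator -/
noncomputable def PB : MvPolynomial (Fin 2) ℂ :=
  1 - MvPolynomial.X 1 * (MvPolynomial.X 0 ^ 2
    + MvPolynomial.C (I / 8) * MvPolynomial.X 0 * (1 - MvPolynomial.X 0) ^ 2
    - MvPolynomial.C (1 / 16) * (1 - MvPolynomial.X 0) ^ 4)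

theorem eval_PA (z : Fin 2 → ℂ) : MvPolynomial.eval z PA = (1 - z 0) ^ 5 := by
  unfold PA; simp

theorem eval_PB (z : Fin 2 → ℂ) : MvPolynomial.eval z PB = 1 - z 1 * phi (z 0) := by
  unfold PB phi; simp

theorem irr : Irreducible (1 - MvPolynomial.X 0 : MvPolynomial (Fin 2) ℂ) := by
  have hc : ∀ d : Fin 2 →₀ ℕ, MvPolynomial.coeff d (1 - MvPolynomial.X 0 : MvPolynomial (Fin 2) ℂ)
      = (if 0 = d then 1 else 0) - (if Finsupp.single 0 1 = d then 1 else 0) := by
    intro d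
    rw [MvPolynomial.coeff_sub, MvPolynomial.coeff_one, MvPolynomial.coeff_X]
  have hne : (Finsupp.single (0 : Fin 2) 1 : Fin 2 →₀ ℕ) ≠ 0 := by simp
  apply MvPolynomial.irreducible_of_totalDegree_eq_one
  · apply le_antisymm
    · refine (MvPolynomial.totalDegree_sub _ _).trans ?_
      simp
    · have hmem : Finsupp.single (0 : Fin 2) 1 ∈
          (1 - MvPolynomial.X 0 : MvPolynomial (Fin 2) ℂ).support := by
        rw [MvPolynomial.mem_support_iff, hc, if_neg hne.symm, if_pos rfl]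
        simp
      have := MvPolynomial.le_totalDegree hmem
      simpa using this
  · intro x hx
    have h0 := hx 0
    rw [hc, if_pos rfl, if_neg hne, sub_zero] at h0
    exact isUnit_of_dvd_one h0

theorem relPrime : IsRelPrime PA PB := by
  unfold PA
  have h1 : IsRelPrime (1 - MvPolynomial.X 0 : MvPolynomial (Fin 2) ℂ) PB := by
    rw [irr.isRelPrime_iff_not_dvd]
    rintro ⟨c, hc⟩
    have := congrArg (MvPolynomial.eval ![1, 0]) hc
    rw [eval_PB] at this
    simp at this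
  exact h1.pow_left

/-- coefficients -/
noncomputable def h (j k : ℕ) : ℂ := (row k).coeff j

theorem norm_h_le (j k : ℕ) : ‖h j k‖ ≤ 32 := by
  unfold h
  by_cases hj : j ∈ (row k).support
  · have h1 := (row k).sum_sq_norm_coeff_eq_circleAverage
    have h2 : ‖(row k).coeff j‖ ^ 2 ≤ ∑ i ∈ (row k).support, ‖(row k).coeff i‖ ^ 2 :=
      Finset.single_le_sum (f := fun i => ‖(row k).coeff i‖ ^ 2) (fun i _ => by positivity) hj
    have h3 : Real.circleAverage (fun θ ↦ ‖(row k).eval θ‖ ^ 2) 0 1 ≤ 32 ^ 2 := by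
      apply Real.circleAverage_mono_on_of_le_circle
      · apply ContinuousOn.circleIntegrable zero_le_one
        apply Continuous.continuousOn
        fun_prop
      · intro x hx
        have hx1 : ‖x‖ = 1 := by simpa using hx
        rw [eval_row, norm_mul, norm_pow, norm_pow]
        have h4 := norm_phi_le hx1.le
        have h5 := norm_one_sub_le hx1.le
        have h6 : ‖phi x‖ ^ k ≤ 1 := pow_le_one₀ (norm_nonneg _) h4
        have h7 : ‖1 - x‖ ^ 5 ≤ 2 ^ 5 := by gcongr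
        have h8 : ‖1 - x‖ ^ 5 * ‖phi x‖ ^ k ≤ 32 := by
          calc _ ≤ (2 : ℝ) ^ 5 * 1 := by gcongr
            _ = 32 := by norm_num
        gcongr
    rw [h1] at h2
    exact abs_le_of_sq_le_sq' (h2.trans h3) (by norm_num) |>.2
  · rw [Polynomial.notMem_support_iff.mp hj]; simp

theorem summable_h {z : Fin 2 → ℂ} (hz : ∀ i, ‖z i‖ < 1) :
    Summable fun p : ℕ × ℕ => h p.1 p.2 * z 0 ^ p.1 * z 1 ^ p.2 := by
  have h0 := summable_geometric_of_lt_one (norm_nonneg _) (hz 0)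
  have h1 := summable_geometric_of_lt_one (norm_nonneg _) (hz 1)
  have h2 := (h0.mul_of_nonneg h1 (fun n => by positivity) (fun n => by positivity)).mul_left 32
  refine Summable.of_norm_bounded h2 ?_
  intro p
  rw [norm_mul, norm_mul, norm_pow, norm_pow, mul_assoc]
  gcongr
  exact norm_h_le _ _

theorem hasSum_row (k : ℕ) (z w : ℂ) :
    HasSum (fun j => h j k * z ^ j * w ^ k) ((1 - z) ^ 5 * phi z ^ k * w ^ k) := by
  rw [← eval_row, Polynomial.eval_eq_sum_range, Finset.sum_mul]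
  apply hasSum_sum_of_ne_finset_zero
  intro j hj
  have : (row k).coeff j = 0 := by
    apply Polynomial.coeff_eq_zero_of_natDegree_lt
    simpa using hj
  unfold h
  rw [this]; simp

theorem hasSum_h {z : Fin 2 → ℂ} (hz : ∀ i, ‖z i‖ < 1) :
    HasSum (fun p : ℕ × ℕ => h p.1 p.2 * z 0 ^ p.1 * z 1 ^ p.2)
      (MvPolynomial.eval z PA / MvPolynomial.eval z PB) := by
  rw [eval_PA, eval_PB]
  obtain ⟨T, hT⟩ := summable_h hz
  have hT' := (Equiv.prodComm ℕ ℕ).hasSum_iff.mpr hT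
  have h1 : HasSum (fun k => (1 - z 0) ^ 5 * phi (z 0) ^ k * z 1 ^ k) T :=
    hT'.prod_fiberwise (fun k => hasSum_row k (z 0) (z 1))
  have hlt : ‖z 1 * phi (z 0)‖ < 1 := norm_mul_phi_lt (hz 0).le (hz 1)
  have h2 : HasSum (fun k => (1 - z 0) ^ 5 * (z 1 * phi (z 0)) ^ k)
      ((1 - z 0) ^ 5 * (1 - z 1 * phi (z 0))⁻¹) :=
    (hasSum_geometric_of_norm_lt_one hlt).mul_left _
  have h3 : (fun k : ℕ => (1 - z 0) ^ 5 * phi (z 0) ^ k * z 1 ^ k)
      = fun k => (1 - z 0) ^ 5 * (z 1 * phi (z 0)) ^ k := by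
    funext k; rw [mul_pow]; ring
  rw [h3] at h1
  rw [h1.unique h2] at hT
  rw [div_eq_mul_inv]
  exact hT

theorem not_summable : ¬ Summable fun p : ℕ × ℕ => ‖h p.1 p.2‖ := by
  intro hs
  have hs' : Summable fun p : ℕ × ℕ => ‖h p.2 p.1‖ :=
    ((Equiv.prodComm ℕ ℕ).summable_iff (f := fun p : ℕ × ℕ => ‖h p.1 p.2‖)).mpr hs
  have h1 : Summable fun k => ∑' j, ‖h j k‖ := hs'.prod
  set c : ℝ := ((16 / (6 * Real.pi ^ 5)) / (1 + 2 * Real.pi) * Real.sqrt (1 / 8)) with hc
  have hc0 : 0 < c := by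
    have := Real.pi_pos
    have h8 : 0 < Real.sqrt (1 / 8) := Real.sqrt_pos.mpr (by norm_num)
    positivity
  have h2 : Summable fun k : ℕ => c / k := by
    refine Summable.of_nonneg_of_le (fun k => by positivity) ?_ h1
    intro k
    rcases Nat.eq_zero_or_pos k with hk | hk
    · subst hk
      simp only [Nat.cast_zero, div_zero]
      exact tsum_nonneg fun j => norm_nonneg _
    · refine (row_lower hk).trans ?_
      exact (hs'.prod_factor k).sum_le_tsum _ (fun j _ => norm_nonneg _)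
  have h3 : Summable fun k : ℕ => (1 : ℝ) / k := by
    have := h2.mul_left (c⁻¹)
    refine this.congr fun k => ?_
    field_simp
  exact Real.not_summable_one_div_natCast h3

/-- the extension -/
noncomputable def F (z : Fin 2 → ℂ) : ℂ := MvPolynomial.eval z PA / MvPolynomial.eval z PB

theorem norm_F_le {z : Fin 2 → ℂ} (hz : ∀ i, ‖z i‖ ≤ 1) : ‖F z‖ ≤ (128 / 3) * ‖1 - z 0‖ := by
  unfold F
  rw [eval_PA, eval_PB]
  by_cases h0 : 1 - z 1 * phi (z 0) = 0
  · rw [h0]; simp
  · have hpos : 0 < ‖1 - z 1 * phi (z 0)‖ := norm_pos_iff.mpr h0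
    rw [norm_div, norm_pow, div_le_iff₀ hpos]
    have := key (hz 0) (hz 1)
    calc ‖1 - z 0‖ ^ 5 = ‖1 - z 0‖ ^ 4 * ‖1 - z 0‖ := by ring
      _ ≤ (128 / 3) * ‖1 - z 1 * phi (z 0)‖ * ‖1 - z 0‖ := by gcongr
      _ = _ := by ring

theorem continuousOn_F : ContinuousOn F {z : Fin 2 → ℂ | ∀ i, ‖z i‖ ≤ 1} := by
  intro z hz
  have hcB : Continuous fun w : Fin 2 → ℂ => 1 - w 1 * phi (w 0) := by
    have := continuous_phi
    fun_prop
  by_cases h0 : 1 - z 1 * phi (z 0) = 0
  · have hF : F z = 0 := by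
      unfold F; rw [eval_PA, eval_PB, h0]; simp
    have hz1 := (zero_iff (hz 0) (hz 1) h0).1
    rw [ContinuousWithinAt, hF]
    rw [tendsto_zero_iff_norm_tendsto_zero]
    refine squeeze_zero' (g := fun w : Fin 2 → ℂ => (128 / 3) * ‖1 - w 0‖)
      (Filter.Eventually.of_forall fun w => norm_nonneg _) ?_ ?_
    · filter_upwards [self_mem_nhdsWithin] with w hw
      exact norm_F_le hw
    · have : Continuous fun w : Fin 2 → ℂ => (128 / 3) * ‖1 - w 0‖ := by fun_prop
      have h9 := (this.tendsto z).mono_left (nhdsWithin_le_nhds (s := {z : Fin 2 → ℂ | ∀ i, ‖z i‖ ≤ 1}))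
      simpa [hz1] using h9
  · apply ContinuousAt.continuousWithinAt
    unfold F
    have e : (fun w : Fin 2 → ℂ => MvPolynomial.eval w PA / MvPolynomial.eval w PB)
        = fun w => (1 - w 0) ^ 5 / (1 - w 1 * phi (w 0)) := by
      funext w; rw [eval_PA, eval_PB]
    rw [e]
    have hcA : Continuous fun w : Fin 2 → ℂ => (1 - w 0) ^ 5 := by fun_prop
    exact ContinuousAt.div hcA.continuousAt hcB.continuousAt h0

theorem zeros (z : Fin 2 → ℂ) (hz : ∀ i, ‖z i‖ ≤ 1) (h0 : MvPolynomial.eval z PB = 0) :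
    (∀ i, ‖z i‖ = 1) ∧ MvPolynomial.eval z PA = 0 := by
  rw [eval_PB] at h0
  obtain ⟨h1, h2⟩ := zero_iff (hz 0) (hz 1) h0
  refine ⟨?_, ?_⟩
  · intro i
    fin_cases i
    · simp [h1]
    · simp [h2]
  · rw [eval_PA, h1]; simp

end Pool.Agent.Helper41.Dautov
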