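import Pool.Agent.Helper83.ET.PCode
import Pool.Agent.Helper83.ET.VarZ
import Pool.Agent.ETS.Zone

/-!
# (PP): pairs of regions of `P` type with the same bottom

Counting of the pairs of variables of two regions of kind `P` or `PT` with the same bottom for
which the sum of the contents is prescribed modulo the smaller length.
-/

namespace Pool.Agent.Helper41.ETPP

open Finset Pool.Agent.Helper83.ET Pool.Agent.Helper41.ETV

/-- Variables of `V l` in a residue class, sharp exponent. -/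
theorem cls_aux (l k c : ℕ) :
    ((V l).filter (fun z => z % 2 ^ (k + 2) = c)).card ≤ 2 ^ ((l + 1) / 2 - (k + 2)) := by
  set P := (V l).filter (fun z => z % 2 ^ (k + 2) = c) with hP
  rcases P.eq_empty_or_nonempty with h0 | ⟨q0, hq0⟩
  · rw [h0]; simp
  have hq0' := hq0
  rw [hP, Finset.mem_filter] at hq0'
  obtain ⟨a0, -, -, -, -, ha0⟩ := mem_V.mp hq0'.1
  have h1 : P.card = (P.image (fun z => z / rr l)).card := by
    symm
    apply Finset.card_image_of_injOn
    intro x hx y hy hxy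
    have hx' := Finset.mem_coe.mp hx
    have hy' := Finset.mem_coe.mp hy
    rw [hP, Finset.mem_filter] at hx' hy'
    obtain ⟨a, -, -, -, -, ha⟩ := mem_V.mp hx'.1
    obtain ⟨b, -, -, -, -, hb⟩ := mem_V.mp hy'.1
    have h3 : x / rr l = y / rr l := hxy
    rw [ha, hb, Nat.mul_div_cancel_left _ (rr_pos l), Nat.mul_div_cancel_left _ (rr_pos l)] at h3
    rw [ha, hb, h3]
  rw [h1]
  apply class_card _ k (a0 % 2 ^ (k + 2))
  intro x hx
  obtain ⟨z, hz, rfl⟩ := Finset.mem_image.mp hx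
  rw [hP, Finset.mem_filter] at hz
  obtain ⟨a, -, -, ha2, -, ha⟩ := mem_V.mp hz.1
  have e : z / rr l = a := by rw [ha, Nat.mul_div_cancel_left _ (rr_pos l)]
  simp only [e]
  constructor
  · by_contra hcon
    push Not at hcon
    have h3 : 2 ^ ((l + 1) / 2) * 2 ^ ((l + 1) / 2) ≤ a * a := Nat.mul_le_mul hcon hcon
    rw [← pow_add] at h3
    have h4 : 2 ^ l ≤ 2 ^ ((l + 1) / 2 + (l + 1) / 2) :=
      Nat.pow_le_pow_right (by norm_num) (by omega)
    omega
  · apply cancel_mod _ (rr l) _ _ (rr_odd l)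
    rw [← ha, ← ha0, hz.2, hq0'.2]

theorem cls_auxZ (l k c : ℕ) :
    ((VZ l).filter (fun z => z % 2 ^ (k + 2) = c)).card ≤ 2 ^ ((l + 1) / 2 - (k + 2)) := by
  rcases Nat.lt_or_ge 4 l with h | h
  · rw [VZ_pos h]
    exact cls_aux l k c
  · rw [VZ_small h]
    have h1 := Finset.card_filter_le ({1} : Finset ℕ) (fun z => z % 2 ^ (k + 2) = c)
    rw [Finset.card_singleton] at h1
    exact h1.trans Nat.one_le_two_pow

theorem pairs_auxZ (l l' k c h : ℕ) (hh : l + l' ≤ 2 * h) :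
    ((VZ l ×ˢ VZ l').filter (fun q => q.1 * q.2 % 2 ^ (k + 2) = c)).card
      ≤ 2 * 2 ^ (h - (k + 2)) := by
  have hpos : 0 < 2 ^ (h - (k + 2)) := by positivity
  rcases Nat.lt_or_ge 4 l with h4 | h4
  swap
  · have h1 := VZ_pairs_left l' h4 (fun z => z % 2 ^ (k + 2) = c)
    have h2 := cls_auxZ l' k c
    have h3 : 2 ^ ((l' + 1) / 2 - (k + 2)) ≤ 2 ^ (h - (k + 2)) :=
      Nat.pow_le_pow_right (by norm_num) (by omega)
    omega
  rcases Nat.lt_or_ge 4 l' with h4' | h4'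
  swap
  · have h1 := VZ_pairs_right l h4' (fun z => z % 2 ^ (k + 2) = c)
    have h2 := cls_auxZ l k c
    have h3 : 2 ^ ((l + 1) / 2 - (k + 2)) ≤ 2 ^ (h - (k + 2)) :=
      Nat.pow_le_pow_right (by norm_num) (by omega)
    omega
  rw [VZ_pos h4, VZ_pos h4']
  exact pairs_aux l l' k c h hh

theorem V_fibZ (l l' c : ℕ) (P : Finset (ℕ × ℕ)) (hP : P ⊆ VZ l ×ˢ VZ l')
    (h : ∀ q ∈ P, q.1 * q.2 = c) : P.card ≤ 2 := by
  rcases Nat.lt_or_ge 4 l with h4 | h4
  swap
  · have hone : ∀ q ∈ P, q.1 = 1 := by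
      intro q hq
      have h1 := (Finset.mem_product.mp (hP hq)).1
      rwa [VZ_small h4, Finset.mem_singleton] at h1
    have : P.card ≤ 1 := by
      rw [Finset.card_le_one]
      intro q hq r hr
      have h1 := h q hq
      have h2 := h r hr
      rw [hone q hq, one_mul] at h1
      rw [hone r hr, one_mul] at h2
      exact Prod.ext ((hone q hq).trans (hone r hr).symm) (h1.trans h2.symm)
    omega
  rcases Nat.lt_or_ge 4 l' with h4' | h4'
  swap
  · have hone : ∀ q ∈ P, q.2 = 1 := by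
      intro q hq
      have h1 := (Finset.mem_product.mp (hP hq)).2
      rwa [VZ_small h4', Finset.mem_singleton] at h1
    have : P.card ≤ 1 := by
      rw [Finset.card_le_one]
      intro q hq r hr
      have h1 := h q hq
      have h2 := h r hr
      rw [hone q hq, mul_one] at h1
      rw [hone r hr, mul_one] at h2
      exact Prod.ext (h1.trans h2.symm) ((hone q hq).trans (hone r hr).symm)
    omega
  rw [VZ_pos h4, VZ_pos h4'] at hP
  exact V_fib l l' c P hP h

/-- The hypothesis (F3): few elements of `T` on a progression with odd difference. -/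
def F3 (W : ℕ) (T : Finset ℕ) (B : ℕ) : Prop :=
  ∀ ν s, s % 2 = 1 →
    (T.filter (fun t => ∃ j < 2 ^ (W / 2 + 2), (ν + s * j) % 2 ^ W = t)).card ≤ B

theorem prog_piece {W B : ℕ} {T : Finset ℕ} (hW : 4 ≤ W) (hT : F3 W T B) (ν s : ℕ)
    (hs : s % 2 = 1) :
    ((Finset.range (2 ^ (W / 2 + 2))).filter (fun j => (ν + s * j) % 2 ^ W ∈ T)).card ≤ B := by
  refine le_trans ?_ (hT ν s hs)
  apply Finset.card_le_card_of_injOn (fun j => (ν + s * j) % 2 ^ W)
  · intro j hj
    have hj' := Finset.mem_coe.mp hj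
    rw [Finset.mem_filter, Finset.mem_range] at hj'
    apply Finset.mem_coe.mpr
    rw [Finset.mem_filter]
    exact ⟨hj'.2, j, hj'.1, rfl⟩
  · intro i hi j hj hij
    have hi' := (Finset.mem_filter.mp (Finset.mem_coe.mp hi)).1
    have hj' := (Finset.mem_filter.mp (Finset.mem_coe.mp hj)).1
    rw [Finset.mem_range] at hi' hj'
    have h1 : ν + s * i ≡ ν + s * j [MOD 2 ^ W] := hij
    have h2 := Nat.ModEq.add_left_cancel' _ h1
    have h3 := cancel_mod W s i j hs h2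
    have h4 : 2 ^ (W / 2 + 2) ≤ 2 ^ W := Nat.pow_le_pow_right (by norm_num) (by omega)
    rwa [Nat.mod_eq_of_lt (by omega), Nat.mod_eq_of_lt (by omega)] at h3

theorem prog_count {W B : ℕ} {T : Finset ℕ} (hW : 4 ≤ W) (hT : F3 W T B) (s : ℕ)
    (hs : s % 2 = 1) (ν J : ℕ) :
    ((Finset.range J).filter (fun j => (ν + s * j) % 2 ^ W ∈ T)).card ≤
      B * (J / 2 ^ (W / 2 + 2) + 1) := by
  set M := 2 ^ (W / 2 + 2) with hM
  have hMpos : 0 < M := by positivity
  set P := (Finset.range J).filter (fun j => (ν + s * j) % 2 ^ W ∈ T) with hP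
  have h1 : P.card ≤ B * (P.image (fun j => j / M)).card := by
    apply Finset.card_le_mul_card_image
    intro i _
    refine le_trans ?_ (prog_piece hW hT (ν + s * (i * M)) s hs)
    apply Finset.card_le_card_of_injOn (fun j => j % M)
    · intro j hj
      have hj' := Finset.mem_coe.mp hj
      rw [Finset.mem_filter, hP, Finset.mem_filter] at hj'
      apply Finset.mem_coe.mpr
      rw [Finset.mem_filter, Finset.mem_range]
      refine ⟨Nat.mod_lt _ hMpos, ?_⟩
      have e : ν + s * (i * M) + s * (j % M) = ν + s * j := by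
        have h2 := Nat.div_add_mod j M
        rw [hj'.2] at h2
        calc ν + s * (i * M) + s * (j % M) = ν + s * (M * i + j % M) := by ring
          _ = _ := by rw [h2]
      rw [e]
      exact hj'.1.2
    · intro x hx y hy hxy
      have hx' := (Finset.mem_filter.mp (Finset.mem_coe.mp hx)).2
      have hy' := (Finset.mem_filter.mp (Finset.mem_coe.mp hy)).2
      have h2 : x % M = y % M := hxy
      rw [← Nat.div_add_mod x M, ← Nat.div_add_mod y M, h2, hx', hy']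
  have h2 : (P.image (fun j => j / M)).card ≤ J / M + 1 := by
    have hsub : P.image (fun j => j / M) ⊆ Finset.range (J / M + 1) := by
      intro i hi
      obtain ⟨j, hj, rfl⟩ := Finset.mem_image.mp hi
      rw [hP, Finset.mem_filter, Finset.mem_range] at hj
      rw [Finset.mem_range]
      have := Nat.div_le_div_right (c := M) hj.1.le
      omega
    simpa using Finset.card_le_card hsub
  exact h1.trans (Nat.mul_le_mul_left _ h2)

variable (c : Code)

/-- Pairs of variables with a prescribed sum of contents modulo `2 ^ k`. -/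
theorem pp_pairs (l l' k h s : ℕ) (hk : k ≤ l) (hk' : k ≤ l') (hh : l + l' ≤ 2 * h) :
    ((c.X l ×ˢ c.X l').filter (fun q => (c.P k q.1 + c.P k q.2) % 2 ^ k = s)).card
      ≤ 2 * 2 ^ (h - (k + 2)) := by
  set P := (c.X l ×ˢ c.X l').filter (fun q => (c.P k q.1 + c.P k q.2) % 2 ^ k = s) with hP
  rcases P.eq_empty_or_nonempty with h0 | ⟨q0, hq0⟩
  · rw [h0]; simp
  refine le_trans ?_ (pairs_auxZ l l' k (q0.1 * q0.2 % 2 ^ (k + 2)) h hh)
  apply Finset.card_le_card
  intro q hq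
  rw [hP, Finset.mem_filter, Finset.mem_product] at hq hq0
  rw [Finset.mem_filter, Finset.mem_product]
  refine ⟨⟨c.X_subset _ hq.1.1, c.X_subset _ hq.1.2⟩, ?_⟩
  refine c.mul_modEq hq.1.1 hq0.1.1 hq.1.2 hq0.1.2 hk hk' (le_refl k) (le_refl k) ?_
  rw [Nat.ModEq, hq.2, hq0.2]

/-- Variables with a prescribed content modulo `2 ^ k`. -/
theorem pp_single (l k s : ℕ) :
    ((c.X l).filter (fun x => c.P k x % 2 ^ k = s)).card ≤ 2 ^ ((l + 1) / 2 - (k + 2)) := by
  set P := (c.X l).filter (fun x => c.P k x % 2 ^ k = s) with hP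
  rcases P.eq_empty_or_nonempty with h0 | ⟨q0, hq0⟩
  · rw [h0]; simp
  refine le_trans ?_ (cls_auxZ l k (q0 % 2 ^ (k + 2)))
  apply Finset.card_le_card
  intro q hq
  rw [hP, Finset.mem_filter] at hq hq0
  rw [Finset.mem_filter]
  refine ⟨c.X_subset _ hq.1, ?_⟩
  refine c.modEq_of_P (le_refl k) (le_refl k) (c.X_mod hq.1) (c.X_mod hq0.1) ?_
  rw [Nat.ModEq, hq.2, hq0.2]

/-- The triples of the lower region `(x, t)` and the variable `x'` of the upper one. -/
noncomputable def trip (L W l' : ℕ) (T : Finset ℕ) (s : ℕ) : Finset ((ℕ × ℕ) × ℕ) :=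
  ((c.X L ×ˢ c.X l') ×ˢ T).filter
    (fun q => (c.P (L + W) q.1.1 + c.P (L + W) q.1.2 + 2 ^ L * q.2) % 2 ^ (L + W) = s)

theorem P_ext {l k x : ℕ} (h : k ≤ l) (hx : x % 4 = 1) : c.P l x ≡ c.P k x [MOD 2 ^ k] := by
  rw [Nat.ModEq, c.P_mod h hx, Nat.mod_eq_of_lt (c.P_lt _ _)]

/-- **Block property.** -/
theorem block_count {L W l' B : ℕ} {T : Finset ℕ} (hTlt : ∀ t ∈ T, t < 2 ^ W) (hW : 4 ≤ W)
    (hWe : W % 2 = 0) (hWL : W ≤ L) (hgap : ∀ i, 1 ≤ i → c.β i ≤ L ∨ L + W ≤ c.β i)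
    (hl' : L + W ≤ l') (hT : F3 W T B) (s : ℕ) :
    (trip c L W l' T s).card ≤ 4 * B * 2 ^ ((l' - L - W + 1) / 2) := by
  set Q := trip c L W l' T s with hQ
  rcases Q.eq_empty_or_nonempty with h0 | ⟨q0, hq0⟩
  · rw [h0]; simp
  have hmem : ∀ q ∈ Q, (q.1.1 ∈ c.X L ∧ q.1.2 ∈ c.X l') ∧ q.2 ∈ T ∧
      (c.P (L + W) q.1.1 + c.P (L + W) q.1.2 + 2 ^ L * q.2) % 2 ^ (L + W) = s := by
    intro q hq
    rw [hQ] at hq
    unfold trip at hq
    rw [Finset.mem_filter, Finset.mem_product, Finset.mem_product] at hq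
    exact ⟨hq.1.1, hq.1.2, hq.2⟩
  obtain ⟨⟨hx0, hx0'⟩, ht0, he0⟩ := hmem q0 hq0
  set G := q0.1.1 * q0.1.2 % 2 ^ (L + 2) with hG
  have hprod : ∀ q ∈ Q, q.1.1 * q.1.2 % 2 ^ (L + 2) = G := by
    intro q hq
    obtain ⟨⟨hx, hx'⟩, ht, he⟩ := hmem q hq
    have h1 : c.P (L + W) q.1.1 + c.P (L + W) q.1.2 + 2 ^ L * q.2 ≡
        c.P (L + W) q0.1.1 + c.P (L + W) q0.1.2 + 2 ^ L * q0.2 [MOD 2 ^ (L + W)] := by
      rw [Nat.ModEq, he, he0]
    have h2 := h1.of_dvd (pow_dvd_pow 2 (show L ≤ L + W by omega))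
    have h3 : ∀ a t : ℕ, a + 2 ^ L * t ≡ a [MOD 2 ^ L] := by
      intro a t
      rw [Nat.ModEq, Nat.add_mul_mod_self_left]
    have h4 := ((h3 _ _).symm.trans h2).trans (h3 _ _)
    exact c.mul_modEq hx hx0 hx' hx0' (le_refl L) (by omega) (by omega) (by omega) h4
  obtain ⟨s0, ν, hs0, haff⟩ := c.P_add_affine (L := L) (W := W) (l1 := L) (l2 := l')
    (l := L + W) (l' := L + W) hWL (by omega) hgap (le_refl L) (by omega) (le_refl _) (le_refl _) G
  set jj : (ℕ × ℕ) × ℕ → ℕ := fun q => q.1.1 * q.1.2 / 2 ^ (L + 2) with hjj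
  set τ := s0 * jj q0 + q0.2 with hτ
  set s1 := (2 ^ W - 1) * s0 with hs1
  have h2W : 0 < 2 ^ W := by positivity
  have ht : ∀ q ∈ Q, q.2 = (τ + s1 * jj q) % 2 ^ W := by
    intro q hq
    obtain ⟨⟨hx, hx'⟩, ht, he⟩ := hmem q hq
    have h1 := haff _ hx _ hx' (hprod q hq)
    have h2 := haff _ hx0 _ hx0' (hprod q0 hq0)
    have h3 : c.P (L + W) q.1.1 + c.P (L + W) q.1.2 + 2 ^ L * q.2 ≡
        c.P (L + W) q0.1.1 + c.P (L + W) q0.1.2 + 2 ^ L * q0.2 [MOD 2 ^ (L + W)] := by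
      rw [Nat.ModEq, he, he0]
    have h4 := ((h1.add_right (2 ^ L * q.2)).symm.trans h3).trans (h2.add_right (2 ^ L * q0.2))
    have h5 : 2 ^ L * (s0 * jj q + q.2) ≡ 2 ^ L * τ [MOD 2 ^ (L + W)] := by
      have e1 : ν + 2 ^ L * (s0 * (q.1.1 * q.1.2 / 2 ^ (L + 2))) + 2 ^ L * q.2 =
          ν + 2 ^ L * (s0 * jj q + q.2) := by
        simp only [hjj]
        ring
      have e2 : ν + 2 ^ L * (s0 * (q0.1.1 * q0.1.2 / 2 ^ (L + 2))) + 2 ^ L * q0.2 =
          ν + 2 ^ L * τ := by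
        simp only [hτ, hjj]
        ring
      rw [e1, e2] at h4
      exact Nat.ModEq.add_left_cancel' _ h4
    rw [pow_add] at h5
    have h6 : s0 * jj q + q.2 ≡ τ [MOD 2 ^ W] :=
      Nat.ModEq.mul_left_cancel' (by positivity) h5
    have h7 := h6.add_right (s1 * jj q)
    have e3 : s0 * jj q + q.2 + s1 * jj q = q.2 + 2 ^ W * (s0 * jj q) := by
      obtain ⟨w, hw⟩ : ∃ w, 2 ^ W = w + 1 := ⟨2 ^ W - 1, by omega⟩
      rw [hs1, hw, Nat.add_sub_cancel]
      ring
    rw [e3] at h7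
    have h8 : q.2 + 2 ^ W * (s0 * jj q) ≡ q.2 [MOD 2 ^ W] := by
      rw [Nat.ModEq, Nat.add_mul_mod_self_left]
    have h9 := h8.symm.trans h7
    rw [Nat.ModEq, Nat.mod_eq_of_lt (hTlt _ ht)] at h9
    exact h9
  have hs1o : s1 % 2 = 1 := by
    rw [hs1, Nat.mul_mod, hs0]
    have : 2 ^ W = 2 * 2 ^ (W - 1) := by
      rw [← pow_succ']
      congr 1
      omega
    have h1 : 0 < 2 ^ (W - 1) := by positivity
    have h2 : (2 ^ W - 1) % 2 = 1 := by omega
    rw [h2]
  -- the fibres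
  have hfib : Q.card ≤ 2 * (Q.image jj).card := by
    apply Finset.card_le_mul_card_image
    intro j _
    set F := Q.filter (fun q => jj q = j) with hF
    have h1 : F.card = (F.image Prod.fst).card := by
      symm
      apply Finset.card_image_of_injOn
      intro q hq r hr hqr
      have hq' := Finset.mem_filter.mp (Finset.mem_coe.mp hq)
      have hr' := Finset.mem_filter.mp (Finset.mem_coe.mp hr)
      refine Prod.ext hqr ?_
      rw [ht q hq'.1, ht r hr'.1, hq'.2, hr'.2]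
    rw [h1]
    apply V_fibZ L l' (G + 2 ^ (L + 2) * j)
    · intro q hq
      obtain ⟨r, hr, rfl⟩ := Finset.mem_image.mp hq
      have hr' := Finset.mem_filter.mp hr
      obtain ⟨⟨hx, hx'⟩, -, -⟩ := hmem r hr'.1
      exact Finset.mem_product.mpr ⟨c.X_subset _ hx, c.X_subset _ hx'⟩
    · intro q hq
      obtain ⟨r, hr, rfl⟩ := Finset.mem_image.mp hq
      have hr' := Finset.mem_filter.mp hr
      rw [← hprod r hr'.1, ← hr'.2]
      exact (Nat.mod_add_div _ _).symm
  -- the range of the quotients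
  set h := (L + l' + 1) / 2 with hh
  set J := 9 * 2 ^ (h - L - 2) with hJ
  have hhL : L + 2 ≤ h := by omega
  have himg : (Q.image jj).card ≤ B * (J / 2 ^ (W / 2 + 2) + 1) := by
    refine le_trans ?_ (prog_count hW hT s1 hs1o τ J)
    apply Finset.card_le_card
    intro j hj
    obtain ⟨q, hq, rfl⟩ := Finset.mem_image.mp hj
    obtain ⟨⟨hx, hx'⟩, htq, -⟩ := hmem q hq
    rw [Finset.mem_filter, Finset.mem_range]
    refine ⟨?_, by rw [← ht q hq]; exact htq⟩
    have h1 := VZ_mul_lt (c.X_subset _ hx) (c.X_subset _ hx')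
    simp only [hjj]
    rw [Nat.div_lt_iff_lt_mul (by positivity)]
    by_contra hcon
    push Not at hcon
    have e1 : J * 2 ^ (L + 2) = 9 * 2 ^ h := by
      rw [hJ, mul_assoc, ← pow_add]
      congr 2
      omega
    rw [e1] at hcon
    have h2 := Nat.mul_le_mul hcon hcon
    have h3 : 9 * 2 ^ h * (9 * 2 ^ h) = 81 * 2 ^ (h + h) := by
      rw [pow_add]
      ring
    have h4 : 2 ^ (L + l') ≤ 2 ^ (h + h) := Nat.pow_le_pow_right (by norm_num) (by omega)
    rw [h3] at h2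
    omega
  have hfin : J / 2 ^ (W / 2 + 2) + 1 ≤ 2 * 2 ^ ((l' - L - W + 1) / 2) := by
    have e1 : h - L - 2 + 2 = W / 2 + (l' - L - W + 1) / 2 := by omega
    set u := (l' - L - W + 1) / 2 with hu
    have e2 : J * 4 = 9 * (2 ^ (W / 2) * 2 ^ u) := by
      rw [hJ, ← pow_add, ← e1, pow_add]
      ring
    have e3 : J ≤ 9 * 2 ^ u * 2 ^ (W / 2) / 4 := by
      rw [Nat.le_div_iff_mul_le (by norm_num), e2]
      apply le_of_eq
      ring
    have e4 : J / 2 ^ (W / 2 + 2) ≤ 9 * 2 ^ u / 16 := by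
      rw [Nat.le_div_iff_mul_le (by norm_num)]
      have h5 := Nat.div_mul_le_self J (2 ^ (W / 2 + 2))
      have h6 : J / 2 ^ (W / 2 + 2) * 16 * 2 ^ (W / 2) ≤ 9 * 2 ^ u * 2 ^ (W / 2) := by
        calc J / 2 ^ (W / 2 + 2) * 16 * 2 ^ (W / 2) =
            J / 2 ^ (W / 2 + 2) * 2 ^ (W / 2 + 2) * 4 := by
              rw [pow_add]
              ring
          _ ≤ J * 4 := Nat.mul_le_mul_right _ h5
          _ = 9 * 2 ^ u * 2 ^ (W / 2) := by rw [e2]; ring
      exact Nat.le_of_mul_le_mul_right h6 (by positivity)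
    have e5 : 0 < 2 ^ u := by positivity
    omega
  calc Q.card ≤ 2 * (Q.image jj).card := hfib
    _ ≤ 2 * (B * (J / 2 ^ (W / 2 + 2) + 1)) := Nat.mul_le_mul_left _ himg
    _ ≤ 2 * (B * (2 * 2 ^ ((l' - L - W + 1) / 2))) :=
        Nat.mul_le_mul_left _ (Nat.mul_le_mul_left _ hfin)
    _ = _ := by ring

/-- The block property for a block at the bottom, `X 0 = {1}`. -/
theorem block_zero {W l' B : ℕ} {T : Finset ℕ} (hTc : T.card ≤ 2 ^ (W / 2)) (hW : 1 ≤ W)
    (hWe : W % 2 = 0) (hB : 1 ≤ B) (hl' : l' = W ∨ 2 * W ≤ l')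
    (hT4 : ∀ ν, (T.filter (fun t => ∃ x ∈ c.X W, (c.P W x + t) % 2 ^ W = ν)).card ≤ B) (s : ℕ) :
    (trip c 0 W l' T s).card ≤ 4 * B * 2 ^ ((l' - 0 - W + 1) / 2) := by
  set Q := trip c 0 W l' T s with hQ
  rcases Q.eq_empty_or_nonempty with h0 | ⟨q0, hq0⟩
  · rw [h0]; simp
  have hmem : ∀ q ∈ Q, q.1.1 = 1 ∧ q.1.2 ∈ c.X l' ∧ q.2 ∈ T ∧
      (c.P W 1 + c.P W q.1.2 + q.2) % 2 ^ W = s := by
    intro q hq
    rw [hQ] at hq
    unfold trip at hq
    rw [Finset.mem_filter, Finset.mem_product, Finset.mem_product, c.X_zero,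
      Finset.mem_singleton] at hq
    refine ⟨hq.1.1.1, hq.1.1.2, hq.1.2, ?_⟩
    have h1 := hq.2
    rw [hq.1.1.1, zero_add, pow_zero, one_mul] at h1
    exact h1
  obtain ⟨-, hx0', ht0, he0⟩ := hmem q0 hq0
  have hrel : ∀ q ∈ Q, c.P W q.1.2 + q.2 ≡ c.P W q0.1.2 + q0.2 [MOD 2 ^ W] := by
    intro q hq
    obtain ⟨-, hx', ht, he⟩ := hmem q hq
    have h1 : c.P W 1 + (c.P W q.1.2 + q.2) ≡ c.P W 1 + (c.P W q0.1.2 + q0.2) [MOD 2 ^ W] := by
      rw [← add_assoc, ← add_assoc, Nat.ModEq, he, he0]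
    exact Nat.ModEq.add_left_cancel' _ h1
  rcases hl' with hl | hl
  · subst hl
    have h1 : Q.card ≤ B := by
      refine le_trans ?_ (hT4 ((c.P l' q0.1.2 + q0.2) % 2 ^ l'))
      apply Finset.card_le_card_of_injOn Prod.snd
      · intro q hq
        obtain ⟨-, hx', ht, -⟩ := hmem q (Finset.mem_coe.mp hq)
        apply Finset.mem_coe.mpr
        rw [Finset.mem_filter]
        exact ⟨ht, q.1.2, hx', hrel q (Finset.mem_coe.mp hq)⟩
      · intro q hq r hr hqr
        obtain ⟨h1, hx', -, -⟩ := hmem q (Finset.mem_coe.mp hq)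
        obtain ⟨h2, hy', -, -⟩ := hmem r (Finset.mem_coe.mp hr)
        have h3 := (hrel q (Finset.mem_coe.mp hq)).trans (hrel r (Finset.mem_coe.mp hr)).symm
        have h4 : q.2 = r.2 := hqr
        rw [h4] at h3
        have h5 := Nat.ModEq.add_right_cancel' _ h3
        have h6 := c.eq_of_P (c.X_subset _ hx') (c.X_subset _ hy') (by omega) (le_refl l')
          (le_refl l') h5
        exact Prod.ext (Prod.ext (by rw [h1, h2]) h6) h4
    refine h1.trans ?_
    have : 0 < 2 ^ ((l' - 0 - l' + 1) / 2) := by positivity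
    nlinarith
  · have h1 : Q.card ≤ 2 ^ ((l' + 1) / 2 - (W + 2)) * (Q.image Prod.snd).card := by
      apply Finset.card_le_mul_card_image
      intro t _
      set F := Q.filter (fun q => q.2 = t) with hF
      rcases F.eq_empty_or_nonempty with hF0 | ⟨r0, hr0⟩
      · rw [hF0]; simp
      refine le_trans ?_ (pp_single c l' W (c.P W r0.1.2 % 2 ^ W))
      apply Finset.card_le_card_of_injOn (fun q => q.1.2)
      · intro q hq
        have hq' := Finset.mem_filter.mp (Finset.mem_coe.mp hq)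
        have hr' := Finset.mem_filter.mp hr0
        obtain ⟨-, hx', ht, -⟩ := hmem q hq'.1
        apply Finset.mem_coe.mpr
        rw [Finset.mem_filter]
        refine ⟨hx', ?_⟩
        have h3 := (hrel q hq'.1).trans (hrel r0 hr'.1).symm
        rw [hq'.2, hr'.2] at h3
        exact Nat.ModEq.add_right_cancel' _ h3
      · intro q hq r hr hqr
        have hq' := Finset.mem_filter.mp (Finset.mem_coe.mp hq)
        have hr' := Finset.mem_filter.mp (Finset.mem_coe.mp hr)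
        have h1 := (hmem q hq'.1).1
        have h2 := (hmem r hr'.1).1
        exact Prod.ext (Prod.ext (by rw [h1, h2]) hqr) (by rw [hq'.2, hr'.2])
    have h2 : (Q.image Prod.snd).card ≤ 2 ^ (W / 2) := by
      refine le_trans (Finset.card_le_card ?_) hTc
      intro t ht
      obtain ⟨q, hq, rfl⟩ := Finset.mem_image.mp ht
      exact (hmem q hq).2.2.1
    calc Q.card ≤ 2 ^ ((l' + 1) / 2 - (W + 2)) * (Q.image Prod.snd).card := h1
      _ ≤ 2 ^ ((l' + 1) / 2 - (W + 2)) * 2 ^ (W / 2) := Nat.mul_le_mul_left _ h2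
      _ = 2 ^ ((l' + 1) / 2 - (W + 2) + W / 2) := by rw [pow_add]
      _ ≤ 2 ^ ((l' - 0 - W + 1) / 2) := Nat.pow_le_pow_right (by norm_num) (by omega)
      _ ≤ 4 * B * 2 ^ ((l' - 0 - W + 1) / 2) := by
          apply Nat.le_mul_of_pos_left
          omega

/-- The block property without a block. -/
theorem block_plain {L l' B : ℕ} (hB : 1 ≤ B) (hl' : L ≤ l') (s : ℕ) :
    (trip c L 0 l' {0} s).card ≤ 4 * B * 2 ^ ((l' - L - 0 + 1) / 2) := by
  have h1 : (trip c L 0 l' {0} s).card ≤ 2 * 2 ^ ((L + l' + 1) / 2 - (L + 2)) := by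
    refine le_trans ?_ (pp_pairs c L l' L ((L + l' + 1) / 2) s (le_refl L) hl' (by omega))
    apply Finset.card_le_card_of_injOn Prod.fst
    · intro q hq
      have hq' := Finset.mem_coe.mp hq
      unfold trip at hq'
      rw [Finset.mem_filter, Finset.mem_product, Finset.mem_singleton] at hq'
      apply Finset.mem_coe.mpr
      rw [Finset.mem_filter]
      refine ⟨hq'.1.1, ?_⟩
      have h1 := hq'.2
      rw [hq'.1.2, mul_zero, add_zero, add_zero] at h1
      exact h1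
    · intro q hq r hr hqr
      have hq' := Finset.mem_coe.mp hq
      have hr' := Finset.mem_coe.mp hr
      unfold trip at hq' hr'
      rw [Finset.mem_filter, Finset.mem_product, Finset.mem_singleton] at hq' hr'
      exact Prod.ext hqr (by rw [hq'.1.2, hr'.1.2])
  refine h1.trans ?_
  have h2 : 2 ^ ((L + l' + 1) / 2 - (L + 2)) ≤ 2 ^ ((l' - L - 0 + 1) / 2) :=
    Nat.pow_le_pow_right (by norm_num) (by omega)
  calc 2 * 2 ^ ((L + l' + 1) / 2 - (L + 2)) ≤ 2 * 2 ^ ((l' - L - 0 + 1) / 2) :=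
        Nat.mul_le_mul_left _ h2
    _ ≤ 4 * B * 2 ^ ((l' - L - 0 + 1) / 2) := Nat.mul_le_mul_right _ (by omega)

/-- The content of a variable `(x, t)`. -/
noncomputable def cont (l w : ℕ) (q : ℕ × ℕ) : ℕ := c.P (l + w) q.1 + 2 ^ l * q.2

/-- The pairs of variables of two regions. -/
noncomputable def sol (l w : ℕ) (T : Finset ℕ) (l' w' : ℕ) (T' : Finset ℕ) (μ s : ℕ) :
    Finset ((ℕ × ℕ) × (ℕ × ℕ)) :=
  ((c.X l ×ˢ T) ×ˢ (c.X l' ×ˢ T')).filter
    (fun q => (cont c l w q.1 + cont c l' w' q.2) % 2 ^ μ = s)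

theorem mem_sol {l w : ℕ} {T : Finset ℕ} {l' w' : ℕ} {T' : Finset ℕ} {μ s : ℕ}
    {q : (ℕ × ℕ) × (ℕ × ℕ)} : q ∈ sol c l w T l' w' T' μ s ↔
    ((q.1.1 ∈ c.X l ∧ q.1.2 ∈ T) ∧ (q.2.1 ∈ c.X l' ∧ q.2.2 ∈ T')) ∧
      (cont c l w q.1 + cont c l' w' q.2) % 2 ^ μ = s := by
  unfold sol
  rw [Finset.mem_filter, Finset.mem_product, Finset.mem_product, Finset.mem_product]

theorem cont_modEq {l w k x t : ℕ} (hk : k ≤ l) (hx : x % 4 = 1) :
    cont c l w (x, t) ≡ c.P k x [MOD 2 ^ k] := by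
  unfold cont
  have h1 := P_ext c (show k ≤ l + w by omega) hx
  have h2 : 2 ^ l * t ≡ 0 [MOD 2 ^ k] := by
    rw [Nat.modEq_zero_iff_dvd]
    exact Dvd.dvd.mul_right (pow_dvd_pow 2 hk) _
  simpa using h1.add h2

/-- Two regions of the same length of the `P` part. -/
theorem sol_same {l w w' B : ℕ} {T T' : Finset ℕ}
    (hTT : ∀ s, ((T ×ˢ T').filter (fun q => (q.1 + q.2) % 2 ^ (min w w') = s)).card ≤ B) (s : ℕ) :
    (sol c l w T l w' T' (l + min w w') s).card ≤ 2 * B := by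
  set Q := sol c l w T l w' T' (l + min w w') s with hQ
  rcases Q.eq_empty_or_nonempty with h0 | ⟨q0, hq0⟩
  · rw [h0]; simp
  have hmem : ∀ q ∈ Q, ((q.1.1 ∈ c.X l ∧ q.1.2 ∈ T) ∧ (q.2.1 ∈ c.X l ∧ q.2.2 ∈ T')) ∧
      (cont c l w q.1 + cont c l w' q.2) % 2 ^ (l + min w w') = s := by
    intro q hq
    rw [hQ] at hq
    exact (mem_sol c).mp hq
  have hrel : ∀ q ∈ Q, ∀ r ∈ Q, cont c l w q.1 + cont c l w' q.2 ≡
      cont c l w r.1 + cont c l w' r.2 [MOD 2 ^ (l + min w w')] := by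
    intro q hq r hr
    rw [Nat.ModEq, (hmem q hq).2, (hmem r hr).2]
  set g : (ℕ × ℕ) × (ℕ × ℕ) → ℕ × ℕ := fun q => (q.1.1, q.2.1) with hg
  have h1 : Q.card ≤ B * (Q.image g).card := by
    apply Finset.card_le_mul_card_image
    intro y _
    set F := Q.filter (fun q => g q = y) with hF
    rcases F.eq_empty_or_nonempty with hF0 | ⟨r0, hr0⟩
    · rw [hF0]; simp
    refine le_trans ?_ (hTT ((r0.1.2 + r0.2.2) % 2 ^ (min w w')))
    apply Finset.card_le_card_of_injOn (fun q => (q.1.2, q.2.2))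
    · intro q hq
      have hq' := Finset.mem_filter.mp (Finset.mem_coe.mp hq)
      have hr' := Finset.mem_filter.mp hr0
      have m := (hmem q hq'.1).1
      apply Finset.mem_coe.mpr
      rw [Finset.mem_filter, Finset.mem_product]
      refine ⟨⟨m.1.2, m.2.2⟩, ?_⟩
      have e := hrel q hq'.1 r0 hr'.1
      have ex : (q.1.1, q.2.1) = (r0.1.1, r0.2.1) := by
        have : g q = g r0 := by rw [hq'.2, hr'.2]
        exact this
      rw [Prod.mk.injEq] at ex
      obtain ⟨ex1, ex2⟩ := ex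
      unfold cont at e
      rw [ex1, ex2] at e
      have e1 : c.P (l + w) r0.1.1 + 2 ^ l * q.1.2 + (c.P (l + w') r0.2.1 + 2 ^ l * q.2.2) =
          (c.P (l + w) r0.1.1 + c.P (l + w') r0.2.1) + 2 ^ l * (q.1.2 + q.2.2) := by ring
      have e2 : c.P (l + w) r0.1.1 + 2 ^ l * r0.1.2 + (c.P (l + w') r0.2.1 + 2 ^ l * r0.2.2) =
          (c.P (l + w) r0.1.1 + c.P (l + w') r0.2.1) + 2 ^ l * (r0.1.2 + r0.2.2) := by ring
      rw [e1, e2] at e
      have e3 := Nat.ModEq.add_left_cancel' _ e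
      rw [pow_add] at e3
      exact Nat.ModEq.mul_left_cancel' (by positivity) e3
    · intro q hq r hr hqr
      have hq' := Finset.mem_filter.mp (Finset.mem_coe.mp hq)
      have hr' := Finset.mem_filter.mp (Finset.mem_coe.mp hr)
      have ex : (q.1.1, q.2.1) = (r.1.1, r.2.1) := by
        have : g q = g r := by rw [hq'.2, hr'.2]
        exact this
      have ex' : (q.1.2, q.2.2) = (r.1.2, r.2.2) := hqr
      rw [Prod.mk.injEq] at ex ex'
      exact Prod.ext (Prod.ext ex.1 ex'.1) (Prod.ext ex.2 ex'.2)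
  have h2 : (Q.image g).card ≤ 2 := by
    have h3 := pp_pairs c l l l l ((c.P l q0.1.1 + c.P l q0.2.1) % 2 ^ l) (le_refl l) (le_refl l)
      (by omega)
    rw [show l - (l + 2) = 0 by omega, pow_zero, mul_one] at h3
    refine le_trans (Finset.card_le_card ?_) h3
    intro y hy
    obtain ⟨q, hq, rfl⟩ := Finset.mem_image.mp hy
    have m := (hmem q hq).1
    have m0 := (hmem q0 hq0).1
    rw [Finset.mem_filter, Finset.mem_product]
    refine ⟨⟨m.1.1, m.2.1⟩, ?_⟩
    have e := (hrel q hq q0 hq0).of_dvd (pow_dvd_pow 2 (show l ≤ l + min w w' by omega))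
    have e1 := (cont_modEq c (w := w) (t := q.1.2) (le_refl l) (c.X_mod m.1.1)).add
      (cont_modEq c (w := w') (t := q.2.2) (le_refl l) (c.X_mod m.2.1))
    have e2 := (cont_modEq c (w := w) (t := q0.1.2) (le_refl l) (c.X_mod m0.1.1)).add
      (cont_modEq c (w := w') (t := q0.2.2) (le_refl l) (c.X_mod m0.2.1))
    exact (e1.symm.trans e).trans e2
  calc Q.card ≤ B * (Q.image g).card := h1
    _ ≤ B * 2 := Nat.mul_le_mul_left _ h2
    _ = 2 * B := by ring

/-- The lower region ends before the upper one begins its block. -/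
theorem sol_lt {l w l' w' B : ℕ} {T T' : Finset ℕ} (hl : l + w ≤ l') (hw' : w' % 2 = 0)
    (hT' : T'.card ≤ 2 ^ (w' / 2))
    (hblk : ∀ s, (trip c l w l' T s).card ≤ 4 * B * 2 ^ ((l' - l - w + 1) / 2)) (s : ℕ) :
    (sol c l w T l' w' T' (l + w) s).card ≤ 4 * B * 2 ^ ((l' + w' - (l + w) + 1) / 2) := by
  set Q := sol c l w T l' w' T' (l + w) s with hQ
  have h1 : Q.card ≤ (trip c l w l' T s ×ˢ T').card := by
    apply Finset.card_le_card_of_injOn (fun q => (((q.1.1, q.2.1), q.1.2), q.2.2))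
    · intro q hq
      have hq' := Finset.mem_coe.mp hq
      rw [hQ, mem_sol] at hq'
      obtain ⟨⟨⟨h1, h2⟩, ⟨h3, h4⟩⟩, h5⟩ := hq'
      apply Finset.mem_coe.mpr
      rw [Finset.mem_product]
      refine ⟨?_, h4⟩
      unfold trip
      rw [Finset.mem_filter, Finset.mem_product, Finset.mem_product]
      refine ⟨⟨⟨h1, h3⟩, h2⟩, ?_⟩
      rw [← h5]
      have e1 := cont_modEq c (w := w') (t := q.2.2) hl (c.X_mod h3)
      have e2 : cont c l w q.1 = c.P (l + w) q.1.1 + 2 ^ l * q.1.2 := rfl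
      have e3 : c.P (l + w) q.1.1 + c.P (l + w) q.2.1 + 2 ^ l * q.1.2 =
          c.P (l + w) q.1.1 + 2 ^ l * q.1.2 + c.P (l + w) q.2.1 := by ring
      show (c.P (l + w) q.1.1 + c.P (l + w) q.2.1 + 2 ^ l * q.1.2) % 2 ^ (l + w) = _
      rw [e3, e2]
      exact (e1.add_left _).symm
    · intro q _ r _ hqr
      simp only [Prod.mk.injEq] at hqr
      obtain ⟨⟨⟨h1, h2⟩, h3⟩, h4⟩ := hqr
      exact Prod.ext (Prod.ext h1 h3) (Prod.ext h2 h4)
  rw [Finset.card_product] at h1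
  calc Q.card ≤ (trip c l w l' T s).card * T'.card := h1
    _ ≤ (4 * B * 2 ^ ((l' - l - w + 1) / 2)) * 2 ^ (w' / 2) := Nat.mul_le_mul (hblk s) hT'
    _ = 4 * B * 2 ^ ((l' - l - w + 1) / 2 + w' / 2) := by rw [pow_add]; ring
    _ = 4 * B * 2 ^ ((l' + w' - (l + w) + 1) / 2) := by
        congr 2
        omega

theorem sol_swap {l w : ℕ} {T : Finset ℕ} {l' w' : ℕ} {T' : Finset ℕ} {μ s : ℕ} :
    (sol c l w T l' w' T' μ s).card = (sol c l' w' T' l w T μ s).card := by
  apply Finset.card_bij (fun q _ => (q.2, q.1))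
  · intro q hq
    rw [mem_sol] at hq ⊢
    exact ⟨⟨hq.1.2, hq.1.1⟩, by rw [add_comm]; exact hq.2⟩
  · intro q _ r _ h
    rw [Prod.mk.injEq] at h
    exact Prod.ext h.2 h.1
  · intro q hq
    refine ⟨(q.2, q.1), ?_, rfl⟩
    rw [mem_sol] at hq ⊢
    exact ⟨⟨hq.1.2, hq.1.1⟩, by rw [add_comm]; exact hq.2⟩

end Pool.Agent.Helper41.ETPP
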