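import Pool.Agent.Helper83.ET.Var

/-!
# Counting the variables

Counting facts for the sets `V l` (numbers `rr l * p`, `p` prime, `p ^ 2 < 2 ^ l`).
-/

namespace Pool.Agent.Helper41.ETV

open Finset Pool.Agent.Helper83.ET

/-- Chebyshev in the form `2 ^ m ≤ m * (π (2 ^ m) + 2)`. -/
theorem two_pow_le_pi (m : ℕ) (hm : 1 ≤ m) :
    2 ^ m ≤ m * (Nat.primeCounting (2 ^ m) + 2) := by
  have h := Chebyshev.pi_ge (2 ^ m)
  have hl2 : 0 < Real.log 2 := Real.log_pos (by norm_num)
  have hm' : (1 : ℝ) ≤ m := by exact_mod_cast hm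
  have hlog : Real.log ((2 ^ m : ℕ) : ℝ) = m * Real.log 2 := by
    push_cast
    rw [Real.log_pow]
  have hlog1 : Real.log (((2 ^ m : ℕ) : ℝ) + 1) ≤ (m + 1) * Real.log 2 := by
    have h1 : Real.log (((2 ^ m : ℕ) : ℝ) + 1) ≤ Real.log (((2 ^ (m + 1) : ℕ) : ℝ)) := by
      apply Real.log_le_log (by positivity)
      have : (1 : ℝ) ≤ 2 ^ m := one_le_pow₀ (by norm_num)
      push_cast
      rw [pow_succ]
      linarith
    rw [show Real.log (((2 ^ (m + 1) : ℕ) : ℝ)) = ((m + 1 : ℕ) : ℝ) * Real.log 2 by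
      push_cast
      rw [← Nat.cast_succ, Real.log_pow]] at h1
    push_cast at h1 ⊢
    exact h1
  rw [hlog, div_le_iff₀ (by positivity)] at h
  have h2 : (2 ^ m : ℝ) ≤ m * ((Nat.primeCounting (2 ^ m) : ℝ) + 2) := by
    have h3 : ((2 ^ m : ℕ) : ℝ) * Real.log 2 ≤
        (m * ((Nat.primeCounting (2 ^ m) : ℝ) + 2)) * Real.log 2 := by
      nlinarith
    have h4 := le_of_mul_le_mul_right h3 hl2
    push_cast at h4
    exact h4
  exact_mod_cast h2

theorem prs_card_ge (l m : ℕ) (hm : 2 ≤ m) (hl : 2 * m ≤ l) :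
    Nat.primeCounting (2 ^ m) ≤ (prs l).card + 2 := by
  have h1 : (Nat.primesLE (2 ^ m)) ⊆ prs l ∪ {2, 3} := by
    intro p hp
    rw [Nat.mem_primesLE] at hp
    rw [Finset.mem_union, mem_prs]
    by_cases h3 : 3 < p
    · left
      refine ⟨hp.2, h3, ?_⟩
      have hne : p ≠ 2 ^ m := by
        rintro rfl
        exact (Nat.Prime.not_prime_pow hm) hp.2
      have hlt : p < 2 ^ m := lt_of_le_of_ne hp.1 hne
      calc p * p < 2 ^ m * 2 ^ m := Nat.mul_self_lt_mul_self hlt
        _ = 2 ^ (2 * m) := by rw [← pow_add]; congr 1; omega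
        _ ≤ 2 ^ l := Nat.pow_le_pow_right (by norm_num) hl
    · right
      have := hp.2.two_le
      have : p = 2 ∨ p = 3 := by omega
      simpa using this
  have h2 := Finset.card_le_card h1
  have h3 : ((prs l ∪ {2, 3} : Finset ℕ)).card ≤ (prs l).card + 2 :=
    (Finset.card_union_le _ _).trans (Nat.add_le_add_left (Finset.card_le_two) _)
  have h4 : (Nat.primesLE (2 ^ m)).card = Nat.primeCounting (2 ^ m) := by
    simp [Nat.primesLE_card_eq_primeCounting]
  omega

theorem rr_pos (l : ℕ) : 0 < rr l := by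
  rcases rr_eq l with h | h <;> rw [h] <;> norm_num

theorem rr_odd (l : ℕ) : rr l % 2 = 1 := by
  rcases rr_eq l with h | h <;> rw [h]

theorem rr_coprime (l k : ℕ) : Nat.Coprime (2 ^ k) (rr l) := by
  apply Nat.Coprime.pow_left
  rw [Nat.coprime_two_left, Nat.odd_iff]
  exact rr_odd l

theorem V_card_eq (l : ℕ) : (V l).card = ((prs l).filter (fun p => p % 4 = rr l)).card := by
  unfold V
  apply Finset.card_image_of_injective
  intro a b h
  exact Nat.eq_of_mul_eq_mul_left (rr_pos l) h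

theorem prs_card_le (l : ℕ) : (prs l).card ≤ 2 * (V l).card := by
  rw [V_card_eq]
  have h1 : (prs l).card = ((prs l).filter (fun p => p % 4 = 1)).card +
      ((prs l).filter (fun p => p % 4 = 3)).card := by
    rw [← Finset.card_union_of_disjoint]
    · congr 1
      ext p
      simp only [Finset.mem_union, Finset.mem_filter]
      constructor
      · intro hp
        have h := (mem_prs.mp hp)
        have : p % 2 = 1 := by
          rcases h.1.eq_two_or_odd with h2 | h2
          · omega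
          · exact h2
        have : p % 4 = 1 ∨ p % 4 = 3 := by omega
        tauto
      · tauto
    · rw [Finset.disjoint_left]
      intro p hp hq
      rw [Finset.mem_filter] at hp hq
      omega
  have h2 : rr l = if ((prs l).filter (fun p => p % 4 = 3)).card ≤
      ((prs l).filter (fun p => p % 4 = 1)).card then 1 else 3 := rfl
  rw [h2]
  split_ifs with h
  · omega
  · omega

theorem small_pow (m : ℕ) (h5 : 5 ≤ m) : 32 * m ≤ 5 * 2 ^ m := by
  induction m, h5 using Nat.le_induction with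
  | base => norm_num
  | succ n _ ih => rw [pow_succ]; omega

/-- (V1) -/
theorem V_card (l : ℕ) (hl : 8 ≤ l) : 2 ^ (l / 2) ≤ 16 * (l + 1) * (V l).card := by
  have h1 := prs_card_le l
  rcases Nat.lt_or_ge (l / 2) 5 with h5 | h5
  · have h2 : l / 2 = 4 := by omega
    rw [h2]
    have h3 : 5 ∈ prs l := by
      rw [mem_prs]
      refine ⟨by norm_num, by norm_num, ?_⟩
      calc 5 * 5 < 2 ^ 8 := by norm_num
        _ ≤ 2 ^ l := Nat.pow_le_pow_right (by norm_num) hl
    have h4 : 0 < (prs l).card := Finset.card_pos.mpr ⟨5, h3⟩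
    have h6 : 1 ≤ (V l).card := by omega
    calc 2 ^ 4 ≤ 16 * (8 + 1) * 1 := by norm_num
      _ ≤ 16 * (l + 1) * (V l).card := by
        apply Nat.mul_le_mul _ h6
        omega
  · set m := l / 2 with hm
    have h2 := prs_card_ge l m (by omega) (by omega)
    have h3 := two_pow_le_pi m (by omega)
    have h4 : Nat.primeCounting (2 ^ m) + 2 ≤ 2 * (V l).card + 4 := by omega
    have h5' : 2 ^ m ≤ m * (2 * (V l).card + 4) := h3.trans (Nat.mul_le_mul_left _ h4)
    have h6 := small_pow m h5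
    have h7 : 2 * m ≤ l := by omega
    have h8 := Nat.mul_le_mul_right (V l).card h7
    have h9 : m * (2 * (V l).card + 4) = 2 * m * (V l).card + 4 * m := by ring
    have h10 : 16 * (l + 1) * (V l).card = 16 * (l * (V l).card) + 16 * (V l).card := by ring
    rw [h9] at h5'
    rw [h10]
    omega

/-- Two ordered pairs of primes with the same product are equal or swapped. -/
theorem prime_pair {p q r s : ℕ} (hp : p.Prime) (hq : q.Prime) (hr : r.Prime) (hs : s.Prime)
    (h : p * q = r * s) : (p = r ∧ q = s) ∨ (p = s ∧ q = r) := by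
  have h1 : p ∣ r * s := ⟨q, h.symm⟩
  rcases hp.dvd_mul.mp h1 with h2 | h2
  · left
    have h3 := (Nat.prime_dvd_prime_iff_eq hp hr).mp h2
    subst h3
    exact ⟨rfl, Nat.eq_of_mul_eq_mul_left hp.pos h⟩
  · right
    have h3 := (Nat.prime_dvd_prime_iff_eq hp hs).mp h2
    subst h3
    refine ⟨rfl, ?_⟩
    rw [mul_comm r p] at h
    exact Nat.eq_of_mul_eq_mul_left hp.pos h

/-- Pairs of variables of lengths `l`, `l'` with a prescribed value of the product of primes. -/
theorem V_fib (l l' c : ℕ) (P : Finset (ℕ × ℕ)) (hP : P ⊆ V l ×ˢ V l')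
    (h : ∀ q ∈ P, q.1 * q.2 = c) : P.card ≤ 2 := by
  rcases P.eq_empty_or_nonempty with h0 | ⟨q0, hq0⟩
  · rw [h0]; simp
  · have key : ∀ q ∈ P, q = q0 ∨ q = (rr l * (q0.2 / rr l'), rr l' * (q0.1 / rr l)) := by
      intro q hq
      have m1 := Finset.mem_product.mp (hP hq)
      have m0 := Finset.mem_product.mp (hP hq0)
      obtain ⟨a, ha, -, -, -, ha'⟩ := mem_V.mp m1.1
      obtain ⟨b, hb, -, -, -, hb'⟩ := mem_V.mp m1.2
      obtain ⟨a0, ha0, -, -, -, ha0'⟩ := mem_V.mp m0.1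
      obtain ⟨b0, hb0, -, -, -, hb0'⟩ := mem_V.mp m0.2
      have e : (rr l * rr l') * (a * b) = (rr l * rr l') * (a0 * b0) := by
        have e1 := h q hq
        have e2 := h q0 hq0
        rw [ha', hb'] at e1
        rw [ha0', hb0'] at e2
        calc (rr l * rr l') * (a * b) = rr l * a * (rr l' * b) := by ring
          _ = rr l * a0 * (rr l' * b0) := by rw [e1, e2]
          _ = _ := by ring
      have e' := Nat.eq_of_mul_eq_mul_left (Nat.mul_pos (rr_pos l) (rr_pos l')) e
      rcases prime_pair ha hb ha0 hb0 e' with ⟨h1, h2⟩ | ⟨h1, h2⟩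
      · left
        ext
        · rw [ha', ha0', h1]
        · rw [hb', hb0', h2]
      · right
        rw [ha0', hb0', Nat.mul_div_cancel_left _ (rr_pos l), Nat.mul_div_cancel_left _ (rr_pos l')]
        ext
        · simp only; rw [ha', h1]
        · simp only; rw [hb', h2]
    have hsub : P ⊆ {q0, (rr l * (q0.2 / rr l'), rr l' * (q0.1 / rr l))} := by
      intro q hq
      rw [Finset.mem_insert, Finset.mem_singleton]
      exact key q hq
    exact (Finset.card_le_card hsub).trans Finset.card_le_two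

/-- Numbers below `2 ^ h` with a prescribed residue modulo `2 ^ (k + 2)`. -/
theorem class_card (h k c : ℕ) (S : Finset ℕ) (hS : ∀ x ∈ S, x < 2 ^ h ∧ x % 2 ^ (k + 2) = c) :
    S.card ≤ 2 ^ (h - (k + 2)) := by
  have hinj : Set.InjOn (fun x : ℕ => x / 2 ^ (k + 2)) (S : Set ℕ) := by
    intro x hx y hy hxy
    have h1 := (hS x (Finset.mem_coe.mp hx)).2
    have h2 := (hS y (Finset.mem_coe.mp hy)).2
    have h3 : x / 2 ^ (k + 2) = y / 2 ^ (k + 2) := hxy
    rw [← Nat.div_add_mod x (2 ^ (k + 2)), ← Nat.div_add_mod y (2 ^ (k + 2)), h1, h2, h3]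
  have hsub : S.image (fun x : ℕ => x / 2 ^ (k + 2)) ⊆ Finset.range (2 ^ (h - (k + 2))) := by
    intro y hy
    obtain ⟨x, hx, rfl⟩ := Finset.mem_image.mp hy
    rw [Finset.mem_range]
    have h1 := (hS x hx).1
    rw [Nat.div_lt_iff_lt_mul (by positivity), ← pow_add]
    exact lt_of_lt_of_le h1 (Nat.pow_le_pow_right (by norm_num) (by omega))
  calc S.card = (S.image (fun x : ℕ => x / 2 ^ (k + 2))).card :=
        (Finset.card_image_of_injOn hinj).symm
    _ ≤ _ := by simpa using Finset.card_le_card hsub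

/-- Cancelling an odd factor in a congruence modulo a power of two. -/
theorem cancel_mod (M : ℕ) (r x y : ℕ) (hr : r % 2 = 1)
    (h : r * x % 2 ^ M = r * y % 2 ^ M) : x % 2 ^ M = y % 2 ^ M := by
  have hc : Nat.Coprime (2 ^ M) r := by
    apply Nat.Coprime.pow_left
    rw [Nat.coprime_two_left, Nat.odd_iff]
    exact hr
  exact Nat.ModEq.cancel_left_of_coprime hc h

/-- Counting by the value of the product and the class of the prime part. -/
theorem pairs_aux (l l' k c h : ℕ) (hh : l + l' ≤ 2 * h) :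
    ((V l ×ˢ V l').filter (fun q => q.1 * q.2 % 2 ^ (k + 2) = c)).card
      ≤ 2 * 2 ^ (h - (k + 2)) := by
  set P := (V l ×ˢ V l').filter (fun q => q.1 * q.2 % 2 ^ (k + 2) = c) with hP
  have hlt : ∀ q ∈ P, ∃ n, q.1 * q.2 = (rr l * rr l') * n ∧ n < 2 ^ h := by
    intro q hq
    rw [hP, Finset.mem_filter, Finset.mem_product] at hq
    obtain ⟨a, ha, -, ha2, -, ha'⟩ := mem_V.mp hq.1.1
    obtain ⟨b, hb, -, hb2, -, hb'⟩ := mem_V.mp hq.1.2
    refine ⟨a * b, by rw [ha', hb']; ring, ?_⟩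
    by_contra hcon
    push Not at hcon
    have h1 : 2 ^ h * 2 ^ h ≤ a * b * (a * b) := Nat.mul_le_mul hcon hcon
    have h2 : a * b * (a * b) < 2 ^ l * 2 ^ l' := by
      calc a * b * (a * b) = (a * a) * (b * b) := by ring
        _ < 2 ^ l * 2 ^ l' := Nat.mul_lt_mul'' ha2 hb2
    rw [← pow_add] at h1 h2
    have h3 : 2 ^ (l + l') ≤ 2 ^ (h + h) := Nat.pow_le_pow_right (by norm_num) (by omega)
    omega
  have hr : (rr l * rr l') % 2 = 1 := by
    rw [Nat.mul_mod, rr_odd, rr_odd]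
  have hrp : 0 < rr l * rr l' := Nat.mul_pos (rr_pos l) (rr_pos l')
  set S := P.image (fun q => q.1 * q.2 / (rr l * rr l')) with hS
  rcases P.eq_empty_or_nonempty with h0 | ⟨q0, hq0⟩
  · rw [h0]; simp
  obtain ⟨n0, hn0, -⟩ := hlt q0 hq0
  have hSc : S.card ≤ 2 ^ (h - (k + 2)) := by
    apply class_card h k (n0 % 2 ^ (k + 2))
    intro x hx
    obtain ⟨q, hq, rfl⟩ := Finset.mem_image.mp hx
    obtain ⟨n, hn, hnlt⟩ := hlt q hq
    have e : q.1 * q.2 / (rr l * rr l') = n := by
      rw [hn, Nat.mul_div_cancel_left _ hrp]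
    simp only [e]
    refine ⟨hnlt, ?_⟩
    apply cancel_mod _ (rr l * rr l') _ _ hr
    rw [← hn, ← hn0]
    rw [hP, Finset.mem_filter] at hq hq0
    rw [hq.2, hq0.2]
  have hfib : P.card ≤ 2 * S.card := by
    rw [hS]
    apply Finset.card_le_mul_card_image
    intro y hy
    obtain ⟨q1, hq1, hq1'⟩ := Finset.mem_image.mp hy
    apply V_fib l l' (q1.1 * q1.2)
    · intro q hq
      have := (Finset.mem_filter.mp hq).1
      rw [hP] at this
      exact (Finset.mem_filter.mp this).1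
    · intro q hq
      rw [Finset.mem_filter] at hq
      obtain ⟨n, hn, -⟩ := hlt q hq.1
      obtain ⟨n1, hn1, -⟩ := hlt q1 hq1
      have e1 : q.1 * q.2 / (rr l * rr l') = n := by rw [hn, Nat.mul_div_cancel_left _ hrp]
      have e2 : q1.1 * q1.2 / (rr l * rr l') = n1 := by rw [hn1, Nat.mul_div_cancel_left _ hrp]
      have e3 : n = n1 := by
        rw [← e1, ← e2, hq.2]
        exact hq1'.symm
      rw [hn, hn1, e3]
  calc P.card ≤ 2 * S.card := hfib
    _ ≤ _ := Nat.mul_le_mul_left _ hSc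

/-- (V2) -/
theorem V_pairs (l l' k c : ℕ) :
    ((V l ×ˢ V l').filter (fun q => q.1 * q.2 % 2 ^ (k + 2) = c)).card
      ≤ 2 * (2 ^ ((l + l' + 1) / 2 - k) + 1) := by
  refine (pairs_aux l l' k c ((l + l' + 1) / 2) (by omega)).trans ?_
  have : 2 ^ ((l + l' + 1) / 2 - (k + 2)) ≤ 2 ^ ((l + l' + 1) / 2 - k) :=
    Nat.pow_le_pow_right (by norm_num) (by omega)
  omega

/-- (V3) -/
theorem V_pairs_top (l l' k c : ℕ) (h : l + l' ≤ 2 * k) :
    ((V l ×ˢ V l').filter (fun q => q.1 * q.2 % 2 ^ (k + 2) = c)).card ≤ 2 := by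
  refine (pairs_aux l l' k c k h).trans ?_
  rw [show k - (k + 2) = 0 by omega]
  norm_num

/-- (V3), version for equality of products. -/
theorem V_pairs_eq (l l' c : ℕ) :
    ((V l ×ˢ V l').filter (fun q => q.1 * q.2 = c)).card ≤ 2 := by
  apply V_fib l l' c
  · exact Finset.filter_subset _ _
  · intro q hq
    exact (Finset.mem_filter.mp hq).2

/-- (V4) -/
theorem V_cls (l k c : ℕ) :
    ((V l).filter (fun z => z % 2 ^ (k + 2) = c)).card ≤ 2 ^ ((l + 1) / 2 - k) + 1 := by
  set P := (V l).filter (fun z => z % 2 ^ (k + 2) = c) with hP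
  rcases P.eq_empty_or_nonempty with h0 | ⟨q0, hq0⟩
  · rw [h0]; simp
  have hq0' := hq0
  rw [hP, Finset.mem_filter] at hq0'
  obtain ⟨a0, -, -, -, -, ha0⟩ := mem_V.mp hq0'.1
  have h1 : P.card = (P.image (fun z => z / rr l)).card := by
    symm
    apply Finset.card_image_of_injOn
    intro x hx y hy hxy
    have hx' := Finset.mem_coe.mp hx
    have hy' := Finset.mem_coe.mp hy
    rw [hP, Finset.mem_filter] at hx' hy'
    obtain ⟨a, -, -, -, -, ha⟩ := mem_V.mp hx'.1
    obtain ⟨b, -, -, -, -, hb⟩ := mem_V.mp hy'.1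
    have h3 : x / rr l = y / rr l := hxy
    rw [ha, hb, Nat.mul_div_cancel_left _ (rr_pos l), Nat.mul_div_cancel_left _ (rr_pos l)] at h3
    rw [ha, hb, h3]
  have h2 : (P.image (fun z => z / rr l)).card ≤ 2 ^ ((l + 1) / 2 - (k + 2)) := by
    apply class_card _ k (a0 % 2 ^ (k + 2))
    intro x hx
    obtain ⟨z, hz, rfl⟩ := Finset.mem_image.mp hx
    rw [hP, Finset.mem_filter] at hz
    obtain ⟨a, -, -, ha2, -, ha⟩ := mem_V.mp hz.1
    have e : z / rr l = a := by rw [ha, Nat.mul_div_cancel_left _ (rr_pos l)]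
    simp only [e]
    constructor
    · by_contra hcon
      push Not at hcon
      have h3 : 2 ^ ((l + 1) / 2) * 2 ^ ((l + 1) / 2) ≤ a * a := Nat.mul_le_mul hcon hcon
      rw [← pow_add] at h3
      have h4 : 2 ^ l ≤ 2 ^ ((l + 1) / 2 + (l + 1) / 2) :=
        Nat.pow_le_pow_right (by norm_num) (by omega)
      omega
    · apply cancel_mod _ (rr l) _ _ (rr_odd l)
      rw [← ha, ← ha0, hz.2, hq0'.2]
  have h3 : 2 ^ ((l + 1) / 2 - (k + 2)) ≤ 2 ^ ((l + 1) / 2 - k) :=
    Nat.pow_le_pow_right (by norm_num) (by omega)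
  omega

/-- (V5) -/
theorem V_mul_lt {l l' z z' : ℕ} (hz : z ∈ V l) (hz' : z' ∈ V l') :
    (z * z') * (z * z') < 81 * 2 ^ (l + l') := by
  have h1 := V_sq_lt hz
  have h2 := V_sq_lt hz'
  calc (z * z') * (z * z') = (z * z) * (z' * z') := by ring
    _ < (9 * 2 ^ l) * (9 * 2 ^ l') := Nat.mul_lt_mul'' h1 h2
    _ = 81 * 2 ^ (l + l') := by rw [pow_add]; ring

/-- (V6) -/
theorem V_first (l a G : ℕ) (h : a ≤ l) :
    ((V l).filter (fun z => ∃ z' ∈ V a, z * z' % 2 ^ (a + 2) = G)).card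
      ≤ 2 ^ ((l - a) / 2 + 4) := by
  classical
  have h1 : ((V l).filter (fun z => ∃ z' ∈ V a, z * z' % 2 ^ (a + 2) = G)).card ≤
      ((V l ×ˢ V a).filter (fun q => q.1 * q.2 % 2 ^ (a + 2) = G)).card := by
    have hsub : (V l).filter (fun z => ∃ z' ∈ V a, z * z' % 2 ^ (a + 2) = G) ⊆
        ((V l ×ˢ V a).filter (fun q => q.1 * q.2 % 2 ^ (a + 2) = G)).image Prod.fst := by
      intro z hz
      rw [Finset.mem_filter] at hz
      obtain ⟨hz1, z', hz', e⟩ := hz
      rw [Finset.mem_image]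
      exact ⟨(z, z'), Finset.mem_filter.mpr ⟨Finset.mem_product.mpr ⟨hz1, hz'⟩, e⟩, rfl⟩
    exact (Finset.card_le_card hsub).trans Finset.card_image_le
  refine h1.trans ((V_pairs l a a G).trans ?_)
  have h2 : 2 ^ ((l + a + 1) / 2 - a) ≤ 2 ^ ((l - a) / 2 + 1) :=
    Nat.pow_le_pow_right (by norm_num) (by omega)
  have h3 : 2 ^ ((l - a) / 2 + 4) = 8 * 2 ^ ((l - a) / 2 + 1) := by
    rw [show (l - a) / 2 + 4 = ((l - a) / 2 + 1) + 3 by omega, pow_add]
    ring
  have h4 : 0 < 2 ^ ((l - a) / 2 + 1) := by positivity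
  omega

end Pool.Agent.Helper41.ETV
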